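import Pool.Agent.Mg.Fbe203f.Gd087ac

section

namespace Pool.Agent.MP_be203f_lc.Z

open Cardinal Set Filter Topology TopologicalSpace Pool.Agent.MP_be203f_lc.R

universe u

variable {K : Type u}

variable (K) in
/-- No small family separates two compact sets of ultrafilters. -/
def SQw : Prop := ∀ X₀ X₁ : Set (Ultrafilter K), KC X₀ → KC X₁ → (∀ x, pure x ∈ X₀ ∩ X₁) →
  ∀ (J : Type u) (A : J → Set K), #J ≤ #K →
    ¬ ∀ p ∈ X₀, ∀ q ∈ X₁, ∃ i j, A i ∈ p ∧ A j ∈ q ∧ (A i ∩ A j).Subsingleton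

/-- The same points with a coarser topology. -/
def Zw (X : Bool → Set (Ultrafilter K)) {J : Type u} (_ : J → Set K) : Type u := Zs X

/-- Its basic open sets. -/
def bw (X : Bool → Set (Ultrafilter K)) {J : Type u} (A : J → Set K) (j : Bool × List J) :
    Set (Zw X A) := bs X (j.1, {x | ∀ i ∈ j.2, x ∈ A i})

instance (X : Bool → Set (Ultrafilter K)) {J : Type u} (A : J → Set K) :
    TopologicalSpace (Zw X A) := generateFrom (range (bw X A))

theorem basis_bw {X : Bool → Set (Ultrafilter K)} {J : Type u} {A : J → Set K} :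
    IsTopologicalBasis (range (bw X A)) := by
  refine ⟨?_, ?_, rfl⟩
  · rintro _ ⟨⟨i, l⟩, rfl⟩ _ ⟨⟨j, m⟩, rfl⟩ z ⟨h₁, h₂⟩
    refine ⟨_, ⟨(i, l ++ m), rfl⟩, ⟨h₁.1, mem_of_superset (inter_mem h₁.2 h₂.2) fun x hx a ha =>
      (List.mem_append.1 ha).elim (hx.1 a) (hx.2 a)⟩, fun y hy =>
      ⟨⟨hy.1, mem_of_superset hy.2 fun x hx a ha => hx a (List.mem_append_left _ ha)⟩,
        hy.1.trans (h₁.1.symm.trans h₂.1),
        mem_of_superset hy.2 fun x hx a ha => hx a (List.mem_append_right _ ha)⟩⟩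
  · exact eq_univ_of_forall fun z => ⟨_, ⟨(z.1.1, []), rfl⟩, rfl, univ_mem' fun _ _ h => nomatch h⟩

theorem sqw_of (hK : ℵ₀ ≤ #K) (h : SqCompact #K #K) : SQw K := by
  classical
  intro X₀ X₁ h₀ h₁ hp J A hJ sep
  let X : Bool → Set (Ultrafilter K) := fun i => cond i X₁ X₀
  have op : ∀ j, IsOpen (bw X A j) := fun j => basis_bw.isOpen ⟨j, rfl⟩
  have hk := h (Zw X A) ⟨_, basis_bw, mk_range_le.trans (by
    simp only [mk_prod, mk_bool, lift_ofNat, lift_uzero]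
    exact mul_le_of_le hK ((natCast_lt_aleph0 (n := 2)).le.trans hK)
      ((mk_list_le_max J).trans (max_le hK hJ)))⟩ fun C hC =>
    kcompact_Zs hK (fun i => by cases i <;> assumption) C fun U hU =>
      (hC U hU).mono (generateFrom_anti (by rintro _ ⟨j, rfl⟩; exact ⟨_, rfl⟩))
  let d : K → Zw X A × Zw X A := fun x => (⟨(false, pure x), (hp x).1⟩, ⟨(true, pure x), (hp x).2⟩)
  obtain ⟨D, d₁, d₂, d₃⟩ := hk {O | IsOpen O ∧ (d ⁻¹' O).Subsingleton} (fun _ h => h.1) (by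
    refine eq_univ_of_forall ?_
    rintro ⟨⟨⟨i, p⟩, hp⟩, ⟨⟨j, q⟩, hq⟩⟩
    cases i with
    | true => exact ⟨bw X A (true, []) ×ˢ Set.univ, ⟨(op _).prod isOpen_univ,
        fun z hz => nomatch hz.1.1⟩, ⟨rfl, univ_mem' fun _ _ h => nomatch h⟩, trivial⟩
    | false =>
    cases j with
    | false => exact ⟨Set.univ ×ˢ bw X A (false, []), ⟨isOpen_univ.prod (op _),
        fun z hz => nomatch hz.2.1⟩, trivial, rfl, univ_mem' fun _ _ h => nomatch h⟩
    | true =>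
    obtain ⟨i, j, e₁, e₂, e₃⟩ := sep p hp q hq
    exact ⟨bw X A (false, [i]) ×ˢ bw X A (true, [j]), ⟨(op _).prod (op _), e₃.anti fun x hx =>
      ⟨hx.1.2 i (List.mem_singleton_self i), hx.2.2 j (List.mem_singleton_self j)⟩⟩,
      ⟨rfl, mem_of_superset e₁ fun x hx a ha => List.mem_singleton.1 ha ▸ hx⟩,
      rfl, mem_of_superset e₂ fun x hx a ha => List.mem_singleton.1 ha ▸ hx⟩)
  choose O hO hO' using fun x => (d₃ ▸ mem_univ (d x) : d x ∈ ⋃₀ D)
  refine not_le.2 d₂ ⟨⟨fun x => ⟨O x, hO x⟩, fun x y e => (d₁ (hO x)).2 (hO' x) ?_⟩⟩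
  rw [show O x = O y from congrArg Subtype.val e]
  exact hO' y

theorem exists_rec {M V : Type*} [LinearOrder M] [WellFoundedLT M] (v : V) (Φ : M → (M → V) → V)
    (h : ∀ i g g', (∀ j < i, g j = g' j) → Φ i g = Φ i g') : ∃ g : M → V, ∀ i, g i = Φ i g := by
  classical
  let g : M → V := wellFounded_lt.fix fun i f => Φ i fun j => if h : j < i then f j h else v
  refine ⟨g, fun i => ?_⟩
  have : g i = Φ i fun j => if j < i then g j else v := wellFounded_lt.fix_eq _ i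
  exact this.trans (h _ _ _ fun j hj => if_pos hj)

variable [LinearOrder K]

theorem reg_of_sqw [WellFoundedLT K] (hK : ℵ₀ < #K) (small : ∀ x : K, #(Iio x) < #K) (sq : SQw K)
    {ι : Type u} (hι : #ι < #K) (f : ι → K) : ∃ γ, ∀ i, f i < γ := by
  by_contra hn
  push Not at hn
  have sm : ∀ x : K, #(Iic x) < #K := fun x => by
    rw [← Iio_insert, mk_insert (by simp)]
    exact add_lt_of_lt hK.le (small x) (one_lt_aleph0.trans hK)
  have : NoMaxOrder K := ⟨fun x => by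
    by_contra h
    push Not at h
    exact not_le.2 (sm x) (mk_univ (α := K) ▸ mk_le_mk_of_subset fun y _ => h y)⟩
  have : Nonempty K := mk_ne_zero_iff.1 (aleph0_pos.trans hK).ne'
  refine sq {p | (∃ x, p = pure x) ∨ ↑p ≤ (atTop : Filter K)} {p | ∃ i, Iic (f i) ∈ p} ?_ ?_
    (fun x => ⟨Or.inl ⟨x, rfl⟩, hn x⟩) (K ⊕ K ⊕ K) (Sum.elim singleton (Sum.elim Iic Ioi))
    (by simp [add_eq_self hK.le]) ?_
  · intro U cov
    obtain ⟨S, hS, V, h₁, h₂, h₃⟩ := fin_compact cov (F := atTop) fun p hp => Or.inr hp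
    obtain ⟨ζ, hζ⟩ := mem_atTop_sets.1 hS
    choose A hA hA' using fun x : Iio ζ => cov (pure x.1) (Or.inl ⟨_, rfl⟩)
    refine ⟨V ∪ range A, union_subset h₁ (range_subset_iff.2 hA), (mk_union_le _ _).trans_lt
      (add_lt_of_lt hK.le (h₂.lt_aleph0.trans hK) (mk_range_le.trans_lt (small ζ))), ?_⟩
    rintro p (⟨x, rfl⟩ | hp)
    · rcases lt_or_ge x ζ with h | h
      · exact ⟨_, Or.inr ⟨⟨x, h⟩, rfl⟩, hA' _⟩
      · exact (h₃ _ (hζ x h)).imp fun B hB => ⟨Or.inl hB.1, hB.2⟩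
    · exact (h₃ _ (hp hS)).imp fun B hB => ⟨Or.inl hB.1, hB.2⟩
  · intro U cov
    choose S hS V h₁ h₂ h₃ using fun i => fin_compact cov (F := 𝓟 (Iic (f i)))
      fun p hp => ⟨i, le_principal_iff.1 hp⟩
    refine ⟨⋃ i, V i, iUnion_subset h₁, (mk_iUnion_le_sum_mk.trans
      (sum_le_sum _ (fun _ => ℵ₀) fun i => (h₂ i).lt_aleph0.le)).trans_lt ?_, ?_⟩
    · rw [sum_const']
      exact mul_lt_of_lt hK.le hι hK
    · rintro p ⟨i, hi⟩
      exact (h₃ i p (mem_of_superset hi (hS i))).imp fun B hB => ⟨mem_iUnion.2 ⟨i, hB.1⟩, hB.2⟩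
  · rintro p (⟨x, rfl⟩ | hp) q ⟨i, hi⟩
    · exact ⟨.inl x, .inr (.inl (f i)), rfl, hi, subsingleton_singleton.anti inter_subset_left⟩
    · exact ⟨.inr (.inr (f i)), .inr (.inl (f i)), hp (Ioi_mem_atTop _), hi,
        fun x hx => absurd hx.2 (not_le.2 hx.1)⟩

theorem coinit {M : Type u} [LinearOrder M] [WellFoundedLT M] (G : Set (Lex (M → Bool))) :
    ∃ t : Option M → Lex (M → Bool), ∀ z ∈ G, ∃ i, t i ∈ G ∧ t i ≤ z := by
  classical
  let h : M → Lex (M → Bool) := fun i => toLex fun j => if j < i then sInf G j else decide (j = i)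
  have : ∀ i, ∃ t, sInf G < h i → t ∈ G ∧ t < h i := fun i => by
    by_cases e : sInf G < h i
    · obtain ⟨t, ht⟩ := sInf_lt_iff.1 e
      exact ⟨t, fun _ => ht⟩
    · exact ⟨sInf G, fun e' => absurd e' e⟩
  choose t ht using this
  refine ⟨fun o => o.elim (sInf G) t, fun z hz => ?_⟩
  rcases (sInf_le hz).eq_or_lt with e | ⟨i, e₁, e₂⟩
  · exact ⟨none, e ▸ hz, e.le⟩
  · obtain ⟨e₃, e₄⟩ := Bool.lt_iff.1 e₂
    obtain ⟨a₁, a₂⟩ := ht i ⟨i, fun j hj => (if_pos hj).symm, by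
      show sInf G i < if i < i then sInf G i else decide (i = i)
      rw [if_neg (lt_irrefl i), show sInf G i = false from e₃]
      simp⟩
    refine ⟨some i, a₁, a₂.le.trans (Pi.toLex_monotone fun j => ?_)⟩
    show (if j < i then sInf G j else decide (j = i)) ≤ z j
    split_ifs with hj
    · exact (e₁ j hj).le
    · by_cases e : j = i
      · subst e
        rw [show z j = true from e₄]
        exact le_top
      · simp [e]

end Pool.Agent.MP_be203f_lc.Z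

end

section

namespace Pool.Agent.MP_be203f_lc.Z

open Cardinal Set Filter Pool.Agent.MP_be203f_lc.R

universe u

variable {K : Type u} [LinearOrder K] [RK K]

section Strong

variable {M : Type u} [LinearOrder M] [WellFoundedLT M]

/-- Basic sets around a word, on its right. -/
def Rt (e : K → M → Bool) (x : K) (l : List M) : Set K :=
  {z | (∀ i ∈ l, e z i = e x i) ∧ toLex (e x) ≤ toLex (e z)}

theorem kc_lex (hM : #M < #K) {e : K → M → Bool} (he : Function.Injective e) :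
    KC {p : Ultrafilter K | ∃ x, ∀ l, Rt e x l ∈ p} := by
  intro U cov
  set X := {p : Ultrafilter K | ∃ x, ∀ l, Rt e x l ∈ p}
  have : ∀ x, ∃ l, SC X U fun q => Rt e x l ∈ q := fun x => by
    obtain ⟨S, hS, h⟩ := sc_compact cov (F := ⨅ l, 𝓟 (Rt e x l))
      fun p hp => ⟨x, fun l => le_principal_iff.1 (le_iInf_iff.1 hp l)⟩
    obtain ⟨l, hl⟩ := (mem_iInf_of_directed (f := fun l => 𝓟 (Rt e x l)) (fun l m => ⟨l ++ m,
      principal_mono.2 fun z hz => ⟨fun i hi => hz.1 i (List.mem_append_left _ hi), hz.2⟩,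
      principal_mono.2 fun z hz => ⟨fun i hi => hz.1 i (List.mem_append_right _ hi), hz.2⟩⟩) _).1 hS
    exact ⟨l, h.mono fun q _ hq => mem_of_superset hq hl⟩
  choose l hl using this
  let γ : K → List (M × Bool) := fun x => (l x).map fun i => (i, e x i)
  choose t ht using fun s => coinit ((fun x => toLex (e x)) '' (γ ⁻¹' {s}))
  have hc : #(List (M × Bool) × Option M) < #K := by
    simp only [mk_prod, lift_id, mk_option]
    refine mul_lt_of_lt aleph0_lt.le ((mk_list_le_max _).trans_lt (max_lt aleph0_lt ?_))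
      (add_lt_of_lt aleph0_lt.le hM (one_lt_aleph0.trans aleph0_lt))
    simp only [mk_prod, mk_bool, lift_ofNat, lift_uzero]
    exact mul_lt_of_lt aleph0_lt.le hM ((natCast_lt_aleph0 (n := 2)).trans aleph0_lt)
  obtain ⟨V, h₁, h₂, h₃⟩ := SC.iUnion hc (X := X) (U := U)
    (P := fun j q => ∃ y, toLex (e y) = t j.1 j.2 ∧ Rt e y (l y) ∈ q) fun j => by
      by_cases h : ∃ y, toLex (e y) = t j.1 j.2
      · obtain ⟨y, hy⟩ := h
        refine (hl y).mono ?_
        rintro q - ⟨y', a₁, a₂⟩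
        rwa [← he (toLex.injective (a₁.trans hy.symm))]
      · exact SC.of_false.mono fun q _ ⟨y, a₁, _⟩ => h ⟨y, a₁⟩
  refine ⟨V, h₁, h₂, fun p hp => h₃ p hp ?_⟩
  obtain ⟨x, hx⟩ := hp
  obtain ⟨i, ⟨y, a₁, a₂⟩, a₃⟩ := ht (γ x) _ ⟨x, rfl, rfl⟩
  refine ⟨(γ x, i), y, a₂, mem_of_superset (hx (l x)) fun z hz => ⟨fun j hj => ?_,
    (a₂.trans_le a₃).trans hz.2⟩⟩
  have : (j, e y j) ∈ γ x := (show γ y = γ x from a₁) ▸ List.mem_map.2 ⟨j, hj, rfl⟩
  obtain ⟨j', b₁, b₂⟩ := List.mem_map.1 this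
  obtain rfl : j' = j := congrArg Prod.fst b₂
  exact (hz.1 _ b₁).trans (congrArg Prod.snd b₂)

theorem strong_of_sqw (sq : SQw K) (hM : #M < #K) : #(M → Bool) < #K := by
  by_contra hn
  obtain ⟨e⟩ := (Cardinal.le_def _ _).1 (not_lt.1 hn)
  let e' : K → M → Bool := fun x i => !e x i
  have he' : Function.Injective e' := fun x y h => e.injective (funext fun i =>
    Bool.not_inj (congrFun h i))
  refine sq _ _ (kc_lex hM e.injective) (kc_lex hM he')
    (fun x => ⟨⟨x, fun l => ⟨fun _ _ => rfl, le_rfl⟩⟩, ⟨x, fun l => ⟨fun _ _ => rfl, le_rfl⟩⟩⟩)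
    ((K × Option M) ⊕ (K × Option M))
    (Sum.elim (fun j => Rt e j.1 j.2.toList) fun j => Rt e' j.1 j.2.toList) ?_ ?_
  · have : #(K × Option M) ≤ #K := by
      simp only [mk_prod, lift_id, mk_option]
      exact mul_le_of_le aleph0_lt.le le_rfl
        (add_lt_of_lt aleph0_lt.le hM (one_lt_aleph0.trans aleph0_lt)).le
    rw [mk_sum, lift_id]
    exact add_le_of_le aleph0_lt.le this this
  · rintro p ⟨x, hx⟩ q ⟨y, hy⟩
    by_cases h : x = y
    · subst h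
      refine ⟨.inl (x, none), .inr (x, none), hx _, hy _, (subsingleton_singleton (a := x)).anti
        fun z hz => ?_⟩
      rcases hz.1.2.eq_or_lt with a | ⟨i, a₁, a₂⟩
      · exact (e.injective (toLex.injective a)).symm
      rcases hz.2.2.eq_or_lt with b | ⟨j, b₁, b₂⟩
      · exact (he' (toLex.injective b)).symm
      have a₃ : e x i < e z i := a₂
      have b₃ : (!e x j) < !e z j := b₂
      rcases lt_trichotomy i j with c | rfl | c
      · exact absurd (Bool.not_inj (b₁ i c)) a₃.ne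
      · rw [(Bool.lt_iff.1 a₃).1] at b₃
        exact absurd (Bool.lt_iff.1 b₃).1 (by simp)
      · exact absurd (congrArg not (a₁ j c)) b₃.ne
    · obtain ⟨i, hi⟩ := Function.ne_iff.1 (e.injective.ne h)
      exact ⟨.inl (x, some i), .inr (y, some i), hx _, hy _, fun z hz => absurd
        ((hz.1.1 i (by simp)).symm.trans (Bool.not_inj (hz.2.1 i (by simp)))) hi⟩

end Strong

variable (c : K → K → Bool)

/-- Points that agree with the word up to a coordinate. -/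
def Cq (g : K → Bool) (β : K) : Set K := {x | ∀ η ≤ β, c η x = g η}

/-- Points that leave the word on one side. -/
def Sd (b : Bool) (g : K → Bool) (α : K) : Set K :=
  {x | ∃ ξ < α, (∀ η < ξ, c η x = g η) ∧ g ξ = b ∧ c ξ x = !b}

/-- Ultrafilters that leave the word on one side at a limit stage. -/
def Ty (b : Bool) (g : K → Bool) (α : K) (p : Ultrafilter K) : Prop :=
  ↑p ≤ (atTop : Filter K) ∧ (∀ β < α, Cq c g β ∈ p) ∧ Sd c b g α ∈ p

variable {c}

omit [RK K] in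
theorem Sd_congr {b : Bool} {g g' : K → Bool} {α : K} (h : ∀ η < α, g η = g' η) :
    Sd c b g α ⊆ Sd c b g' α := fun _ ⟨ξ, h₁, h₂, h₃, h₄⟩ =>
  ⟨ξ, h₁, fun η hη => (h₂ η hη).trans (h η (hη.trans h₁)), h ξ h₁ ▸ h₃, h₄⟩

theorem sc_Ty {b : Bool} {U : Set (Set K)} {X : Set (Ultrafilter K)}
    (cov : ∀ p ∈ X, ∃ A ∈ U, A ∈ p) (hX : ∀ g α p, Ty c b g α p → p ∈ X) (g : K → Bool) {α β₀ : K}
    (h₀ : β₀ < α) : ∃ β < α, ∃ S ∈ (atTop : Filter K),
      SC X U fun q => S ∩ Cq c g β ∩ Sd c b g α ∈ q := by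
  have : Nonempty (Iio α) := ⟨⟨β₀, h₀⟩⟩
  obtain ⟨S, hS, h⟩ := sc_compact cov
    (F := atTop ⊓ (⨅ β : Iio α, 𝓟 (Cq c g β.1)) ⊓ 𝓟 (Sd c b g α)) fun p hp => hX g α p
      ⟨hp.trans (inf_le_left.trans inf_le_left), fun β hβ => le_principal_iff.1 (le_iInf_iff.1
        (hp.trans (inf_le_left.trans inf_le_right)) ⟨β, hβ⟩),
        le_principal_iff.1 (hp.trans inf_le_right)⟩
  obtain ⟨_, a₁, S₃, a₂, rfl⟩ := mem_inf_iff.1 hS
  obtain ⟨S₁, a₃, S₂, a₄, rfl⟩ := mem_inf_iff.1 a₁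
  obtain ⟨β, hβ⟩ := (mem_iInf_of_directed (f := fun β : Iio α => 𝓟 (Cq c g β.1))
    (fun β γ => ⟨max β γ,
    principal_mono.2 fun z hz η hη => hz η (hη.trans (le_max_left β γ)),
    principal_mono.2 fun z hz η hη => hz η (hη.trans (le_max_right β γ))⟩) _).1 a₄
  exact ⟨β.1, β.2, S₁, a₃, h.mono fun q _ hq => mem_of_superset hq fun x hx =>
    ⟨⟨hx.1.1, hβ hx.1.2⟩, a₂ hx.2⟩⟩

theorem kc_Ty (st : ∀ α : K, #(Iio α → Bool) < #K) (b : Bool)
    (nb : ∀ g : K → Bool, ∃ α ζ, ∀ x, ζ ≤ x → ∃ η < α, c η x ≠ g η) :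
    KC {p : Ultrafilter K | (∃ x, p = pure x) ∨ ∃ g α, Ty c b g α p} := by
  classical
  intro U cov
  set X := {p : Ultrafilter K | (∃ x, p = pure x) ∨ ∃ g α, Ty c b g α p}
  have hX : ∀ g α p, Ty c b g α p → p ∈ X := fun g α p h => Or.inr ⟨g, α, h⟩
  have bd : ∀ {S : Set K}, S ∈ atTop → SC X U fun q => Sᶜ ∈ q := fun hS =>
    sc_bdd cov (fun x => Or.inl ⟨x, rfl⟩)
      (fun q hq => hq.imp id fun ⟨_, _, h⟩ => h.1) hS
  have ty : ∀ g α, SC X U (Ty c b g α) := fun g α => by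
    by_cases h : ∃ β, β < α
    · obtain ⟨β, h₁, S, h₂, h₃⟩ := sc_Ty cov hX g h.choose_spec
      exact h₃.mono fun q _ hq => inter_mem (inter_mem (hq.1 h₂) (hq.2.1 β h₁)) hq.2.2
    · refine SC.of_false.mono fun q _ hq => ?_
      obtain ⟨x, ξ, h₁, -⟩ := Ultrafilter.nonempty_of_mem hq.2.2
      exact h ⟨ξ, h₁⟩
  have low : ∀ α, SC X U fun q => ∃ g, ∃ α' ≤ α, Ty c b g α' q := fun α => by
    refine (SC.iUnion (ι := Iic α × (Iio α → Bool)) (by
      rw [mk_prod, lift_id, lift_id]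
      exact mul_lt_of_lt aleph0_lt.le (small_Iic α) (st α)) fun j =>
        ty (fun η => if h : η < α then j.2 ⟨η, h⟩ else b) j.1.1).mono ?_
    rintro q - ⟨g, α', h₁, h₂, h₃, h₄⟩
    have e : ∀ η < α', g η = if h : η < α then g η else b := fun η hη => by
      rw [dif_pos (hη.trans_le h₁)]
    exact ⟨(⟨α', h₁⟩, fun η => g η.1), h₂, fun β hβ => mem_of_superset (h₃ β hβ)
      fun x hx η hη => (hx η hη).trans (e η (hη.trans_lt hβ)), mem_of_superset h₄ (Sd_congr e)⟩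
  obtain ⟨g, hg⟩ := exists_rec b (fun ξ (g : K → Bool) =>
    if SC X U fun q => {x | (∀ η < ξ, c η x = g η) ∧ c ξ x = b} ∈ q then !b else b) (by
      intro ξ g g' h
      have : {x | (∀ η < ξ, c η x = g η) ∧ c ξ x = b} = {x | (∀ η < ξ, c η x = g' η) ∧ c ξ x = b} :=
        Set.ext fun x => and_congr_left fun _ => forall₂_congr fun η hη => by rw [h η hη]
      simp only [this])
  have g₁ : ∀ ξ, g ξ ≠ b → SC X U fun q => {x | (∀ η < ξ, c η x = g η) ∧ c ξ x = b} ∈ q :=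
    fun ξ h => by_contra fun h' => h ((hg ξ).trans (if_neg h'))
  have g₂ : ∀ ξ, g ξ = b → ¬ SC X U fun q => {x | (∀ η < ξ, c η x = g η) ∧ c ξ x = b} ∈ q :=
    fun ξ h h' => absurd (h.symm.trans ((hg ξ).trans (if_pos h'))) (by simp)
  by_contra hn
  have key : ∀ α, ¬ SC X U fun q => {x | ∀ η < α, c η x = g η} ∈ q := by
    intro α
    induction α using WellFoundedLT.induction with
    | ind α ih =>
    intro hα
    by_cases h : ∃ β, β < α
    swap
    · obtain ⟨V, h₁, h₂, h₃⟩ := hα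
      exact hn ⟨V, h₁, h₂, fun p hp => h₃ p hp (univ_mem' fun x η hη => absurd ⟨η, hη⟩ h)⟩
    obtain ⟨β, h₁, S, h₂, h₃⟩ := sc_Ty cov hX g h.choose_spec
    have h₄ := SC.iUnion (ι := {ξ // ξ < α ∧ g ξ ≠ b}) ((mk_le_mk_of_subset
      (t := Iio α) fun ξ hξ => hξ.1).trans_lt (RK.small α)) fun ξ => g₁ ξ.1 ξ.2.2
    have h₅ : SC X U fun q => Cq c g β ∈ q := by
      refine ((((hα.or h₃).or h₄).or (low α)).or (bd h₂)).mono fun q hq hβ => ?_
      by_cases a₁ : {x | ∀ η < α, c η x = g η} ∈ q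
      · exact Or.inl (Or.inl (Or.inl (Or.inl a₁)))
      by_cases a₂ : S ∈ q
      swap
      · exact Or.inr (Ultrafilter.compl_mem_iff_notMem.2 a₂)
      by_cases a₃ : Sd c b g α ∈ q
      · exact Or.inl (Or.inl (Or.inl (Or.inr (inter_mem (inter_mem a₂ hβ) a₃))))
      have first : ∀ x, x ∉ {x | ∀ η < α, c η x = g η} → x ∉ Sd c b g α →
          ∃ ξ, (ξ < α ∧ g ξ ≠ b) ∧ (∀ η < ξ, c η x = g η) ∧ c ξ x = b := by
        intro x b₁ b₂
        obtain ⟨ξ, ⟨b₃, b₄⟩, b₅⟩ := wellFounded_lt.has_min {η | η < α ∧ c η x ≠ g η}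
          (by simpa [Set.Nonempty] using b₁)
        have b₆ : ∀ η < ξ, c η x = g η := fun η hη =>
          by_contra fun h' => b₅ η ⟨hη.trans b₃, h'⟩ hη
        have b₇ : g ξ ≠ b := fun h' => b₂ ⟨ξ, b₃, b₆, h', Bool.eq_not_iff.2 (h' ▸ b₄)⟩
        refine ⟨ξ, ⟨b₃, b₇⟩, b₆, ?_⟩
        revert b₄ b₇
        cases c ξ x <;> cases g ξ <;> cases b <;> simp
      rcases hq with ⟨x, rfl⟩ | ⟨g', α', hq⟩
      · obtain ⟨ξ, b₁, b₂⟩ := first x a₁ a₃
        exact Or.inl (Or.inl (Or.inr ⟨⟨ξ, b₁⟩, b₂⟩))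
      rcases le_or_gt α' α with a₄ | a₄
      · exact Or.inl (Or.inr ⟨g', α', a₄, hq⟩)
      obtain ⟨x, ⟨b₁, b₂⟩, b₃⟩ := Ultrafilter.nonempty_of_mem (inter_mem (inter_mem
        (Ultrafilter.compl_mem_iff_notMem.2 a₁) (Ultrafilter.compl_mem_iff_notMem.2 a₃))
        (hq.2.1 α a₄))
      obtain ⟨ξ, b₄, b₅, b₆⟩ := first x b₁ b₂
      refine Or.inl (Or.inl (Or.inr ⟨⟨ξ, b₄⟩, mem_of_superset (hq.2.1 α a₄) fun y hy =>
        ⟨fun η hη => ?_, ?_⟩⟩))
      · have := (hη.trans b₄.1).le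
        rw [hy η this, ← b₃ η this, b₅ η hη]
      · rw [hy ξ b₄.1.le, ← b₃ ξ b₄.1.le, b₆]
    by_cases a₁ : g β = b
    · exact g₂ β a₁ (h₅.mono fun q _ hq => mem_of_superset hq fun x hx η hη =>
        hη.eq_or_lt.elim (fun e => e ▸ hx.2.trans a₁.symm) (hx.1 η))
    · refine ih β h₁ ((h₅.or (g₁ β a₁)).mono fun q _ hq => Ultrafilter.union_mem_iff.1
        (mem_of_superset hq fun x hx => ?_))
      by_cases a₂ : c β x = b
      · exact Or.inr ⟨hx, a₂⟩
      · refine Or.inl fun η hη => hη.eq_or_lt.elim (fun e => ?_) (hx η)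
        subst e
        revert a₁ a₂
        cases c η x <;> cases g η <;> cases b <;> simp
  obtain ⟨α, ζ, h⟩ := nb g
  refine key α ((bd (Ici_mem_atTop ζ)).mono fun q _ hq => mem_of_superset hq fun x hx hx' => ?_)
  obtain ⟨η, h₁, h₂⟩ := h x hx'
  exact h₂ (hx η h₁)

theorem branch_of_sqw (sq : SQw K) (c : K → K → Bool) :
    ∃ g : K → Bool, ∀ α ζ, ∃ x, ζ ≤ x ∧ ∀ η < α, c η x = g η := by
  classical
  by_contra nb
  push Not at nb
  have st : ∀ α : K, #(Iio α → Bool) < #K := fun α => strong_of_sqw sq (RK.small α)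
  let ex : (Σ α : K, Iio α → Bool) → K → Bool := fun j η =>
    if h : η < j.1 then j.2 ⟨η, h⟩ else false
  have hex : ∀ (g : K → Bool) α, ∀ η < α, g η = ex ⟨α, fun η => g η.1⟩ η := fun g α η hη => by
    simp only [ex, dif_pos hη]
  refine sq _ _ (kc_Ty st false nb) (kc_Ty st true nb) (fun x => ⟨Or.inl ⟨x, rfl⟩, Or.inl ⟨x, rfl⟩⟩)
    (Option K ⊕ (K × Bool) ⊕ (Σ α : K, Iio α → Bool) × Bool)
    (Sum.elim (fun o => o.elim Set.univ singleton) (Sum.elim (fun j => {x | c j.1 x = j.2})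
      fun j => Sd c j.2 (ex j.1) j.1.1)) ?_ ?_
  · have h₁ : #(Σ α : K, Iio α → Bool) ≤ #K := by
      rw [mk_sigma]
      exact (sum_le_sum _ (fun _ => #K) fun α => (st α).le).trans
        (by rw [sum_const', mul_eq_self aleph0_lt.le])
    have h₂ : (2 : Cardinal.{u}) ≤ #K := ((natCast_lt_aleph0 (n := 2)).trans aleph0_lt).le
    simp only [mk_sum, mk_prod, mk_option, mk_bool, lift_ofNat, lift_uzero, lift_id]
    exact add_le_of_le aleph0_lt.le (add_le_of_le aleph0_lt.le le_rfl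
      (one_lt_aleph0.trans aleph0_lt).le) (add_le_of_le aleph0_lt.le
      (mul_le_of_le aleph0_lt.le le_rfl h₂) (mul_le_of_le aleph0_lt.le h₁ h₂))
  · rintro p (⟨x, rfl⟩ | ⟨g, α, hp⟩) q hq
    · exact ⟨.inl (some x), .inl none, rfl, univ_mem, subsingleton_singleton.anti inter_subset_left⟩
    rcases hq with ⟨x, rfl⟩ | ⟨g', α', hq⟩
    · exact ⟨.inl none, .inl (some x), univ_mem, rfl,
        subsingleton_singleton.anti inter_subset_right⟩
    by_cases h : ∀ η < α, η < α' → g η = g' η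
    · refine ⟨.inr (.inr (⟨α, fun η => g η.1⟩, false)), .inr (.inr (⟨α', fun η => g' η.1⟩, true)),
        mem_of_superset hp.2.2 (Sd_congr (hex g α)), mem_of_superset hq.2.2 (Sd_congr (hex g' α')),
        fun x hx => False.elim ?_⟩
      obtain ⟨ξ, a₁, a₂, a₃, a₄⟩ := Sd_congr (fun η hη => (hex g α η hη).symm) hx.1
      obtain ⟨ξ', b₁, b₂, b₃, b₄⟩ := Sd_congr (fun η hη => (hex g' α' η hη).symm) hx.2
      rcases lt_trichotomy ξ ξ' with e | rfl | e
      · have := b₂ ξ e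
        rw [a₄, ← h ξ a₁ (e.trans b₁), a₃] at this
        exact nomatch this
      · exact nomatch a₄.symm.trans b₄
      · have := a₂ ξ' e
        rw [b₄, h ξ' (e.trans a₁) b₁, b₃] at this
        exact nomatch this
    · push Not at h
      obtain ⟨η, h₁, h₂, h₃⟩ := h
      exact ⟨.inr (.inl (η, g η)), .inr (.inl (η, g' η)),
        mem_of_superset (hp.2.1 η h₁) fun x hx => hx η le_rfl,
        mem_of_superset (hq.2.1 η h₂) fun x hx => hx η le_rfl,
        fun x hx => absurd (hx.1.symm.trans hx.2) h₃⟩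

theorem part_of_sqw (sq : SQw K) (c : K → K → Bool) :
    ∃ (H : Set K) (i : Bool), #H = #K ∧ ∀ a ∈ H, ∀ b ∈ H, a < b → c a b = i := by
  classical
  obtain ⟨g, hg⟩ := branch_of_sqw sq c
  obtain ⟨P, hP⟩ := exists_rec True (fun x (P : K → Prop) => ∀ a < x, P a → c a x = g a)
    fun x P P' h => propext (forall₂_congr fun a ha => by rw [h a ha])
  by_contra hn
  push Not at hn
  have sm : ∀ i, #{a | P a ∧ g a = i} < #K := fun i => (mk_set_le _).lt_of_ne fun e => by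
    obtain ⟨a, ha, b, hb, h₁, h₂⟩ := hn _ i e
    exact h₂ (((hP b).mp hb.1 a h₁ ha.1).trans ha.2)
  obtain ⟨γ₀, h₀⟩ := bdd (sm false) Subtype.val
  obtain ⟨γ₁, h₁⟩ := bdd (sm true) Subtype.val
  have hb : ∀ a, P a → a < max γ₀ γ₁ := fun a ha => by
    cases e : g a
    · exact lt_max_of_lt_left (h₀ ⟨a, ha, e⟩)
    · exact lt_max_of_lt_right (h₁ ⟨a, ha, e⟩)
  obtain ⟨x, a₁, a₂⟩ := hg (max γ₀ γ₁) (max γ₀ γ₁)
  exact not_le.2 (hb x ((hP x).mpr fun a _ ha => a₂ a (hb a ha))) a₁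

end Pool.Agent.MP_be203f_lc.Z

end
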