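import Mathlib
import Pool.Agent.MP_be203f_lc.R.Defs

section

namespace Pool.Agent.MP_be203f_lc.Z

open Cardinal Set Filter

universe u v

/-- A well-order whose type is a regular uncountable cardinal. -/
class RK (K : Type u) [LinearOrder K] : Prop where
  wf : WellFoundedLT K
  small : ∀ x : K, #(Iio x) < #K
  reg : (#K).IsRegular
  unc : ℵ₀ < #K

/-- The type is larger than the continuum. -/
class Big (K : Type u) : Prop where
  big : 𝔠 < #K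

variable {K : Type u}

/-- Combinatorial compactness of a set of ultrafilters. -/
def KC (X : Set (Ultrafilter K)) : Prop :=
  ∀ U : Set (Set K), (∀ p ∈ X, ∃ A ∈ U, A ∈ p) → ∃ V ⊆ U, #V < #K ∧ ∀ p ∈ X, ∃ A ∈ V, A ∈ p

variable (K) in
/-- Closure of the compact sets under intersections. -/
def SQ : Prop := ∀ X X' : Set (Ultrafilter K), KC X → KC X' → KC (X ∩ X')

/-- The points with property `P` are covered by few members of `U`. -/
def SC (X : Set (Ultrafilter K)) (U : Set (Set K)) (P : Ultrafilter K → Prop) : Prop :=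
  ∃ V ⊆ U, #V < #K ∧ ∀ q ∈ X, P q → ∃ A ∈ V, A ∈ q

/-- Two disjoint dense sets of free ultrafilters. -/
structure Nov (G : Bool → Set (Ultrafilter ℕ)) : Prop where
  free : ∀ i, ∀ w ∈ G i, (w : Filter ℕ) ≤ cofinite
  disj : ∀ w ∈ G false, w ∉ G true
  dense : ∀ i (V : Set ℕ), V.Infinite → ∃ w ∈ G i, V ∈ w
  small : ∀ i, #(G i) ≤ 𝔠

/-- The filter of a label. -/
def LabF (T : ℕ → Set K) (w : Ultrafilter ℕ) : Filter K :=
  (w : Filter ℕ).bind fun n => 𝓟 (T n)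

theorem mem_LabF {T : ℕ → Set K} {w : Ultrafilter ℕ} {S : Set K} :
    S ∈ LabF T w ↔ {n | T n ⊆ S} ∈ w := by
  unfold LabF
  rw [mem_bind']
  rfl

theorem lab_unique {T : ℕ → Set K} (hT : ∀ n m x, x ∈ T n → x ∈ T m → n = m)
    {w w' : Ultrafilter ℕ} {p : Ultrafilter K} (h : ↑p ≤ LabF T w) (h' : ↑p ≤ LabF T w') :
    w = w' := by
  by_contra hne
  obtain ⟨B, hB, hB'⟩ : ∃ B ∈ w, B ∉ w' := by
    by_contra hn
    push Not at hn
    exact hne (Ultrafilter.eq_of_le hn).symm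
  have h₁ : (⋃ n ∈ B, T n) ∈ p := h (mem_LabF.2 (mem_of_superset hB fun n hn =>
    subset_biUnion_of_mem (u := T) hn))
  have h₂ : (⋃ n ∈ Bᶜ, T n) ∈ p := h' (mem_LabF.2 (mem_of_superset
    (Ultrafilter.compl_mem_iff_notMem.2 hB') fun n hn => subset_biUnion_of_mem (u := T) hn))
  obtain ⟨x, h₃, h₄⟩ := Ultrafilter.nonempty_of_mem (inter_mem h₁ h₂)
  simp only [mem_iUnion] at h₃ h₄
  obtain ⟨n, hn, h₃⟩ := h₃
  obtain ⟨m, hm, h₄⟩ := h₄
  exact hm (hT n m x h₃ h₄ ▸ hn)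

section

variable [LinearOrder K] [RK K] {X : Set (Ultrafilter K)} {U : Set (Set K)}

instance : WellFoundedLT K := RK.wf

theorem aleph0_lt : ℵ₀ < #K := RK.unc

theorem small_Iic (x : K) : #(Iic x) < #K := by
  rw [← Iio_insert, mk_insert (by simp)]
  exact add_lt_of_lt aleph0_lt.le (RK.small x) (one_lt_aleph0.trans aleph0_lt)

theorem bdd {ι : Type u} (hι : #ι < #K) (f : ι → K) : ∃ γ, ∀ i, f i < γ := by
  by_contra hn
  push Not at hn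
  have : (⋃ i, Iic (f i)) = Set.univ := eq_univ_of_forall fun x => mem_iUnion.2 (hn x)
  have h := (card_iUnion_lt_iff_forall_of_isRegular RK.reg hι).2 fun i => small_Iic (f i)
  rw [this, mk_univ] at h
  exact lt_irrefl _ h

theorem bdd_ct {ι : Type} [Countable ι] (f : ι → K) : ∃ γ, ∀ i, f i < γ := by
  obtain ⟨γ, h⟩ := bdd (ι := ULift.{u} ι) ((mk_le_aleph0 (α := ULift ι)).trans_lt aleph0_lt)
    fun i => f i.down
  exact ⟨γ, fun i => h ⟨i⟩⟩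

instance : NoMaxOrder K := ⟨fun x => by
  obtain ⟨γ, h⟩ := bdd_ct fun _ : Unit => x
  exact ⟨γ, h ()⟩⟩

instance : Nonempty K := mk_ne_zero_iff.1 (aleph0_pos.trans aleph0_lt).ne'

theorem small_iInter {ι : Type u} (hι : #ι < #K) {S : ι → Set K} (h : ∀ i, S i ∈ atTop) :
    (⋂ i, S i) ∈ (atTop : Filter K) := by
  choose f hf using fun i => mem_atTop_sets.1 (h i)
  obtain ⟨γ, hγ⟩ := bdd hι f
  exact mem_atTop_sets.2 ⟨γ, fun x hx => mem_iInter.2 fun i => hf i x ((hγ i).le.trans hx)⟩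

omit [LinearOrder K] [RK K] in
theorem SC.mono {P Q : Ultrafilter K → Prop} (h : SC X U P) (hq : ∀ q ∈ X, Q q → P q) :
    SC X U Q := by
  obtain ⟨V, h₁, h₂, h₃⟩ := h
  exact ⟨V, h₁, h₂, fun q h₄ h₅ => h₃ q h₄ (hq q h₄ h₅)⟩

theorem SC.iUnion {ι : Type u} (hι : #ι < #K) {P : ι → Ultrafilter K → Prop}
    (h : ∀ i, SC X U (P i)) : SC X U fun q => ∃ i, P i q := by
  choose V h₁ h₂ h₃ using h
  refine ⟨⋃ i, V i, iUnion_subset h₁, (card_iUnion_lt_iff_forall_of_isRegular RK.reg hι).2 h₂,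
    fun q hq ⟨i, hi⟩ => ?_⟩
  obtain ⟨A, h₄, h₅⟩ := h₃ i q hq hi
  exact ⟨A, mem_iUnion.2 ⟨i, h₄⟩, h₅⟩

theorem SC.ct {ι : Type} [Countable ι] {P : ι → Ultrafilter K → Prop}
    (h : ∀ i, SC X U (P i)) : SC X U fun q => ∃ i, P i q :=
  (SC.iUnion (ι := ULift.{u} ι) ((mk_le_aleph0 (α := ULift ι)).trans_lt aleph0_lt)
    (P := fun i => P i.down) fun i => h i.down).mono fun _ _ ⟨i, hi⟩ => ⟨⟨i⟩, hi⟩

theorem SC.or {P Q : Ultrafilter K → Prop} (h : SC X U P) (h' : SC X U Q) :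
    SC X U fun q => P q ∨ Q q :=
  (SC.ct (P := fun i : Bool => cond i P Q) fun i => by cases i <;> assumption).mono
    fun _ _ hq => hq.elim (fun h => ⟨true, h⟩) fun h => ⟨false, h⟩

theorem SC.of_false : SC X U fun _ => False :=
  ⟨∅, empty_subset _, by simpa using aleph0_pos.trans (aleph0_lt (K := K)), fun _ _ h => h.elim⟩

omit [LinearOrder K] [RK K] in
theorem fin_compact (cov : ∀ p ∈ X, ∃ A ∈ U, A ∈ p) {F : Filter K}
    (hF : ∀ p : Ultrafilter K, ↑p ≤ F → p ∈ X) :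
    ∃ S ∈ F, ∃ V ⊆ U, V.Finite ∧ ∀ q : Ultrafilter K, S ∈ q → ∃ A ∈ V, A ∈ q := by
  by_contra hn
  have : NeBot (F ⊓ generate (compl '' U)) := by
    rw [Filter.inf_neBot_iff]
    intro S hS S' hS'
    obtain ⟨t, ht, hfin, hsub⟩ := mem_generate_iff.1 hS'
    by_contra he
    refine hn ⟨S, hS, compl '' t, ?_, hfin.image _, fun q hq => ?_⟩
    · rintro _ ⟨B, hB, rfl⟩
      obtain ⟨A, hA, rfl⟩ := ht hB
      simpa using hA
    · by_contra hc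
      push Not at hc
      have h₁ : ⋂₀ t ∈ q := (sInter_mem hfin).2 fun B hB => by
        have := hc Bᶜ ⟨B, hB, rfl⟩
        rwa [Ultrafilter.compl_notMem_iff] at this
      exact he (Ultrafilter.nonempty_of_mem (inter_mem hq (mem_of_superset h₁ hsub)))
  obtain ⟨p, hp⟩ := Ultrafilter.exists_le (F ⊓ generate (compl '' U))
  obtain ⟨A, hA, hAp⟩ := cov p (hF p (hp.trans inf_le_left))
  have : Aᶜ ∈ p := hp.trans inf_le_right (mem_generate_of_mem ⟨A, hA, rfl⟩)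
  exact Ultrafilter.compl_mem_iff_notMem.1 this hAp

theorem sc_compact (cov : ∀ p ∈ X, ∃ A ∈ U, A ∈ p) {F : Filter K}
    (hF : ∀ p : Ultrafilter K, ↑p ≤ F → p ∈ X) : ∃ S ∈ F, SC X U fun q => S ∈ q := by
  obtain ⟨S, hS, V, h₁, h₂, h₃⟩ := fin_compact cov hF
  exact ⟨S, hS, V, h₁, h₂.lt_aleph0.trans aleph0_lt, fun q _ => h₃ q⟩

theorem sc_bdd (cov : ∀ p ∈ X, ∃ A ∈ U, A ∈ p) (hp : ∀ x, pure x ∈ X)
    (hX : ∀ q ∈ X, (∃ x, q = pure x) ∨ ↑q ≤ (atTop : Filter K)) {S : Set K} (hS : S ∈ atTop) :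
    SC X U fun q => Sᶜ ∈ q := by
  obtain ⟨ζ, hζ⟩ := mem_atTop_sets.1 hS
  refine (SC.iUnion (RK.small ζ) (P := fun x q => q = pure x.1) fun x => ?_).mono ?_
  · obtain ⟨A, hA, hx⟩ := cov _ (hp x.1)
    exact ⟨{A}, by simpa using hA, by simpa using one_lt_aleph0.trans (aleph0_lt (K := K)),
      fun q _ e => ⟨A, rfl, e ▸ hx⟩⟩
  · intro q hq h
    rcases hX q hq with ⟨x, rfl⟩ | h'
    · exact ⟨⟨x, not_le.1 fun hx => h (hζ x hx)⟩, rfl⟩
    · exact absurd (h' hS) (Ultrafilter.compl_mem_iff_notMem.1 h)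

theorem sc_lab [Big K] (cov : ∀ p ∈ X, ∃ A ∈ U, A ∈ p) {G : Set (Ultrafilter ℕ)} (hG : #G ≤ 𝔠)
    {H : Filter K}
    {T : ℕ → Set K} (hF : ∀ w ∈ G, ∀ p : Ultrafilter K, ↑p ≤ H ⊓ LabF T w → p ∈ X) :
    SC X U fun q => ∃ w ∈ G, ↑q ≤ H ⊓ LabF T w := by
  have hι : #(ULift.{u} G) < #K := by
    rw [mk_uLift]
    exact ((Cardinal.lift_le.2 hG).trans_eq lift_continuum).trans_lt Big.big
  refine (SC.iUnion hι (P := fun w q => ↑q ≤ H ⊓ LabF T w.down.1) fun w => ?_).mono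
    fun q _ ⟨w, hw, h⟩ => ⟨⟨w, hw⟩, h⟩
  obtain ⟨S, hS, h⟩ := sc_compact cov (hF _ w.down.2)
  exact h.mono fun q _ hq => hq hS

theorem lab_false (cov : ∀ p ∈ X, ∃ A ∈ U, A ∈ p) {G : Bool → Set (Ultrafilter ℕ)} (hG : Nov G)
    {i : Bool} {H : Filter K} {T : ℕ → Set K}
    (hF : ∀ w ∈ G i, ∀ p : Ultrafilter K, ↑p ≤ H ⊓ LabF T w → p ∈ X) {V : Set ℕ}
    (hV : V.Infinite)
    (h : ∀ S ∈ H, ∀ᶠ n in cofinite, n ∈ V → ¬ SC X U fun q => S ∩ T n ∈ q) : False := by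
  obtain ⟨w, hw, hVw⟩ := hG.dense i V hV
  obtain ⟨S, hS, hsc⟩ := sc_compact cov (hF w hw)
  obtain ⟨S₁, h₁, S₂, h₂, rfl⟩ := mem_inf_iff.1 hS
  obtain ⟨n, ⟨a₁, a₂⟩, a₃⟩ := Ultrafilter.nonempty_of_mem
    (inter_mem (inter_mem hVw (mem_LabF.1 h₂)) (hG.free i w hw (h S₁ h₁)))
  exact a₃ a₁ (hsc.mono fun q _ hq => mem_of_superset hq (inter_subset_inter_right _ a₂))

omit [LinearOrder K] [RK K] in
theorem not_kc_pure (hX : ∀ q ∈ X, ∃ x, q = pure x) (hp : ∀ x, pure x ∈ X) : ¬ KC X := by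
  intro h
  obtain ⟨V, h₁, h₂, h₃⟩ := h (range singleton) fun q hq => by
    obtain ⟨x, rfl⟩ := hX q hq
    exact ⟨{x}, ⟨x, rfl⟩, by simp⟩
  refine not_le.2 h₂ ⟨⟨fun x => ⟨{x}, ?_⟩, fun x y e => by simpa using e⟩⟩
  obtain ⟨A, hA, hx⟩ := h₃ _ (hp x)
  obtain ⟨y, rfl⟩ := h₁ hA
  obtain rfl : x = y := by simpa using hx
  exact hA

end

end Pool.Agent.MP_be203f_lc.Z

end

section

namespace Pool.Agent.MP_be203f_lc.Z

open Cardinal Set Filter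

universe u v

variable {K : Type u} [LinearOrder K] [OrderBot K] {Y : Type v}

/-- Iterated projections. -/
def gg (ρ : Y → K → K) (y : ℕ → Y) : ℕ → K → K
  | 0 => id
  | n + 1 => ρ (y n) ∘ gg ρ y n

/-- The points whose walk ends at time `m`. -/
def TT (ρ : Y → K → K) (y : ℕ → Y) (m : ℕ) : Set K :=
  {x | gg ρ y m x = ⊥ ∧ ∀ j < m, gg ρ y j x ≠ ⊥}

/-- All iterated projections are unbounded. -/
def HH (ρ : Y → K → K) (y : ℕ → Y) : Filter K := ⨅ n, comap (gg ρ y n) atTop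

/-- The two spaces. -/
def XR (ρ : Y → K → K) (G : Set (Ultrafilter ℕ)) : Set (Ultrafilter K) :=
  {p | (∃ x, p = pure x) ∨ ∃ y, ∃ w ∈ G, ↑p ≤ HH ρ y ⊓ LabF (TT ρ y) w}

/-- Principal points and drop points. -/
def XD (ρ : Y → K → K) : Set (Ultrafilter K) :=
  {p | (∃ x, p = pure x) ∨ ∃ y, Tendsto (ρ y) p atTop}

/-- The hypotheses on the projections. -/
structure Regr (ρ : Y → K → K) : Prop where
  lt : ∀ y x, x ≠ ⊥ → ρ y x < x
  bot : ∀ y, ρ y ⊥ = ⊥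
  loc : ∀ y y' (r : Ultrafilter K), Tendsto (ρ y') r atTop → ρ y = ρ y' ∨ ∃ η, {x | ρ y x = η} ∈ r

variable {ρ : Y → K → K}

theorem Regr.le (h : Regr ρ) (y : Y) (x : K) : ρ y x ≤ x := by
  by_cases hx : x = ⊥
  · rw [hx, h.bot]
  · exact (h.lt y x hx).le

theorem gg_anti (h : Regr ρ) (y : ℕ → Y) (x : K) : Antitone fun n => gg ρ y n x :=
  antitone_nat_of_succ_le fun _ => h.le _ _

theorem TT_disj (y : ℕ → Y) (n m : ℕ) (x : K) (h : x ∈ TT ρ y n) (h' : x ∈ TT ρ y m) : n = m := by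
  rcases lt_trichotomy n m with e | e | e
  · exact absurd h.1 (h'.2 n e)
  · exact e
  · exact absurd h'.1 (h.2 m e)

omit [OrderBot K] in
theorem le_HH {y : ℕ → Y} {p : Filter K} : p ≤ HH ρ y ↔ ∀ n, Tendsto (gg ρ y n) p atTop := by
  simp only [HH, le_iInf_iff, tendsto_iff_comap]

theorem follow (h : Regr ρ) {y' : ℕ → Y} {q : Ultrafilter K} (hq : ↑q ≤ HH ρ y') (y : ℕ → Y)
    (n : ℕ) : gg ρ y n = gg ρ y' n ∨ ∃ η, {x | gg ρ y n x = η} ∈ q := by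
  induction n with
  | zero => exact Or.inl rfl
  | succ n ih =>
    rcases ih with e | ⟨η, hη⟩
    · rcases h.loc (y n) (y' n) (q.map (gg ρ y' n)) (le_HH.1 hq (n + 1)) with e' | ⟨η, hη⟩
      · exact Or.inl (by simp only [gg, e, e'])
      · exact Or.inr ⟨η, by simp only [gg, e]; exact hη⟩
    · exact Or.inr ⟨ρ (y n) η, mem_of_superset hη fun x hx => congrArg (ρ (y n)) hx⟩

variable [RK K]

omit [OrderBot K] in
theorem not_const {g : K → K} {q : Ultrafilter K} (h : Tendsto g q atTop) {η : K}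
    (hη : {x | g x = η} ∈ q) : False := by
  obtain ⟨x, h₁, h₂⟩ := Ultrafilter.nonempty_of_mem (inter_mem hη (h (Ioi_mem_atTop η)))
  exact (ne_of_gt h₂) h₁

theorem gg_end (h : Regr ρ) (y : ℕ → Y) (x : K) : ∃ n, gg ρ y n x = ⊥ := by
  by_contra hn
  push Not at hn
  exact (wellFounded_iff_isEmpty_descending_chain.1 wellFounded_lt).false
    ⟨fun n => gg ρ y n x, fun n => h.lt _ _ (hn n)⟩

theorem TT_of_const (h : Regr ρ) {y : ℕ → Y} {q : Ultrafilter K} {k : ℕ} {η : K}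
    (hη : {x | gg ρ y k x = η} ∈ q) : ∃ m, TT ρ y m ∈ q := by
  classical
  obtain ⟨x₀, hx₀⟩ := Ultrafilter.nonempty_of_mem hη
  obtain ⟨N, hN⟩ := gg_end h y x₀
  have key : ∀ x, gg ρ y k x = η → ∀ j, gg ρ y (k + j) x = gg ρ y (k + j) x₀ := by
    intro x hx j
    induction j with
    | zero => exact hx.trans hx₀.symm
    | succ j ih => exact congrArg (ρ (y (k + j))) ih
  have : (⋃ m ∈ Iic (k + N), TT ρ y m) ∈ q := mem_of_superset hη fun x hx => by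
    have h₁ : gg ρ y (k + N) x = ⊥ :=
      (key x hx N).trans (le_bot_iff.1 (hN ▸ gg_anti h y x₀ (Nat.le_add_left N k)))
    have ex : ∃ n, gg ρ y n x = ⊥ := ⟨_, h₁⟩
    exact mem_biUnion (Nat.find_min' ex h₁) ⟨Nat.find_spec ex, fun j hj => Nat.find_min ex hj⟩
  obtain ⟨m, -, hm⟩ := (Ultrafilter.finite_biUnion_mem_iff (finite_Iic _)).1 this
  exact ⟨m, hm⟩

omit [RK K] in
theorem same_seq (h : Regr ρ) {y y' : ℕ → Y} {q : Ultrafilter K} (hq : ↑q ≤ HH ρ y')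
    (hn : ∀ n η, {x | gg ρ y n x = η} ∉ q) : gg ρ y = gg ρ y' :=
  funext fun n => (follow h hq y n).resolve_right fun ⟨η, hη⟩ => hn n η hη

omit [RK K] in
theorem map_mem_XD (h : Regr ρ) {G : Set (Ultrafilter ℕ)} {q : Ultrafilter K} (hq : q ∈ XR ρ G)
    (y : ℕ → Y) (n : ℕ) : q.map (gg ρ y n) ∈ XD ρ := by
  rcases hq with ⟨x, rfl⟩ | ⟨y', w, -, hq⟩
  · exact Or.inl ⟨_, Ultrafilter.map_pure _ _⟩
  · rcases follow h (hq.trans inf_le_left) y n with e | ⟨η, hη⟩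
    · exact Or.inr ⟨y' n, e ▸ le_HH.1 (hq.trans inf_le_left) (n + 1)⟩
    · exact Or.inl ⟨η, Ultrafilter.eq_pure_of_finite_mem (finite_singleton η) hη |>.elim
        fun x hx => by obtain rfl : x = η := hx.1; exact hx.2⟩

theorem step_R (hX : KC (XD ρ)) {X : Set (Ultrafilter K)} {U : Set (Set K)} {g : K → K}
    (hg : ∀ ζ, ¬ SC X U fun q => g ⁻¹' Ici ζ ∈ q) (hm : ∀ q ∈ X, q.map g ∈ XD ρ) :
    ∃ y, ∀ ζ, ¬ SC X U fun q => (ρ y ∘ g) ⁻¹' Ici ζ ∈ q := by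
  by_contra hn
  push Not at hn
  choose ζ hζ using hn
  obtain ⟨V, h₁, h₂, h₃⟩ := hX (range singleton ∪ range fun y => ρ y ⁻¹' Ici (ζ y)) (by
    rintro p (⟨x, rfl⟩ | ⟨y, hy⟩)
    · exact ⟨{x}, Or.inl ⟨x, rfl⟩, by simp⟩
    · exact ⟨_, Or.inr ⟨y, rfl⟩, hy (Ici_mem_atTop _)⟩)
  have : ∀ A : V, ∃ η : K, SC X U fun q => g ⁻¹' (A.1 ∩ Ici η) ∈ q := by
    rintro ⟨A, hA⟩
    rcases h₁ hA with ⟨x, rfl⟩ | ⟨y, rfl⟩
    · obtain ⟨η, hη⟩ := exists_gt x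
      refine ⟨η, SC.of_false.mono fun q _ hq => ?_⟩
      obtain ⟨z, h₄, h₅⟩ := Ultrafilter.nonempty_of_mem hq
      exact not_le.2 hη ((show g z = x from h₄) ▸ h₅)
    · exact ⟨⊥, (hζ y).mono fun q _ hq => mem_of_superset hq fun z hz => hz.1⟩
  choose η hη using this
  obtain ⟨γ, hγ⟩ := bdd h₂ η
  refine hg γ ((SC.iUnion h₂ hη).mono fun q hq h => ?_)
  obtain ⟨A, hA, hAq⟩ := h₃ _ (hm q hq)
  exact ⟨⟨A, hA⟩, mem_of_superset (inter_mem (Ultrafilter.mem_map.1 hAq) h)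
    fun z hz => ⟨hz.1, (hγ _).le.trans hz.2⟩⟩

theorem kc_XR [Big K] (h : Regr ρ) (hX : KC (XD ρ)) {G : Bool → Set (Ultrafilter ℕ)} (hG : Nov G)
    (i : Bool) : KC (XR ρ (G i)) := by
  classical
  intro U cov
  by_contra hn
  have hn' : ¬ SC (XR ρ (G i)) U fun _ => True := fun ⟨V, h₁, h₂, h₃⟩ =>
    hn ⟨V, h₁, h₂, fun p hp => h₃ p hp trivial⟩
  have hp : ∀ x, pure x ∈ XR ρ (G i) := fun x => Or.inl ⟨x, rfl⟩
  have hu : ∀ q ∈ XR ρ (G i), (∃ x, q = pure x) ∨ ↑q ≤ (atTop : Filter K) := by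
    rintro q (hq | ⟨y, w, -, hq⟩)
    · exact Or.inl hq
    · exact Or.inr (le_HH.1 (hq.trans inf_le_left) 0)
  have h₀ : ∀ ζ, ¬ SC (XR ρ (G i)) U fun q => id ⁻¹' Ici ζ ∈ q := fun ζ hζ =>
    hn' ((hζ.or (sc_bdd cov hp hu (Ici_mem_atTop ζ))).mono fun q _ _ => q.mem_or_compl_mem _)
  obtain ⟨y₀, -⟩ := step_R hX h₀ fun q hq => by
    rcases hq with ⟨x, rfl⟩ | ⟨y, w, hw, hq⟩
    · exact Or.inl ⟨x, by simp⟩
    · exact map_mem_XD h (Or.inr ⟨y, w, hw, hq⟩) y 0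
  have : ∀ g : K → K, ∃ y, (∀ ζ, ¬ SC (XR ρ (G i)) U fun q => g ⁻¹' Ici ζ ∈ q) →
      (∀ q ∈ XR ρ (G i), q.map g ∈ XD ρ) →
      ∀ ζ, ¬ SC (XR ρ (G i)) U fun q => (ρ y ∘ g) ⁻¹' Ici ζ ∈ q := by
    intro g
    by_cases hg : (∀ ζ, ¬ SC (XR ρ (G i)) U fun q => g ⁻¹' Ici ζ ∈ q) ∧
      ∀ q ∈ XR ρ (G i), q.map g ∈ XD ρ
    · obtain ⟨y, hy⟩ := step_R hX hg.1 hg.2
      exact ⟨y, fun _ _ => hy⟩
    · exact ⟨y₀, fun h₁ h₂ => absurd ⟨h₁, h₂⟩ hg⟩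
  choose F hF using this
  let g : ℕ → K → K := fun n => Nat.rec id (fun _ g => ρ (F g) ∘ g) n
  let y : ℕ → Y := fun n => F (g n)
  have hg : ∀ n, gg ρ y n = g n := fun n => by
    induction n with
    | zero => rfl
    | succ n ih => simp only [gg, ih]; rfl
  have big : ∀ n ζ, ¬ SC (XR ρ (G i)) U fun q => gg ρ y n ⁻¹' Ici ζ ∈ q := by
    intro n
    induction n with
    | zero => exact h₀
    | succ n ih =>
      have := hF (g n) (hg n ▸ ih) fun q hq => hg n ▸ map_mem_XD h hq y n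
      rw [hg]; exact this
  have hF' : ∀ w ∈ G i, ∀ p : Ultrafilter K, ↑p ≤ HH ρ y ⊓ LabF (TT ρ y) w → p ∈ XR ρ (G i) :=
    fun w hw p hp => Or.inr ⟨y, w, hw, hp⟩
  have ex : ∀ n, ∃ m, ∀ ζ, ¬ SC (XR ρ (G i)) U fun q => gg ρ y n ⁻¹' Ici ζ ∩ TT ρ y m ∈ q := by
    intro n
    by_contra hc
    push Not at hc
    choose ζ hζ using hc
    obtain ⟨γ, hγ⟩ := bdd_ct ζ
    refine big n γ (((SC.ct hζ).or (sc_lab cov (hG.small i) hF')).mono fun q hq hq' => ?_)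
    by_cases hc : ∃ n η, {x | gg ρ y n x = η} ∈ q
    · obtain ⟨k, η, hη⟩ := hc
      obtain ⟨m, hm⟩ := TT_of_const h hη
      exact Or.inl ⟨m, inter_mem (mem_of_superset hq' fun x hx => (hγ m).le.trans hx) hm⟩
    · push Not at hc
      rcases hq with ⟨x, rfl⟩ | ⟨y', w, hw, hq⟩
      · exact absurd (by simp [gg]) (hc 0 x)
      · have e := same_seq h (hq.trans inf_le_left) hc
        refine Or.inr ⟨w, hw, ?_⟩
        unfold HH TT at hq ⊢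
        rw [e]; exact hq
  choose m hm using ex
  have hlt : ∀ n, n < m n := by
    intro n
    by_contra hc
    obtain ⟨η, hη⟩ := exists_gt (⊥ : K)
    refine hm n η (SC.of_false.mono fun q _ hq => ?_)
    obtain ⟨x, h₁, h₂⟩ := Ultrafilter.nonempty_of_mem hq
    have := gg_anti h y x (not_lt.1 hc)
    exact not_le.2 hη (le_trans h₁ (h₂.1 ▸ this))
  refine lab_false cov hG hF' (V := range m)
    (infinite_of_forall_exists_gt fun n => ⟨m n, ⟨n, rfl⟩, hlt n⟩) fun S hS => ?_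
  obtain ⟨n, ζ, hS⟩ : ∃ n ζ, gg ρ y n ⁻¹' Ici ζ ⊆ S := by
    have hd : Directed (· ≥ ·) fun n => comap (gg ρ y n) (atTop : Filter K) :=
      Antitone.directed_ge fun a b hab => tendsto_iff_comap.1
        (tendsto_atTop_mono (fun x => gg_anti h y x hab) tendsto_comap)
    obtain ⟨n, hn⟩ := (mem_iInf_of_directed hd S).1 hS
    obtain ⟨S', h₁, h₂⟩ := mem_comap.1 hn
    obtain ⟨ζ, hζ⟩ := mem_atTop_sets.1 h₁
    exact ⟨n, ζ, fun x hx => h₂ (hζ _ hx)⟩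
  filter_upwards [((finite_Iio n).image m).compl_mem_cofinite]
  rintro _ hk ⟨k, rfl⟩ hsc
  have : n ≤ k := not_lt.1 fun h => hk ⟨k, h, rfl⟩
  exact hm k ζ (hsc.mono fun q _ hq => mem_of_superset hq fun x hx =>
    ⟨hS (le_trans hx.1 (gg_anti h y x this)), hx.2⟩)

theorem lemR [Big K] (sq : SQ K) {G : Bool → Set (Ultrafilter ℕ)} (hG : Nov G) (h : Regr ρ)
    (hX : KC (XD ρ)) : False := by
  refine not_kc_pure (X := XR ρ (G false) ∩ XR ρ (G true)) ?_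
    (fun x => ⟨Or.inl ⟨x, rfl⟩, Or.inl ⟨x, rfl⟩⟩)
    (sq _ _ (kc_XR h hX hG false) (kc_XR h hX hG true))
  rintro q ⟨hq | ⟨y, w, hw, hq⟩, hq' | ⟨y', w', hw', hq'⟩⟩
  · exact hq
  · exact hq
  · exact hq'
  · have e := same_seq h (y := y) (hq'.trans inf_le_left) fun n η hη =>
      not_const (le_HH.1 (hq.trans inf_le_left) n) hη
    have e' : TT ρ y = TT ρ y' := by unfold TT; rw [e]
    obtain rfl := lab_unique (TT_disj y) (hq.trans inf_le_right) (e' ▸ hq'.trans inf_le_right)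
    exact absurd hw' (hG.disj _ hw)

end Pool.Agent.MP_be203f_lc.Z

end

section

namespace Pool.Agent.MP_be203f_lc.Z

open Cardinal Set Filter

universe u

/-- A strategy of the first player. -/
structure Strat (K W : Type u) [LinearOrder W] where
  A : (W → Bool) → W → Set K
  M : W → K → Set W
  loc : ∀ b b' α, (∀ β < α, b β = b' β) → A b α = A b' α
  small : ∀ α ξ, #(M α ξ) < #K
  cov : ∀ α β, β < α → ∃ ξ, β ∈ M α ξ

variable {K W : Type u} [LinearOrder K] [LinearOrder W] (σ : Strat K W)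

/-- The diagonal intersections along a play. -/
inductive DD (b : W → Bool) : W → K → Prop
  | mk (α : W) (x : K) (h₁ : ∀ ξ < x, ∀ β ∈ σ.M α ξ, β < α → DD b β x)
      (h₂ : ∀ ξ < x, ∀ β ∈ σ.M α ξ, β < α → (x ∈ σ.A b β ↔ b β = true)) : DD b α x

/-- The set before the move. -/
def Ds (b : W → Bool) (α : W) : Set K := {x | DD σ b α x}

/-- The set after the move. -/
def Es (b : W → Bool) (α : W) : Set K := {x | DD σ b α x ∧ (x ∈ σ.A b α ↔ b α = true)}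

/-- The indices at which the point fails. -/
def Bad (b : W → Bool) (α : W) (x : K) : Set K := {ξ | ∃ β ∈ σ.M α ξ, β < α ∧ x ∉ Es σ b β}

variable {σ} {b b' : W → Bool} {α α' β β' : W} {x : K}

theorem mem_Ds : x ∈ Ds σ b α ↔ ∀ ξ < x, ∀ β ∈ σ.M α ξ, β < α → x ∈ Es σ b β := by
  constructor
  · rintro ⟨_, _, h₁, h₂⟩ ξ hξ β hβ h
    exact ⟨h₁ ξ hξ β hβ h, h₂ ξ hξ β hβ h⟩
  · exact fun h => ⟨_, _, fun ξ hξ β hβ h' => (h ξ hξ β hβ h').1,
      fun ξ hξ β hβ h' => (h ξ hξ β hβ h').2⟩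

theorem Es_subset : Es σ b α ⊆ Ds σ b α := fun _ h => h.1

theorem Es_eq : Es σ b α = Ds σ b α ∩ {x | x ∈ σ.A b α ↔ b α = true} := rfl

theorem Ds_congr [WellFoundedLT W] (h : ∀ β < α, b β = b' β) : Ds σ b α = Ds σ b' α := by
  induction α using WellFoundedLT.induction with
  | ind α ih =>
    ext x
    simp only [mem_Ds]
    refine forall₂_congr fun ξ _ => forall₂_congr fun β _ => forall_congr' fun hβ => ?_
    rw [Es_eq, Es_eq, ih β hβ fun γ hγ => h γ (hγ.trans hβ),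
      σ.loc b b' β fun γ hγ => h γ (hγ.trans hβ), h β hβ]

theorem Es_congr [WellFoundedLT W] (h : ∀ β < α, b β = b' β) (hβ : β < α) :
    Es σ b β = Es σ b' β := by
  rw [Es_eq, Es_eq, Ds_congr fun γ hγ => h γ (hγ.trans hβ),
    σ.loc b b' β fun γ hγ => h γ (hγ.trans hβ), h β hβ]

theorem agree [WellFoundedLT W] {q : Ultrafilter K} (h : ∀ β < α, Es σ b β ∈ q)
    (h' : ∀ β < α, Es σ b' β ∈ q) : ∀ β < α, b β = b' β := by
  intro β
  induction β using WellFoundedLT.induction with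
  | ind β ih =>
    intro hβ
    obtain ⟨x, h₁, h₂⟩ := Ultrafilter.nonempty_of_mem (inter_mem (h β hβ) (h' β hβ))
    have e := σ.loc b b' β fun γ hγ => ih γ hγ (hγ.trans hβ)
    have := h₁.2.symm.trans (e ▸ h₂.2)
    exact Bool.eq_iff_iff.2 this

variable (σ) in
/-- The ultrafilter follows the play and leaves it at the given stage. -/
structure Fol (b : W → Bool) (α : W) (q : Ultrafilter K) : Prop where
  unif : ↑q ≤ (atTop : Filter K)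
  below : ∀ β < α, Es σ b β ∈ q
  out : Ds σ b α ∉ q

theorem Fol.unique [WellFoundedLT W] {q : Ultrafilter K} (h : Fol σ b α q) (h' : Fol σ b' α' q) :
    α = α' ∧ ∀ β < α, b β = b' β := by
  rcases lt_trichotomy α α' with e | e | e
  · have := agree h.below fun β hβ => h'.below β (hβ.trans e)
    exact absurd (Ds_congr (σ := σ) this ▸ mem_of_superset (h'.below α e) Es_subset) h.out
  · subst e
    exact ⟨rfl, agree h.below h'.below⟩
  · have := agree h'.below fun β hβ => h.below β (hβ.trans e)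
    exact absurd (Ds_congr (σ := σ) this ▸ mem_of_superset (h.below α' e) Es_subset) h'.out

variable [RK K]

theorem Ds_sub (h : β < α) : {x | x ∈ Ds σ b α → x ∈ Es σ b β} ∈ (atTop : Filter K) := by
  obtain ⟨ξ, hξ⟩ := σ.cov α β h
  exact mem_of_superset (Ioi_mem_atTop ξ) fun x hx hD => mem_Ds.1 hD ξ hx β hξ h

theorem Es_sub (h : β ≤ β') : {x | x ∈ Es σ b β' → x ∈ Es σ b β} ∈ (atTop : Filter K) := by
  rcases h.eq_or_lt with rfl | h
  · exact univ_mem' fun _ h => h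
  · exact mem_of_superset (Ds_sub h) fun x hx hE => hx hE.1

theorem Es_mem {q : Ultrafilter K} (hq : ↑q ≤ (atTop : Filter K)) (h : β ≤ β')
    (h' : Es σ b β' ∈ q) : Es σ b β ∈ q :=
  mem_of_superset (inter_mem h' (hq (Es_sub h))) fun _ hx => hx.2 hx.1

omit [LinearOrder W] in
theorem small_biInter {a : Set W} (ha : #a < #K) {S : W → Set K} (h : ∀ β ∈ a, S β ∈ atTop) :
    {x | ∀ β ∈ a, x ∈ S β} ∈ (atTop : Filter K) :=
  mem_of_superset (small_iInter ha (S := fun β : a => S β.1) fun β => h β.1 β.2)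
    fun _ hx β hβ => mem_iInter.1 hx ⟨β, hβ⟩

theorem Ds_sub_small {a : Set W} (ha : #a < #K) (h : ∀ β ∈ a, β < α) :
    {x | x ∈ Ds σ b α → ∀ β ∈ a, x ∈ Es σ b β} ∈ (atTop : Filter K) :=
  mem_of_superset (small_biInter ha fun β hβ => Ds_sub (σ := σ) (b := b) (h β hβ))
    fun _ hx hD β hβ => hx β hβ hD

theorem Es_sub_small {a : Set W} (ha : #a < #K) (h : ∀ β ∈ a, β ≤ α) :
    {x | x ∈ Es σ b α → ∀ β ∈ a, x ∈ Es σ b β} ∈ (atTop : Filter K) :=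
  mem_of_superset (small_biInter ha fun β hβ => Es_sub (σ := σ) (b := b) (h β hβ))
    fun _ hx hD β hβ => hx β hβ hD

theorem small_M (α : W) (ζ : K) (P : W → Prop) :
    #{β | P β ∧ ∃ ξ < ζ, β ∈ σ.M α ξ} < #K := by
  refine lt_of_le_of_lt (mk_le_mk_of_subset (t := ⋃ ξ : Iio ζ, σ.M α ξ.1) ?_)
    ((card_iUnion_lt_iff_forall_of_isRegular RK.reg (RK.small ζ)).2 fun ξ => σ.small α ξ.1)
  rintro β ⟨-, ξ, h₁, h₂⟩
  exact mem_iUnion.2 ⟨⟨ξ, h₁⟩, h₂⟩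

variable [OrderBot K]

open Classical in
/-- The least element of a set if it lies below the point. -/
noncomputable def r0 (S : Set K) (x : K) : K :=
  if h : ∃ ξ ∈ S, ξ < x then wellFounded_lt.min S ⟨_, h.choose_spec.1⟩ else ⊥

variable (σ) in
/-- The regressive function of a stage. -/
noncomputable def rho (y : (W → Bool) × W) (x : K) : K := r0 (Bad σ y.1 y.2 x) x

omit [RK K] [OrderBot K] in
theorem not_mem_Ds : x ∉ Ds σ b α ↔ ∃ ξ ∈ Bad σ b α x, ξ < x := by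
  simp only [mem_Ds, Bad, mem_ofPred_eq, not_forall]
  exact ⟨fun ⟨ξ, h₁, β, h₂, h₃, h₄⟩ => ⟨ξ, ⟨β, h₂, h₃, h₄⟩, h₁⟩,
    fun ⟨ξ, ⟨β, h₂, h₃, h₄⟩, h₁⟩ => ⟨ξ, h₁, β, h₂, h₃, h₄⟩⟩

theorem rho_D (h : x ∈ Ds σ b α) : rho σ (b, α) x = ⊥ :=
  dif_neg fun h' => not_mem_Ds.2 h' h

theorem rho_nD (h : x ∉ Ds σ b α) : rho σ (b, α) x < x ∧ rho σ (b, α) x ∈ Bad σ b α x ∧
    ∀ ξ ∈ Bad σ b α x, rho σ (b, α) x ≤ ξ := by
  have h' := not_mem_Ds.1 h
  have e : rho σ (b, α) x = wellFounded_lt.min (Bad σ b α x) ⟨_, h'.choose_spec.1⟩ := dif_pos h'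
  have m : ∀ ξ ∈ Bad σ b α x, rho σ (b, α) x ≤ ξ := fun ξ hξ =>
    e ▸ not_lt.1 (wellFounded_lt.not_lt_min _ hξ)
  obtain ⟨ξ, h₁, h₂⟩ := h'
  exact ⟨(m ξ h₁).trans_lt h₂, e ▸ wellFounded_lt.min_mem _ _, m⟩

theorem rho_le (y : (W → Bool) × W) (x : K) : rho σ y x ≤ x := by
  by_cases h : x ∈ Ds σ y.1 y.2
  · exact (rho_D h).trans_le bot_le
  · exact (rho_nD h).1.le

theorem rho_gt {ξ : K} (h : ξ < rho σ (b, α) x) :
    x ∉ Ds σ b α ∧ ∀ β ∈ σ.M α ξ, β < α → x ∈ Es σ b β := by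
  have h₁ : x ∉ Ds σ b α := fun h' => not_lt_bot (rho_D h' ▸ h)
  exact ⟨h₁, fun β h₂ h₃ => by_contra fun h₄ => not_le.2 h ((rho_nD h₁).2.2 ξ ⟨β, h₂, h₃, h₄⟩)⟩

theorem rho_congr [WellFoundedLT W] (h : ∀ β < α, b β = b' β) : rho σ (b, α) = rho σ (b', α) := by
  funext x
  have : Bad σ b α x = Bad σ b' α x := Set.ext fun ξ => exists_congr fun β =>
    and_congr_right fun _ => and_congr_right fun hβ => by rw [Es_congr h hβ]
  simp only [rho, this]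

theorem drop_small {r : Ultrafilter K} (h : Tendsto (rho σ (b, α)) r atTop) {a : Set W}
    (ha : #a < #K) (h' : ∀ β ∈ a, β < α) : {x | ∀ β ∈ a, x ∈ Es σ b β} ∈ r := by
  choose ξ hξ using fun β : a => σ.cov α β.1 (h' β.1 β.2)
  obtain ⟨γ, hγ⟩ := bdd ha ξ
  exact mem_of_superset (h (Ici_mem_atTop γ)) fun x hx β hβ =>
    (rho_gt ((hγ ⟨β, hβ⟩).trans_le hx)).2 β (hξ ⟨β, hβ⟩) (h' β hβ)

theorem drop_fol {r : Ultrafilter K} (h : Tendsto (rho σ (b, α)) r atTop) : Fol σ b α r := by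
  refine ⟨tendsto_id'.1 (tendsto_atTop_mono (rho_le _) h), fun β hβ => ?_, fun hD => ?_⟩
  · simpa using drop_small h (a := {β}) (by simpa using one_lt_aleph0.trans (aleph0_lt (K := K)))
      (by simpa using hβ)
  · exact not_const h (mem_of_superset hD fun x hx => rho_D hx)

theorem regr_rho [WellFoundedLT W] : Regr (rho σ) := by
  refine ⟨fun y x hx => ?_, fun y => le_bot_iff.1 (rho_le y ⊥), ?_⟩
  · by_cases h : x ∈ Ds σ y.1 y.2
    · exact (rho_D h).trans_lt (bot_lt_iff_ne_bot.2 hx)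
    · exact (rho_nD h).1
  rintro ⟨b, α⟩ ⟨b', α'⟩ r hr
  have hf := drop_fol hr
  obtain ⟨β₀, h₀, hmin⟩ := wellFounded_lt.has_min {β | β = α' ∨ b β ≠ b' β} ⟨α', Or.inl rfl⟩
  have hle : β₀ ≤ α' := not_lt.1 (hmin α' (Or.inl rfl))
  have hag : ∀ β < β₀, b β = b' β := fun β hβ => by_contra fun h => hmin β (Or.inr h) hβ
  have hE : Es σ b β₀ ∉ r := by
    intro h
    rcases hle.eq_or_lt with e | e
    · subst e
      exact hf.out (Ds_congr (σ := σ) hag ▸ mem_of_superset h Es_subset)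
    · obtain ⟨x, h₁, h₂⟩ := Ultrafilter.nonempty_of_mem (inter_mem h (hf.below β₀ e))
      exact (h₀.resolve_left e.ne) (Bool.eq_iff_iff.2 (h₁.2.symm.trans (σ.loc b b' β₀ hag ▸ h₂.2)))
  rcases le_or_gt α β₀ with e | e
  · have hag' : ∀ β < α, b β = b' β := fun β hβ => hag β (hβ.trans_le e)
    rcases (e.trans hle).eq_or_lt with rfl | e'
    · exact Or.inl (rho_congr hag')
    · exact Or.inr ⟨⊥, mem_of_superset (hf.below α e') fun x hx => rho_D (Ds_congr (σ := σ) hag' ▸ Es_subset hx)⟩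
  obtain ⟨ξ₁, ⟨β₁, h₁, h₂, h₃⟩, hm⟩ := wellFounded_lt.has_min
    {ξ | ∃ β ∈ σ.M α ξ, β₀ ≤ β ∧ β < α} ((σ.cov α β₀ e).imp fun ξ h => ⟨β₀, h, le_rfl, e⟩)
  have a₁ : (Es σ b β₁)ᶜ ∈ r :=
    Ultrafilter.compl_mem_iff_notMem.2 fun h => hE (Es_mem hf.unif h₂ h)
  have a₂ := drop_small hr (small_M (σ := σ) α ξ₁ (· < β₀)) fun β hβ => hβ.1.trans_le hle
  refine Or.inr ⟨ξ₁, mem_of_superset (inter_mem (inter_mem a₁ a₂) (hf.unif (Ioi_mem_atTop ξ₁))) ?_⟩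
  rintro x ⟨⟨c₁, c₂⟩, c₃⟩
  have hb : ξ₁ ∈ Bad σ b α x := ⟨β₁, h₁, h₃, c₁⟩
  obtain ⟨-, ⟨β, d₁, d₂, d₃⟩, d₄⟩ := rho_nD (not_mem_Ds.2 ⟨ξ₁, hb, c₃⟩)
  refine (d₄ ξ₁ hb).eq_or_lt.resolve_right fun hlt => d₃ ?_
  have : β < β₀ := not_le.1 fun h => hm _ ⟨β, d₁, h, d₂⟩ hlt
  exact Es_congr (σ := σ) hag this ▸ c₂ β ⟨this, _, hlt, d₁⟩

end Pool.Agent.MP_be203f_lc.Z

end

section

namespace Pool.Agent.MP_be203f_lc.Z

open Cardinal Set Filter Topology TopologicalSpace Pool.Agent.MP_be203f_lc.R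

universe u

variable {K : Type u}

/-- The sum of two sets of ultrafilters. -/
def Zs (X : Bool → Set (Ultrafilter K)) : Type u := {z : Bool × Ultrafilter K // z.2 ∈ X z.1}

/-- Basic open sets. -/
def bs (X : Bool → Set (Ultrafilter K)) (j : Bool × Set K) : Set (Zs X) :=
  {z | z.1.1 = j.1 ∧ j.2 ∈ z.1.2}

instance (X : Bool → Set (Ultrafilter K)) : TopologicalSpace (Zs X) := generateFrom (range (bs X))

variable {X : Bool → Set (Ultrafilter K)}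

theorem basis_bs : IsTopologicalBasis (range (bs X)) := by
  refine ⟨?_, ?_, rfl⟩
  · rintro _ ⟨⟨i, A⟩, rfl⟩ _ ⟨⟨j, B⟩, rfl⟩ z ⟨h₁, h₂⟩
    exact ⟨_, ⟨(i, A ∩ B), rfl⟩, ⟨h₁.1, inter_mem h₁.2 h₂.2⟩, fun y hy =>
      ⟨⟨hy.1, mem_of_superset hy.2 inter_subset_left⟩,
        hy.1.trans (h₁.1.symm.trans h₂.1), mem_of_superset hy.2 inter_subset_right⟩⟩
  · exact eq_univ_of_forall fun z => ⟨_, ⟨(z.1.1, Set.univ), rfl⟩, rfl, univ_mem⟩

theorem open_bs (j : Bool × Set K) : IsOpen (bs X j) := basis_bs.isOpen ⟨j, rfl⟩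

theorem kcompact_Zs (hK : ℵ₀ ≤ #K) (h : ∀ i, KC (X i)) : KCompact #K (Zs X) := by
  intro C hC hcov
  have : ∀ i, ∃ D ⊆ C, #D < #K ∧ ∀ z : Zs X, z.1.1 = i → z ∈ ⋃₀ D := by
    intro i
    obtain ⟨V, h₁, h₂, h₃⟩ := h i {A | ∃ O ∈ C, bs X (i, A) ⊆ O} fun p hp => by
      obtain ⟨O, hO, hz⟩ : (⟨(i, p), hp⟩ : Zs X) ∈ ⋃₀ C := hcov ▸ mem_univ _
      obtain ⟨_, ⟨⟨j, A⟩, rfl⟩, d₁, d₂⟩ := basis_bs.exists_subset_of_mem_open hz (hC O hO)
      obtain rfl : i = j := d₁.1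
      exact ⟨A, ⟨O, hO, d₂⟩, d₁.2⟩
    choose O hO hO' using fun A : V => h₁ A.2
    refine ⟨range O, range_subset_iff.2 hO, mk_range_le.trans_lt h₂, fun z hz => ?_⟩
    obtain ⟨A, d₁, d₂⟩ := h₃ z.1.2 (hz ▸ z.2)
    exact ⟨_, ⟨⟨A, d₁⟩, rfl⟩, hO' _ ⟨hz, d₂⟩⟩
  choose D h₁ h₂ h₃ using this
  refine ⟨D false ∪ D true, union_subset (h₁ _) (h₁ _),
    (mk_union_le _ _).trans_lt (add_lt_of_lt hK (h₂ _) (h₂ _)), eq_univ_of_forall fun z => ?_⟩
  rw [sUnion_union]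
  cases e : z.1.1
  · exact Or.inl (h₃ _ z e)
  · exact Or.inr (h₃ _ z e)

theorem sq_of (hK : ℵ₀ ≤ #K) (h : SqCompact #K (2 ^ #K)) : SQ K := by
  classical
  intro X₀ X₁ h₀ h₁ U cov
  let X : Bool → Set (Ultrafilter K) := fun i => cond i X₁ X₀
  have hk := h (Zs X) ⟨_, basis_bs, mk_range_le.trans (by
    simp only [mk_prod, mk_bool, lift_ofNat, mk_set, lift_uzero]
    exact (mul_eq_right (hK.trans (cantor _).le) ((natCast_lt_aleph0 (n := 2)).le.trans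
      (hK.trans (cantor _).le)) two_ne_zero).le)⟩ (kcompact_Zs hK fun i => by cases i <;> assumption)
  let box : Set K → Set (Zs X × Zs X) := fun A => bs X (false, A) ×ˢ Set.univ
  obtain ⟨D, d₁, d₂, d₃⟩ := hk (box '' U ∪ {O | IsOpen O ∧ ∀ z ∈ O, z.1.1.1 = false →
      z.2.1.1 = true → z.1.1.2 ≠ z.2.1.2}) (by
    rintro O (⟨A, -, rfl⟩ | hO)
    · exact (open_bs _).prod isOpen_univ
    · exact hO.1) (by
    refine eq_univ_of_forall ?_
    rintro ⟨⟨⟨i, p⟩, hp⟩, ⟨⟨j, q⟩, hq⟩⟩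
    cases i with
    | true => exact ⟨bs X (true, Set.univ) ×ˢ Set.univ, Or.inr ⟨(open_bs _).prod isOpen_univ,
        fun z hz e => absurd (hz.1.1.symm.trans e) (by simp)⟩, ⟨rfl, univ_mem⟩, trivial⟩
    | false =>
    cases j with
    | false => exact ⟨Set.univ ×ˢ bs X (false, Set.univ), Or.inr ⟨isOpen_univ.prod (open_bs _),
        fun z hz _ e => absurd (hz.2.1.symm.trans e) (by simp)⟩, trivial, rfl, univ_mem⟩
    | true =>
    by_cases e : ∀ A ∈ p, A ∈ q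
    · obtain rfl : q = p := Ultrafilter.eq_of_le e
      obtain ⟨A, hA, hAq⟩ := cov q ⟨hp, hq⟩
      exact ⟨_, Or.inl ⟨A, hA, rfl⟩, ⟨rfl, hAq⟩, trivial⟩
    · push Not at e
      obtain ⟨A, e₁, e₂⟩ := e
      exact ⟨bs X (false, A) ×ˢ bs X (true, Aᶜ), Or.inr ⟨(open_bs _).prod (open_bs _),
        fun z hz _ _ e => Ultrafilter.compl_mem_iff_notMem.1 hz.2.2 (e ▸ hz.1.2)⟩,
        ⟨rfl, e₁⟩, rfl, Ultrafilter.compl_mem_iff_notMem.2 e₂⟩)
  choose A hA hA' using fun O : {O : D // O.1 ∈ box '' U} => O.2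
  refine ⟨range A, range_subset_iff.2 hA, mk_range_le.trans_lt ((mk_subtype_le _).trans_lt d₂),
    fun p hp => ?_⟩
  obtain ⟨O, hO, hz⟩ : ((⟨(false, p), hp.1⟩, ⟨(true, p), hp.2⟩) : Zs X × Zs X) ∈ ⋃₀ D :=
    d₃ ▸ mem_univ _
  rcases d₁ hO with h' | h'
  · refine ⟨_, ⟨⟨⟨O, hO⟩, h'⟩, rfl⟩, ?_⟩
    have := hA' ⟨⟨O, hO⟩, h'⟩
    dsimp only at this
    rw [← this] at hz
    exact hz.1.2
  · exact absurd rfl (h'.2 _ hz rfl rfl)

section Small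

variable [LinearOrder K]

theorem reg_of_sq [WellFoundedLT K] (hK : ℵ₀ < #K) (small : ∀ x : K, #(Iio x) < #K) (sq : SQ K)
    {ι : Type u} (hι : #ι < #K) (f : ι → K) : ∃ γ, ∀ i, f i < γ := by
  by_contra hn
  push Not at hn
  have sm : ∀ x : K, #(Iic x) < #K := fun x => by
    rw [← Iio_insert, mk_insert (by simp)]
    exact add_lt_of_lt hK.le (small x) (one_lt_aleph0.trans hK)
  have : NoMaxOrder K := ⟨fun x => by
    by_contra h
    push Not at h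
    exact not_le.2 (sm x) (mk_univ (α := K) ▸ mk_le_mk_of_subset fun y _ => h y)⟩
  have : Nonempty K := mk_ne_zero_iff.1 (aleph0_pos.trans hK).ne'
  refine not_kc_pure (X := {p | (∃ x, p = pure x) ∨ ↑p ≤ (atTop : Filter K)} ∩
    {p | ∃ i, Iic (f i) ∈ p}) ?_ (fun x => ⟨Or.inl ⟨x, rfl⟩, hn x⟩) (sq _ _ ?_ ?_)
  · rintro q ⟨hq | hq, i, hi⟩
    · exact hq
    · obtain ⟨x, h₁, h₂⟩ := Ultrafilter.nonempty_of_mem (inter_mem hi (hq (Ioi_mem_atTop (f i))))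
      exact absurd h₁ (not_le.2 h₂)
  · intro U cov
    obtain ⟨S, hS, V, h₁, h₂, h₃⟩ := fin_compact cov (F := atTop) fun p hp => Or.inr hp
    obtain ⟨ζ, hζ⟩ := mem_atTop_sets.1 hS
    choose A hA hA' using fun x : Iio ζ => cov (pure x.1) (Or.inl ⟨_, rfl⟩)
    refine ⟨V ∪ range A, union_subset h₁ (range_subset_iff.2 hA), (mk_union_le _ _).trans_lt
      (add_lt_of_lt hK.le (h₂.lt_aleph0.trans hK) (mk_range_le.trans_lt (small ζ))), ?_⟩
    rintro p (⟨x, rfl⟩ | hp)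
    · rcases lt_or_ge x ζ with h | h
      · exact ⟨_, Or.inr ⟨⟨x, h⟩, rfl⟩, hA' _⟩
      · exact (h₃ _ (hζ x h)).imp fun B hB => ⟨Or.inl hB.1, hB.2⟩
    · exact (h₃ _ (hp hS)).imp fun B hB => ⟨Or.inl hB.1, hB.2⟩
  · intro U cov
    choose S hS V h₁ h₂ h₃ using fun i => fin_compact cov (F := 𝓟 (Iic (f i)))
      fun p hp => ⟨i, le_principal_iff.1 hp⟩
    refine ⟨⋃ i, V i, iUnion_subset h₁, (mk_iUnion_le_sum_mk.trans
      (sum_le_sum _ (fun _ => ℵ₀) fun i => (h₂ i).lt_aleph0.le)).trans_lt ?_, ?_⟩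
    · rw [sum_const']
      exact mul_lt_of_lt hK.le hι hK
    · rintro p ⟨i, hi⟩
      exact (h₃ i p (mem_of_superset hi (hS i))).imp fun B hB => ⟨mem_iUnion.2 ⟨i, hB.1⟩, hB.2⟩

theorem kc_side [RK K] {e : K → ℝ} (he : Function.Injective e) :
    KC {p : Ultrafilter K | (∃ x, p = pure x) ∨ ∃ r, Tendsto e p (𝓝[>] r)} := by
  intro U cov
  set X := {p : Ultrafilter K | (∃ x, p = pure x) ∨ ∃ r, Tendsto e p (𝓝[>] r)}
  have : ∀ r : ℝ, ∃ y, r < y ∧ SC X U fun q => e ⁻¹' Ioo r y ∈ q := by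
    intro r
    obtain ⟨S, hS, h⟩ := sc_compact cov (F := comap e (𝓝[>] r))
      fun p hp => Or.inr ⟨r, tendsto_iff_comap.2 hp⟩
    obtain ⟨S', h₁, h₂⟩ := mem_comap.1 hS
    obtain ⟨y, h₃, h₄⟩ := mem_nhdsGT_iff_exists_Ioo_subset.1 h₁
    exact ⟨y, h₃, h.mono fun q _ hq => mem_of_superset hq fun x hx => h₂ (h₄ hx)⟩
  choose y hy hsc using this
  obtain ⟨T, hT, hT'⟩ := isOpen_iUnion_countable (fun r => Ioo r (y r)) fun _ => isOpen_Ioo
  have hC : (⋃ r, Ioo r (y r))ᶜ.Countable := by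
    refine Set.PairwiseDisjoint.countable_of_Ioo (y := y) ?_ fun r _ => hy r
    intro r hr r' hr' hne
    refine disjoint_left.2 fun z h₁ h₂ => ?_
    rcases lt_or_gt_of_ne hne with h | h
    · exact hr' (mem_iUnion.2 ⟨r, h, h₂.1.trans h₁.2⟩)
    · exact hr (mem_iUnion.2 ⟨r', h, h₁.1.trans h₂.2⟩)
  have := (hT.union hC).to_subtype
  have c₁ := SC.ct fun r : ↥(T ∪ (⋃ r, Ioo r (y r))ᶜ) => hsc r.1
  have c₀ : ∀ x : K, SC X U fun q => q = pure x := fun x => by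
    obtain ⟨A, hA, hx⟩ := cov _ (Or.inl ⟨x, rfl⟩)
    exact ⟨{A}, by simpa using hA, by simpa using one_lt_aleph0.trans (aleph0_lt (K := K)),
      fun q _ e => ⟨A, rfl, e ▸ hx⟩⟩
  obtain ⟨d, hd⟩ := (countable_iff_exists_subset_range (α := K)).1 (hC.preimage he)
  have c₂ := SC.ct fun n => c₀ (d n)
  have key : ∀ r ∈ ⋃ r, Ioo r (y r), ∃ r' ∈ T, r ∈ Ioo r' (y r') := fun r hr => by
    rw [← hT'] at hr
    obtain ⟨r', h₁, h₂⟩ := mem_iUnion₂.1 hr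
    exact ⟨r', h₁, h₂⟩
  obtain ⟨V, h₁, h₂, h₃⟩ := c₁.or c₂
  refine ⟨V, h₁, h₂, fun p hp => h₃ p hp ?_⟩
  rcases hp with ⟨x, rfl⟩ | ⟨r, hr⟩
  · by_cases h : e x ∈ ⋃ r, Ioo r (y r)
    · obtain ⟨r, d₁, d₂⟩ := key _ h
      exact Or.inl ⟨⟨r, Or.inl d₁⟩, d₂⟩
    · obtain ⟨n, rfl⟩ := hd h
      exact Or.inr ⟨n, rfl⟩
  · by_cases h : r ∈ ⋃ r, Ioo r (y r)
    · obtain ⟨r', d₁, d₂⟩ := key _ h
      exact Or.inl ⟨⟨r', Or.inl d₁⟩, hr (mem_nhdsWithin_of_mem_nhds (isOpen_Ioo.mem_nhds d₂))⟩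
    · exact Or.inl ⟨⟨r, Or.inr h⟩, hr (Ioo_mem_nhdsGT (hy r))⟩

theorem big_of_sq [RK K] (sq : SQ K) : Big K := by
  refine ⟨not_le.1 fun h => ?_⟩
  obtain ⟨e⟩ : Nonempty (K ↪ ℝ) := by
    rw [← lift_mk_le', lift_uzero, mk_real, lift_continuum]
    exact h
  refine not_kc_pure ?_ ?_ (sq _ _ (kc_side e.injective)
    (kc_side (e := fun x => -e x) (neg_injective.comp e.injective)))
  · rintro q ⟨hq | ⟨r, hq⟩, hq' | ⟨r', hq'⟩⟩
    · exact hq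
    · exact hq
    · exact hq'
    · obtain rfl : r' = -r := tendsto_nhds_unique (hq'.mono_right nhdsWithin_le_nhds)
        (hq.mono_right nhdsWithin_le_nhds).neg
      obtain ⟨x, h₁, h₂⟩ := Ultrafilter.nonempty_of_mem
        (inter_mem (hq self_mem_nhdsWithin) (hq' self_mem_nhdsWithin))
      exact absurd (neg_lt_neg_iff.1 h₂) (not_lt.2 (le_of_lt (show r < e x from h₁)))
  · exact fun x => ⟨Or.inl ⟨x, rfl⟩, Or.inl ⟨x, rfl⟩⟩

end Small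

theorem rk_of_sq {k : Cardinal.{u}} (hk : ℵ₀ < k) (h : SqCompact k (2 ^ k)) :
    SQ k.ord.ToType ∧ RK k.ord.ToType ∧ Big k.ord.ToType := by
  have e : #k.ord.ToType = k := mk_ord_toType k
  have sq : SQ k.ord.ToType := sq_of (e.symm ▸ hk.le) (e.symm ▸ h)
  have sm : ∀ x : k.ord.ToType, #(Iio x) < #k.ord.ToType := fun x =>
    mk_Iio_lt x (by rw [e, Ordinal.type_toType])
  have rk : RK k.ord.ToType := by
    refine ⟨inferInstance, sm, ?_, e.symm ▸ hk⟩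
    rw [e]
    refine ⟨hk.le, ?_⟩
    rw [← Ordinal.cof_toType, Order.le_cof_iff]
    intro s hs
    by_contra hlt
    obtain ⟨γ, hγ⟩ := reg_of_sq (e.symm ▸ hk) sm sq (ι := s) (e.symm ▸ not_le.1 hlt) Subtype.val
    obtain ⟨x, h₁, h₂⟩ := hs γ
    exact not_le.2 (hγ ⟨x, h₁⟩) h₂
  exact ⟨sq, rk, big_of_sq sq⟩

end Pool.Agent.MP_be203f_lc.Z

end
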