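import Pool.Agent.Mg.Fbe203f.Gf695ac
import Pool.Agent.Mg.Fbe203f.G197bdd

namespace Pool.Agent.MP_be203f_lc.Z

open Cardinal Set Filter Pool.Agent.MP_be203f_lc.R

universe u

theorem part_of_sq {k : Cardinal.{u}} (hk : ℵ₀ < k) (h : SqCompact k k)
    (c : k.ord.ToType → k.ord.ToType → Bool) : ∃ (H : Set k.ord.ToType) (i : Bool),
      #H = k ∧ ∀ a ∈ H, ∀ b ∈ H, a < b → c a b = i := by
  have e : #k.ord.ToType = k := mk_ord_toType k
  have sq : SQw k.ord.ToType := sqw_of (e.symm ▸ hk.le) (e.symm ▸ h)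
  have sm : ∀ x : k.ord.ToType, #(Iio x) < #k.ord.ToType := fun x =>
    mk_Iio_lt x (by rw [e, Ordinal.type_toType])
  have rk : RK k.ord.ToType := by
    refine ⟨inferInstance, sm, ?_, e.symm ▸ hk⟩
    rw [e]
    refine ⟨hk.le, ?_⟩
    rw [← Ordinal.cof_toType, Order.le_cof_iff]
    intro s hs
    by_contra hlt
    obtain ⟨γ, hγ⟩ := reg_of_sqw (e.symm ▸ hk) sm sq (ι := s) (e.symm ▸ not_le.1 hlt) Subtype.val
    obtain ⟨x, h₁, h₂⟩ := hs γ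
    exact not_le.2 (hγ ⟨x, h₁⟩) h₂
  have := part_of_sqw sq c
  rwa [e] at this

theorem kcompact_aleph0 {X : Type u} [TopologicalSpace X] : KCompact ℵ₀ X ↔ CompactSpace X := by
  constructor
  · refine fun h => ⟨isCompact_of_finite_subcover fun {ι} U hU hc => ?_⟩
    obtain ⟨D, h₁, h₂, h₃⟩ := h (range U) (forall_mem_range.2 hU)
      (by rw [sUnion_range]; exact univ_subset_iff.1 hc)
    obtain ⟨t, h₄, rfl⟩ := (lt_aleph0_iff_set_finite.1 h₂).exists_subset_finite_image_eq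
      (s := Set.univ) (f := U) (by rwa [image_univ]) |>.imp fun t ht => ht.2
    exact ⟨h₄.toFinset, by simpa [sUnion_image] using h₃.ge⟩
  · intro h C hC hc
    obtain ⟨D, h₁, h₂, h₃⟩ := isCompact_univ.elim_finite_subcover_image (b := C) (c := id) hC
      (by rw [← hc, sUnion_eq_biUnion]; rfl)
    exact ⟨D, h₁, h₂.lt_aleph0, by rw [sUnion_eq_biUnion]; exact univ_subset_iff.1 h₃⟩

theorem sq_tfae : List.TFAE [
    ∃ k : Cardinal.{u}, ℵ₀ < k ∧ ∀ c : k.ord.ToType → k.ord.ToType → Bool,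
      ∃ (H : Set k.ord.ToType) (i : Bool), #H = k ∧ ∀ a ∈ H, ∀ b ∈ H, a < b → c a b = i,
    ∃ k : Cardinal.{u}, ℵ₀ < k ∧ SqCompact k k ∧ ¬ SqCompact k (2 ^ k),
    ∃ k l m : Cardinal.{u}, ℵ₀ ≤ k ∧ k ≤ l ∧ l < m ∧ SqCompact k l ∧ ¬ SqCompact k m] := by
  tfae_have 1 → 2 := fun ⟨k, hk, hp⟩ => (separate k hk hp).imp fun _ h => h.2
  tfae_have 2 → 3 := fun ⟨k, hk, h₁, h₂⟩ => ⟨k, k, 2 ^ k, hk.le, le_rfl, cantor k, h₁, h₂⟩
  tfae_have 3 → 1 := by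
    rintro ⟨k, l, m, hk, hl, -, h₁, h₂⟩
    have hk' : ℵ₀ < k := hk.lt_of_ne fun e => h₂ fun X _ _ hX => by
      subst e
      have := kcompact_aleph0.1 hX
      exact kcompact_aleph0.2 inferInstance
    exact ⟨k, hk', part_of_sq hk' fun X _ ⟨B, hB, hB'⟩ => h₁ X ⟨B, hB, hB'.trans hl⟩⟩
  tfae_finish

end Pool.Agent.MP_be203f_lc.Z
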