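import Pool.Agent.MP_be203f_lc.R.Pos

section

namespace Pool.Agent.MP_be203f_lc.R

open Cardinal Set

universe u

variable {κ μ : Cardinal.{u}} {L : Type u} [LinearOrder L]

/-- Truncation. -/
def tr (η : L) (y : L → Bool) : L → Bool := fun i => if i < η then y i else false

/-- The point meets the finite condition. -/
def Sat (y : L → Bool) (s : Finset (L × Bool)) : Prop := ∀ p ∈ s, y p.1 = p.2

/-- Nonzero limit. -/
def Lm (ξ : L) : Prop := (∃ η, η < ξ) ∧ ∀ η < ξ, ∃ ζ, η < ζ ∧ ζ < ξ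

/-- The promise. -/
def Pr (U : Set (Finset (L × Bool))) (ξ : L) (y : L → Bool) : Prop :=
  (∀ η < ξ, ∃ s ∈ U, Sat (tr η y) s) → ∃ s ∈ U, Sat (tr ξ y) s

/-- Flip all values. -/
def fl (i : Bool) (t : L → Bool) : L → Bool := fun a => xor i (t a)

theorem tr_congr {η ξ : L} {y y' : L → Bool} (h : ∀ i < ξ, y i = y' i) (hη : η ≤ ξ) :
    tr η y = tr η y' := by
  funext i
  unfold tr
  split_ifs with hi
  · exact h i (hi.trans_le hη)
  · rfl

theorem tr_lt {η i : L} (y : L → Bool) (h : i < η) : tr η y i = y i := if_pos h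

theorem tr_ge {η i : L} (y : L → Bool) (h : η ≤ i) : tr η y i = false := if_neg h.not_gt

theorem tr_tr {η ξ : L} (y : L → Bool) (h : η ≤ ξ) : tr ξ (tr η y) = tr η y := by
  funext i
  by_cases hi : i < ξ
  · exact tr_lt _ hi
  · rw [tr_ge _ (not_lt.1 hi), tr_ge _ (h.trans (not_lt.1 hi))]

theorem Pr.congr {U : Set (Finset (L × Bool))} {ξ : L} {y y' : L → Bool}
    (h : ∀ i < ξ, y i = y' i) (hp : Pr U ξ y) : Pr U ξ y' := by
  intro H
  rw [← tr_congr h le_rfl]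
  exact hp fun η hη => by rw [tr_congr h hη.le]; exact H η hη

theorem Pr.loc {U : Set (Finset (L × Bool))} {ξ : L} {y y' : L → Bool}
    (h : ∀ s ∈ U, ∀ p ∈ s, y p.1 = y' p.1) (hp : Pr U ξ y) : Pr U ξ y' := by
  have key : ∀ η, ∀ s ∈ U, Sat (tr η y) s ↔ Sat (tr η y') s := fun η s hs =>
    forall₂_congr fun p hp => by unfold tr; rw [h s hs p hp]
  intro H
  obtain ⟨s, hs, h'⟩ := hp fun η hη => by
    obtain ⟨s, hs, h'⟩ := H η hη
    exact ⟨s, hs, (key η s hs).2 h'⟩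
  exact ⟨s, hs, (key ξ s hs).1 h'⟩

theorem pr_tr {U : Set (Finset (L × Bool))} {η ξ : L} (y : L → Bool) (h : η < ξ) :
    Pr U ξ (tr η y) := by
  intro H
  have := H η h
  rwa [tr_tr y le_rfl, ← tr_tr y h.le] at this

omit [LinearOrder L] in
theorem small_dom (hκ : κ.IsRegular) {U : Set (Finset (L × Bool))} (hU : #U < κ) :
    #(⋃ s ∈ U, Prod.fst '' (s : Set (L × Bool)) : Set L) < κ :=
  (card_biUnion_lt_iff_forall_of_isRegular hκ hU).2 fun s _ =>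
    (s.finite_toSet.image _).lt_aleph0.trans_le hκ.aleph0_le

/-- Compactness below a point. -/
theorem satL (hb : BoxCompact κ μ) {η : L} (hη : #(Iio η) ≤ μ) {J : Type u}
    (A : J → Set (L → Bool))
    (hA : ∀ j w, w ∉ A j → ∃ a : Set L, #a < κ ∧ ∀ w', (∀ i ∈ a, w' i = w i) → w' ∉ A j)
    (hfin : ∀ D : Set J, #D < κ → ∃ w, ∀ j ∈ D, tr η w ∈ A j) : ∃ w, ∀ j, tr η w ∈ A j := by
  let ex : (Iio η → Bool) → L → Bool := fun w i => if h : i < η then w ⟨i, h⟩ else false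
  have hex : ∀ w, tr η (ex w) = ex w := fun w => by
    funext i
    by_cases hi : i < η
    · exact tr_lt _ hi
    · simp only [ex, dif_neg hi, tr_ge _ (not_lt.1 hi)]
  obtain ⟨w, hw⟩ := sat hb hη (fun j => {w | ex w ∈ A j}) (fun j w hw => by
      obtain ⟨a, ha, h⟩ := hA j _ hw
      refine ⟨Subtype.val ⁻¹' a,
        (mk_preimage_of_injective _ _ Subtype.val_injective).trans_lt ha, fun w' hw' => ?_⟩
      refine h _ fun i hi => ?_
      by_cases hi' : i < η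
      · simp only [ex, dif_pos hi']; exact hw' ⟨i, hi'⟩ hi
      · simp only [ex, dif_neg hi'])
    (fun D hD => by
      obtain ⟨w, hw⟩ := hfin D hD
      refine ⟨fun i => w i.1, fun j hj => ?_⟩
      have : ex (fun i => w i.1) = tr η w := by
        funext i
        by_cases hi : i < η
        · simp only [ex, dif_pos hi, tr_lt _ hi]
        · simp only [ex, dif_neg hi, tr_ge _ (not_lt.1 hi)]
      rw [mem_ofPred_eq, this]
      exact hw j hj)
  exact ⟨ex w, fun j => by rw [hex]; exact hw j⟩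

section Alive

variable (S : Set L) (sd : L → Bool) (U : L → Set (Finset (L × Bool)))

/-- The promise at a point, on the side chosen there. -/
def Bo (t : L → Bool) (ξ : L) : Prop := ξ ∈ S → Lm ξ → Pr (U ξ) ξ (fl (sd ξ) t)

/-- All promises up to a point hold. -/
def Gd (η : L) (t : L → Bool) : Prop := ∀ ξ ≤ η, Bo S sd U t ξ

/-- Extension property. -/
def Ext (ζ : L) : Prop := ∀ η ≤ ζ, ∀ t, Gd S sd U η t →
  ∃ t', (∀ i < η, t' i = t i) ∧ Gd S sd U ζ t'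

variable {S sd U}

theorem Bo.congr {ξ : L} {t t' : L → Bool} (h : ∀ i < ξ, t i = t' i) (hb : Bo S sd U t ξ) :
    Bo S sd U t' ξ := fun h1 h2 => (hb h1 h2).congr fun i hi => by unfold fl; rw [h i hi]

theorem Gd.congr {η : L} {t t' : L → Bool} (h : ∀ i < η, t i = t' i) (hb : Gd S sd U η t) :
    Gd S sd U η t' := fun ξ hξ => (hb ξ hξ).congr fun i hi => h i (hi.trans_le hξ)

variable [WellFoundedLT L]

theorem exists_nxt {x ζ : L} (h : x < ζ) : ∃ x', x < x' ∧ x' ≤ ζ ∧ ∀ i < x', i ≤ x := by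
  obtain ⟨m, hm, hmin⟩ := wellFounded_lt.has_min (Ioi x) ⟨ζ, h⟩
  exact ⟨m, hm, not_lt.1 fun h' => hmin ζ h h', fun i hi => not_lt.1 fun h' => hmin i h' hi⟩

/-- Finitely many values can be prescribed. -/
theorem ext_free {ζ : L} (H : ∀ ξ ≤ ζ, Ext S sd U ξ) (z : Bool) (a : Finset L) :
    ∀ η ≤ ζ, ∀ t, Gd S sd U η t → ∃ t', (∀ i < η, t' i = t i) ∧
      (∀ i ∈ a, η ≤ i → i < ζ → t' i = z) ∧ Gd S sd U ζ t' := by
  classical
  induction a using Finset.induction_on_min with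
  | empty =>
    intro η hη t ht
    obtain ⟨t', h1, h2⟩ := H ζ le_rfl η hη t ht
    exact ⟨t', h1, by simp, h2⟩
  | insert x a hx ih =>
    intro η hη t ht
    by_cases hc : η ≤ x ∧ x < ζ
    · obtain ⟨t₁, h1, h2⟩ := H x hc.2.le η hc.1 t ht
      obtain ⟨x', a1, a2, a3⟩ := exists_nxt hc.2
      have h3 : Gd S sd U x' (Function.update t₁ x z) := by
        intro ξ hξ
        by_cases hξx : ξ ≤ x
        · exact (h2 ξ hξx).congr fun i hi =>
            (Function.update_of_ne (hi.trans_le hξx).ne _ _).symm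
        · intro _ hl
          obtain ⟨y, b1, b2⟩ := hl.2 x (not_le.1 hξx)
          exact absurd (a3 y (b2.trans_le hξ)) b1.not_ge
      obtain ⟨t', c1, c2, c3⟩ := ih x' a2 _ h3
      refine ⟨t', fun i hi => ?_, fun i hi b1 b2 => ?_, c3⟩
      · rw [c1 i (hi.trans (hc.1.trans_lt a1)),
          Function.update_of_ne (hi.trans_le hc.1).ne, h1 i hi]
      · rcases Finset.mem_insert.1 hi with rfl | hi
        · rw [c1 i a1, Function.update_self]
        · exact c2 i hi (not_lt.1 fun h => (hx i hi).not_ge (a3 i h)) b2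
    · obtain ⟨t', c1, c2, c3⟩ := ih η hη t ht
      refine ⟨t', c1, fun i hi b1 b2 => ?_, c3⟩
      rcases Finset.mem_insert.1 hi with rfl | hi
      · exact absurd ⟨b1, b2⟩ hc
      · exact c2 i hi b1 b2

/-- Passing a limit along a cofinal set whose limit points are not in `S`. -/
theorem lim_along {δ : L} (H : ∀ ξ < δ, Ext S sd U ξ) {C : Set L} (hC : C ⊆ Iio δ)
    (hcof : ∀ i < δ, ∃ c ∈ C, i < c)
    (hlim : ∀ γ < δ, γ ∈ S → Lm γ → ∃ β < γ, ∀ c ∈ C, c < γ → c ≤ β)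
    {η : L} (hη : η < δ) {t : L → Bool} (ht : Gd S sd U η t) :
    ∃ t', (∀ i < η, t' i = t i) ∧ ∀ ξ < δ, Bo S sd U t' ξ := by
  classical
  have h1 : ∀ i, ∃ c, i < δ → c ∈ C ∧ i < c ∧ ∀ c' ∈ C, i < c' → c ≤ c' := fun i => by
    by_cases hi : i < δ
    · obtain ⟨m, hm, hmin⟩ := wellFounded_lt.has_min {c | c ∈ C ∧ i < c} (hcof i hi)
      exact ⟨m, fun _ => ⟨hm.1, hm.2, fun c' a b => not_lt.1 fun h => hmin c' ⟨a, b⟩ h⟩⟩
    · exact ⟨i, fun h => absurd h hi⟩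
  choose up hup using h1
  have h2 : ∀ c, ∃ l, η ≤ c → η ≤ l ∧ l ≤ c ∧ (∀ c' ∈ C, c' < c → c' ≤ l) ∧
      ∀ i, η ≤ i → i < l → ∃ c' ∈ C, c' < c ∧ i < c' := fun c => by
    by_cases hc : η ≤ c
    · obtain ⟨m, hm, hmin⟩ := wellFounded_lt.has_min
        {l | η ≤ l ∧ ∀ c' ∈ C, c' < c → c' ≤ l} ⟨c, hc, fun _ _ h => h.le⟩
      refine ⟨m, fun _ => ⟨hm.1, not_lt.1 fun h => hmin c ⟨hc, fun _ _ h => h.le⟩ h, hm.2,
        fun i a b => ?_⟩⟩
      by_contra hn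
      push Not at hn
      exact hmin i ⟨a, hn⟩ b
    · exact ⟨c, fun h => absurd h hc⟩
  choose low hlow using h2
  have h3 : ∀ (c : L) (s : L → Bool), ∃ s' : L → Bool, η ≤ c → c < δ → Gd S sd U (low c) s →
      (∀ i < low c, s' i = s i) ∧ Gd S sd U c s' := fun c s => by
    by_cases h : η ≤ c ∧ c < δ ∧ Gd S sd U (low c) s
    · obtain ⟨s', hs'⟩ := H c h.2.1 _ (hlow c h.1).2.1 s h.2.2
      exact ⟨s', fun _ _ _ => hs'⟩
    · exact ⟨s, fun a b d => absurd ⟨a, b, d⟩ h⟩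
  choose ch hch using h3
  let f : L → L → Bool := (wellFounded_lt (α := L)).fix fun c ih =>
    ch c fun i => if i < η then t i else if h : up i < c then ih (up i) h i else false
  have hf : ∀ c, f c = ch c fun i => if i < η then t i else if up i < c then f (up i) i
      else false := fun c => by
    rw [show f c = _ from WellFounded.fix_eq _ _ c]
    simp only [dite_eq_ite]
    rfl
  let t' : L → Bool := fun i => if i < η then t i else f (up i) i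
  have key : ∀ c, c ∈ C → η ≤ c → Gd S sd U c t' := by
    intro c
    induction c using WellFoundedLT.induction with
    | ind c ih =>
    intro hc hηc
    obtain ⟨l1, l2, l3, l4⟩ := hlow c hηc
    have hcδ : c < δ := hC hc
    let g : L → Bool := fun i => if i < η then t i else if up i < c then f (up i) i else false
    have e1 : ∀ i < low c, g i = t' i := fun i hi => by
      by_cases hi' : i < η
      · simp only [g, t', if_pos hi']
      · obtain ⟨c', b1, b2, b3⟩ := l4 i (not_lt.1 hi') hi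
        have := ((hup i (b3.trans (hC b1))).2.2 c' b1 b3).trans_lt b2
        simp only [g, t', if_neg hi', if_pos this]
    have e2 : Gd S sd U (low c) t' := by
      intro ξ hξ
      by_cases a1 : ξ ≤ η
      · exact (ht ξ a1).congr fun i hi => by simp only [t', if_pos (hi.trans_le a1)]
      · intro a2 a3
        obtain ⟨β, b1, b2⟩ := hlim ξ ((hξ.trans l2).trans_lt hcδ) a2 a3
        obtain ⟨c', d1, d2, d3⟩ := l4 (max β η) (le_max_right _ _)
          ((max_lt b1 (not_le.1 a1)).trans_le hξ)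
        have d4 : ξ ≤ c' := not_lt.1 fun h =>
          (b2 c' d1 h).not_gt ((le_max_left _ _).trans_lt d3)
        exact ih c' d2 d1 ((le_max_right _ _).trans d3.le) ξ d4 a2 a3
    obtain ⟨e3, e4⟩ := hch c g hηc hcδ (e2.congr fun i hi => (e1 i hi).symm)
    rw [← hf c] at e3 e4
    refine e4.congr fun i hi => ?_
    by_cases a1 : i < low c
    · rw [e3 i a1, e1 i a1]
    · have a2 : ¬ i < η := fun h => a1 (h.trans_le l1)
      obtain ⟨b1, b2, b3⟩ := hup i (hi.trans hcδ)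
      have : up i = c := le_antisymm (b3 c hc hi) (not_lt.1 fun h =>
        a1 (b2.trans_le (l3 _ b1 h)))
      simp only [t', if_neg a2, this]
  refine ⟨t', fun i hi => by simp only [t', if_pos hi], fun ξ hξ => ?_⟩
  obtain ⟨c, h1, h2⟩ := hcof _ (max_lt hξ hη)
  exact key c h1 ((le_max_right _ _).trans h2.le) ξ ((le_max_left _ _).trans h2.le)

end Alive

end Pool.Agent.MP_be203f_lc.R

end

section

namespace Pool.Agent.MP_be203f_lc.R

open Cardinal Set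

universe u

variable {κ μ : Cardinal.{u}} {L : Type u} [LinearOrder L]
variable {S : Set L} {sd : L → Bool} {U : L → Set (Finset (L × Bool))}

theorem fin_bd {F : Set L} (hF : F.Finite) {γ : L} (h : ∃ η, η < γ) :
    ∃ β < γ, ∀ c ∈ F, c < γ → c ≤ β := by
  induction F, hF using Set.Finite.induction_on with
  | empty => obtain ⟨η, h⟩ := h; exact ⟨η, h, by simp⟩
  | @insert a s _ _ ih =>
    obtain ⟨β, h1, h2⟩ := ih
    by_cases ha : a < γ
    · refine ⟨max β a, max_lt h1 ha, ?_⟩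
      rintro c (rfl | hc) h'
      · exact le_max_right _ _
      · exact (h2 c hc h').trans (le_max_left _ _)
    · refine ⟨β, h1, ?_⟩
      rintro c (rfl | hc) h'
      · exact absurd h' ha
      · exact h2 c hc h'

theorem exists_ladder {δ : L} (hδ : Lm δ)
    (hnr : ℵ₀ < Order.cof (Iio δ) → ¬ IsStationary (Subtype.val ⁻¹' S : Set (Iio δ))) :
    ∃ C ⊆ Iio δ, (∀ i < δ, ∃ c ∈ C, i < c) ∧
      ∀ γ < δ, γ ∈ S → Lm γ → ∃ β < γ, ∀ c ∈ C, c < γ → c ≤ β := by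
  have cf : ∀ T : Set (Iio δ), IsCofinal T → ∀ i < δ, ∃ c ∈ Subtype.val '' T, i < c := by
    intro T hT i hi
    obtain ⟨j, h1, h2⟩ := hδ.2 i hi
    obtain ⟨c, h3, h4⟩ := hT ⟨j, h2⟩
    exact ⟨c.1, ⟨c, h3, rfl⟩, h1.trans_le h4⟩
  by_cases h : ℵ₀ < Order.cof (Iio δ)
  · obtain ⟨T, hT, hd⟩ := not_isStationary_iff.1 (hnr h)
    refine ⟨Subtype.val '' T, by rintro _ ⟨c, -, rfl⟩; exact c.2, cf T hT.isCofinal,
      fun γ h1 h2 h3 => ?_⟩
    by_contra hn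
    push Not at hn
    obtain ⟨η, hη⟩ := h3.1
    refine Set.disjoint_left.1 hd (show (⟨γ, h1⟩ : Iio δ) ∈ Subtype.val ⁻¹' S from h2)
      (hT.isLUB_mem (t := {c | c ∈ T ∧ c.1 < γ}) (fun _ h => h.1) ?_ ⟨fun c hc => hc.2.le, ?_⟩)
    · obtain ⟨_, ⟨c, a1, rfl⟩, a2, -⟩ := hn η hη
      exact ⟨c, a1, a2⟩
    · intro b hb
      refine not_lt.1 fun hb' => ?_
      obtain ⟨_, ⟨c, a1, rfl⟩, a2, a3⟩ := hn b.1 hb'
      exact (hb ⟨a1, a2⟩).not_gt a3
  · obtain ⟨T, hT, hc⟩ := Order.exists_cof_eq (Iio δ)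
    obtain ⟨η, hη⟩ := hδ.1
    have : Nonempty (Iio δ) := ⟨⟨η, hη⟩⟩
    obtain ⟨c, rfl⟩ := (le_aleph0_iff_set_countable.1 (hc.trans_le (not_lt.1 h))).exists_eq_range
      hT.nonempty
    refine ⟨Subtype.val '' range (partialSups c), by rintro _ ⟨c, -, rfl⟩; exact c.2,
      cf _ fun x => ?_, fun γ h1 _ h3 => ?_⟩
    · obtain ⟨_, ⟨n, rfl⟩, hn⟩ := hT x
      exact ⟨_, ⟨n, rfl⟩, hn.trans (le_partialSups c n)⟩
    · obtain ⟨_, ⟨n, rfl⟩, hn⟩ := hT ⟨γ, h1⟩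
      obtain ⟨β, b1, b2⟩ := fin_bd ((finite_lt_nat n).image fun m => (partialSups c m).1) h3.1
      refine ⟨β, b1, ?_⟩
      rintro _ ⟨_, ⟨m, rfl⟩, rfl⟩ hm
      refine b2 _ ⟨m, show m < n from not_le.1 fun h' => hm.not_ge ?_, rfl⟩ hm
      exact hn.trans ((le_partialSups c n).trans ((partialSups c).monotone h'))

theorem lim_box (hκ : κ.IsRegular) (hb : BoxCompact κ μ) (hU : ∀ ξ, #(U ξ) < κ) {δ : L}
    (hδ : #(Iio δ) ≤ μ) (hcf : κ ≤ Order.cof (Iio δ)) (H : ∀ ξ < δ, Ext S sd U ξ)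
    {η : L} (hη : η < δ) {t : L → Bool} (ht : Gd S sd U η t) :
    ∃ t', (∀ i < η, t' i = t i) ∧ ∀ ξ < δ, Bo S sd U t' ξ := by
  obtain ⟨w, hw⟩ := satL hb hδ (J := L ⊕ L)
    (Sum.elim (fun ξ => {w | ξ < δ → Bo S sd U w ξ}) fun i => {w | i < η → w i = t i})
    (by
      rintro (ξ | i) w hw
      · refine ⟨_, small_dom hκ (hU ξ), fun w' h h' => hw fun a1 a2 a3 =>
          (h' a1 a2 a3).loc fun s hs p hp => ?_⟩
        unfold fl
        rw [h p.1 (mem_biUnion hs ⟨p, hp, rfl⟩)]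
      · exact ⟨{i}, (toFinite _).lt_aleph0.trans_le hκ.aleph0_le, fun w' h h' => hw fun a1 =>
          (h i rfl).symm.trans (h' a1)⟩)
    (by
      intro D hD
      have h1 : ¬ IsCofinal ((fun x : Iio δ => (Sum.inl x.1 : L ⊕ L)) ⁻¹' D) := fun h =>
        (hcf.trans (Order.cof_le h)).not_gt ((mk_preimage_of_injective _ _
          (Sum.inl_injective.comp Subtype.val_injective)).trans_lt hD)
      obtain ⟨β, hβ⟩ := not_isCofinal_iff.1 h1
      have h2 : max β.1 η < δ := max_lt β.2 hη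
      obtain ⟨t', a1, a2⟩ := H _ h2 η (le_max_right _ _) t ht
      refine ⟨t', ?_⟩
      rintro (ξ | i) hj
      · intro h3
        exact (a2 ξ ((le_of_lt (show ξ < β.1 from hβ ⟨ξ, h3⟩ hj)).trans (le_max_left _ _))).congr fun i hi =>
          (tr_lt _ (hi.trans h3)).symm
      · intro h3
        rw [tr_lt _ (h3.trans hη), a1 i h3])
  exact ⟨tr δ w, fun i hi => hw (Sum.inr i) hi, fun ξ hξ => hw (Sum.inl ξ) hξ⟩

variable [WellFoundedLT L]

theorem ext_all (hκ : κ.IsRegular) (hb : ∀ δ : L, BoxCompact κ #(Iio δ))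
    (hU : ∀ ξ, #(U ξ) < κ)
    (hnr : ∀ δ : L, ℵ₀ < Order.cof (Iio δ) → Order.cof (Iio δ) < κ →
      ¬ IsStationary (Subtype.val ⁻¹' S : Set (Iio δ))) (δ : L) : Ext S sd U δ := by
  classical
  induction δ using WellFoundedLT.induction with
  | ind δ H =>
  intro η hη t ht
  rcases hη.eq_or_lt with rfl | hη
  · exact ⟨t, fun _ _ => rfl, ht⟩
  by_cases hδ : Lm δ
  swap
  · have : ∃ ζ < δ, ∀ i < δ, i ≤ ζ := by
      by_contra hn
      push Not at hn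
      exact hδ ⟨⟨η, hη⟩, fun ζ hζ => by
        obtain ⟨i, h1, h2⟩ := hn ζ hζ
        exact ⟨i, h2, h1⟩⟩
    obtain ⟨ζ, h1, h2⟩ := this
    obtain ⟨t', a1, a2⟩ := H ζ h1 η (h2 η hη) t ht
    refine ⟨t', a1, fun ξ hξ => ?_⟩
    rcases hξ.eq_or_lt with rfl | hξ
    · exact fun _ h => absurd h hδ
    · exact a2 ξ (h2 ξ hξ)
  have lim : ∀ η < δ, ∀ t, Gd S sd U η t →
      ∃ t', (∀ i < η, t' i = t i) ∧ ∀ ξ < δ, Bo S sd U t' ξ := by
    intro η hη t ht
    by_cases hcf : κ ≤ Order.cof (Iio δ)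
    · exact lim_box hκ (hb δ) hU le_rfl hcf H hη ht
    · obtain ⟨C, c1, c2, c3⟩ := exists_ladder hδ fun h => hnr δ h (not_le.1 hcf)
      exact lim_along H c1 c2 c3 hη ht
  have fin : ∀ t', (∀ ξ < δ, Bo S sd U t' ξ) → Pr (U δ) δ (fl (sd δ) t') → Gd S sd U δ t' := by
    intro t' h1 h2 ξ hξ
    rcases hξ.eq_or_lt with rfl | hξ
    · exact fun _ _ => h2
    · exact h1 ξ hξ
  by_cases hs : ∃ s ∈ U δ, Sat (tr η (fl (sd δ) t)) s
  · obtain ⟨s, s1, s2⟩ := hs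
    obtain ⟨β, b1, b2⟩ := fin_bd (s.image Prod.fst).finite_toSet hδ.1
    obtain ⟨ζ, z1, z2⟩ := hδ.2 _ (max_lt b1 hη)
    have z3 : η < ζ := (le_max_right _ _).trans_lt z1
    obtain ⟨t₁, a1, a2, a3⟩ := ext_free (fun ξ hξ => H ξ (hξ.trans_lt z2)) (sd δ)
      (s.image Prod.fst) η z3.le t ht
    obtain ⟨t', a4, a5⟩ := lim ζ z2 t₁ a3
    refine ⟨t', fun i hi => (a4 i (hi.trans z3)).trans (a1 i hi), fin t' a5 fun _ =>
      ⟨s, s1, fun p hp => ?_⟩⟩
    rw [← s2 p hp]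
    have hp' : p.1 ∈ s.image Prod.fst := Finset.mem_image_of_mem _ hp
    by_cases c1 : p.1 < η
    · rw [tr_lt _ c1, tr_lt _ (c1.trans hη)]
      unfold fl
      rw [a4 _ (c1.trans z3), a1 _ c1]
    · rw [tr_ge _ (not_lt.1 c1)]
      by_cases c2 : p.1 < δ
      · have c3 : p.1 < ζ := ((b2 _ hp' c2).trans (le_max_left _ _)).trans_lt z1
        rw [tr_lt _ c2]
        unfold fl
        rw [a4 _ c3, a2 _ hp' (not_lt.1 c1) c3, Bool.xor_self]
      · exact tr_ge _ (not_lt.1 c2)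
  · obtain ⟨t', a4, a5⟩ := lim η hη t ht
    refine ⟨t', a4, fin t' a5 fun h => absurd ?_ hs⟩
    rw [← tr_congr (y := fl (sd δ) t') (fun i hi => by unfold fl; rw [a4 i hi]) le_rfl]
    exact h η hη

end Pool.Agent.MP_be203f_lc.R

end

section

namespace Pool.Agent.MP_be203f_lc.R

open Cardinal Set

universe u

variable {κ μ : Cardinal.{u}} {L : Type u} [LinearOrder L]

/-- The guessing property. -/
def Gs (κ : Cardinal.{u}) (S : Set L) (sd : L → Bool) (U : L → Set (Finset (L × Bool))) : Prop :=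
  ∀ (i : Bool) (F : L → Set (Finset (L × Bool))), (∀ η, #(F η) < κ) →
    ∃ ξ ∈ S, Lm ξ ∧ sd ξ = i ∧ (∀ s ∈ U ξ, ∀ p ∈ s, p.1 < ξ) ∧ (∀ s ∈ U ξ, ∃ η, s ∈ F η) ∧
      ∀ η < ξ, ∃ ζ, η ≤ ζ ∧ F ζ ⊆ U ξ

/-- Closure points form a club. -/
theorem club_closure [WellFoundedLT L] (hμ : ℵ₀ < μ) (hL : ∀ δ : L, #(Iio δ) < μ)
    (hbd : ∀ a : Set L, #a < μ → ∃ η, ∀ x ∈ a, x < η) (g : L → L) :
    IsClub {ξ | (∃ η, η < ξ) ∧ ∀ η < ξ, g η < ξ} := by
  constructor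
  · intro d hd hne _ a ha
    obtain ⟨x, hx⟩ := hne
    obtain ⟨η, hη⟩ := (hd hx).1
    refine ⟨⟨η, hη.trans_le (ha.1 hx)⟩, fun ζ hζ => ?_⟩
    obtain ⟨y, h1, h2⟩ := (lt_isLUB_iff ha).1 hζ
    exact ((hd h1).2 ζ h2).trans_le (ha.1 h1)
  · intro x
    have h1 : ∀ y : L, ∃ z, y < z ∧ ∀ η < y, g η < z := fun y => by
      obtain ⟨z, hz⟩ := hbd (insert y (g '' Iio y)) (mk_insert_le.trans_lt
        (add_lt_of_lt hμ.le (mk_image_le.trans_lt (hL y)) (one_lt_aleph0.trans hμ)))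
      exact ⟨z, hz y (mem_insert _ _), fun η h => hz _ (mem_insert_of_mem _ ⟨η, h, rfl⟩)⟩
    choose G hG using h1
    obtain ⟨z, hz⟩ := hbd (range fun n : ℕ => G^[n] x)
      ((le_aleph0_iff_set_countable.2 (countable_range _)).trans_lt hμ)
    obtain ⟨m, hm, hmin⟩ := wellFounded_lt.has_min {z | ∀ n : ℕ, G^[n] x < z}
      ⟨z, fun n => hz _ ⟨n, rfl⟩⟩
    refine ⟨m, ⟨⟨x, hm 0⟩, fun η hη => ?_⟩, (hm 0).le⟩
    obtain ⟨n, hn⟩ : ∃ n : ℕ, η ≤ G^[n] x := by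
      by_contra h
      push Not at h
      exact hmin η h hη
    have := hm (n + 2)
    rw [Function.iterate_succ_apply', Function.iterate_succ_apply'] at this
    exact ((hG _).2 η (hn.trans_lt (hG _).1)).trans this

theorem exists_surj {α β : Type u} [Nonempty β] (h : #β ≤ #α) :
    ∃ f : α → β, Function.Surjective f := by
  obtain ⟨e⟩ := (Cardinal.le_def _ _).1 h
  exact ⟨Function.invFun e, Function.invFun_surjective e.injective⟩

theorem exists_gs [WellFoundedLT L] (hκ : κ.IsRegular) (hκμ : κ ≤ μ) (hpow : ∀ θ < κ, μ ^ θ ≤ μ)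
    (hcard : #L = 2 ^ μ) (hL : ∀ δ : L, #(Iio δ) ≤ μ)
    (hbd : ∀ a : Set L, #a ≤ μ → ∃ η, ∀ x ∈ a, x < η) {S : Set L} (hS : IsStationary S)
    (hcof : ∀ x ∈ S, Order.cof (Iio x) < κ) :
    ∃ sd U, (∀ ξ, #(U ξ) < κ) ∧ Gs κ S sd U := by
  classical
  have hμ : ℵ₀ ≤ μ := hκ.aleph0_le.trans hκμ
  have hLi : ℵ₀ ≤ #L := hcard ▸ hμ.trans (cantor μ).le
  have : Infinite L := infinite_iff.2 hLi
  have : Nonempty {V : Set (Finset (L × Bool)) // #V < κ} := ⟨⟨∅, by simpa using hκ.pos⟩⟩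
  have h2L : (2 : Cardinal.{u}) ≤ #L := (natCast_lt_aleph0 (n := 2)).le.trans hLi
  have hc : #(Finset (L × Bool)) = #L := by simpa using mul_eq_left hLi h2L two_ne_zero
  obtain ⟨H, hH⟩ := exists_surj (α := L)
    (β := μ.out → Bool × {V : Set (Finset (L × Bool)) // #V < κ}) (by
      have h1 : #{V : Set (Finset (L × Bool)) // #V < κ} ≤ 2 ^ μ := by
        have h0 : #{V : Set (Finset (L × Bool)) // #V < κ} ≤
            #{V : Set (Finset (L × Bool)) // #V ≤ μ} :=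
          mk_subtype_mono fun V h => h.le.trans hκμ
        refine h0.trans ((mk_bounded_set_le_of_infinite _ μ).trans ?_)
        rw [hc, hcard, ← power_mul, mul_eq_self hμ]
      have h2 : #(Bool × {V : Set (Finset (L × Bool)) // #V < κ}) ≤ 2 ^ μ := by
        rw [mk_prod, lift_uzero, ← hcard]
        refine (mul_le_mul' (b := #L) ?_ ?_).trans (mul_eq_self hLi).le
        · simpa using h2L
        · rw [hcard]; simpa using h1
      rw [mk_pi, prod_const', mk_out, hcard]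
      refine (power_le_power_right h2).trans ?_
      rw [← power_mul, mul_eq_self hμ])
  have h3 : ∀ ξ : L, ∃ e : μ.out → Set L, (∀ j, #(e j) < κ) ∧ (ξ ∈ S → ∀ b ⊆ Iio ξ,
      #b ≤ Order.cof (Iio ξ) → ∃ j, e j = b) := fun ξ => by
    by_cases hξ : ξ ∈ S
    · have : Nonempty {b : Set L // b ⊆ Iio ξ ∧ #b ≤ Order.cof (Iio ξ)} := ⟨⟨∅, by simp⟩⟩
      obtain ⟨e, he⟩ := exists_surj (α := μ.out)
        (β := {b : Set L // b ⊆ Iio ξ ∧ #b ≤ Order.cof (Iio ξ)}) (by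
          rw [mk_out]
          exact (mk_bounded_subset_le _ _).trans ((power_le_power_right (max_le (hL ξ) hμ)).trans
            (hpow _ (hcof ξ hξ))))
      refine ⟨fun j => (e j).1, fun j => (e j).2.2.trans_lt (hcof ξ hξ), fun _ b h1 h2 => ?_⟩
      obtain ⟨j, hj⟩ := he ⟨b, h1, h2⟩
      exact ⟨j, congrArg Subtype.val hj⟩
    · exact ⟨fun _ => ∅, fun _ => by simpa using hκ.pos, fun h => absurd h hξ⟩
  choose e he using h3
  by_contra hne
  have h4 : ∀ j : μ.out, ¬ Gs κ S (fun ξ => decide (∃ β ∈ e ξ j, (H β j).1 = true))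
      fun ξ => ⋃ β ∈ e ξ j, (H β j).2.1 := fun j h => hne ⟨_, _, fun ξ =>
    (card_biUnion_lt_iff_forall_of_isRegular hκ ((he ξ).1 j)).2 fun β _ => (H β j).2.2, h⟩
  unfold Gs at h4
  simp only [not_forall] at h4
  choose i F hF hno using h4
  choose β hβ using fun η => hH fun j => (i j, ⟨F j η, hF j η⟩)
  have h5 : ∀ η : L, ∃ z, η < z ∧ β η < z ∧ ∀ j, ∀ s ∈ F j η, ∀ p ∈ s, p.1 < z := fun η => by
    obtain ⟨z, hz⟩ := hbd (insert η (insert (β η)
      (⋃ j, ⋃ s ∈ F j η, Prod.fst '' (s : Set (L × Bool))))) (by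
        refine mk_insert_le.trans (add_le_of_le hμ (mk_insert_le.trans (add_le_of_le hμ ?_
          (one_le_aleph0.trans hμ))) (one_le_aleph0.trans hμ))
        refine mk_iUnion_le_sum_mk.trans ((sum_le_sum _ (fun _ => μ) fun j =>
          (small_dom hκ (hF j η)).le.trans hκμ).trans ?_)
        rw [sum_const', mk_out, mul_eq_self hμ])
    exact ⟨z, hz _ (by simp), hz _ (by simp), fun j s hs p hp => hz _ (Or.inr (Or.inr
      (mem_iUnion.2 ⟨j, mem_biUnion hs ⟨p, hp, rfl⟩⟩)))⟩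
  choose g hg using h5
  obtain ⟨ξ, hξ, h6, h7⟩ := hS (club_closure (hμ.trans_lt (Order.lt_succ μ))
    (fun δ => Order.lt_succ_iff.2 (hL δ)) (fun a ha => hbd a (Order.lt_succ_iff.1 ha)) g)
  obtain ⟨T, hT, hTc⟩ := Order.exists_cof_eq (Iio ξ)
  obtain ⟨j, hj⟩ := (he ξ).2 hξ ((fun x : Iio ξ => β x.1) '' T) (by
    rintro _ ⟨x, -, rfl⟩
    exact (hg x.1).2.1.trans (h7 _ x.2)) (mk_image_le.trans hTc.le)
  refine hno j ⟨ξ, hξ, ⟨h6, fun η hη => ⟨g η, (hg η).1, h7 η hη⟩⟩, ?_, ?_, ?_, ?_⟩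
  · obtain ⟨η, hη⟩ := h6
    obtain ⟨x, hx, -⟩ := hT ⟨η, hη⟩
    rw [hj]
    cases hi : i j
    · rw [decide_eq_false_iff_not]
      rintro ⟨_, ⟨y, -, rfl⟩, h⟩
      rw [hβ] at h
      exact absurd (hi.symm.trans h) (by simp)
    · rw [decide_eq_true_iff]
      exact ⟨_, ⟨x, hx, rfl⟩, by rw [hβ]; exact hi⟩
  · intro s hs p hp
    rw [hj] at hs
    obtain ⟨_, ⟨x, -, rfl⟩, h⟩ := mem_iUnion₂.1 hs
    rw [hβ] at h
    exact ((hg x.1).2.2 j s h p hp).trans (h7 _ x.2)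
  · intro s hs
    rw [hj] at hs
    obtain ⟨_, ⟨x, -, rfl⟩, h⟩ := mem_iUnion₂.1 hs
    rw [hβ] at h
    exact ⟨_, h⟩
  · intro η hη
    obtain ⟨x, hx, h⟩ := hT ⟨η, hη⟩
    refine ⟨x.1, h, fun s hs => ?_⟩
    rw [hj]
    exact mem_iUnion₂.2 ⟨β x.1, ⟨x, hx, rfl⟩, by rw [hβ]; exact hs⟩

end Pool.Agent.MP_be203f_lc.R

end

section

namespace Pool.Agent.MP_be203f_lc.R

open Cardinal Set

universe u

variable {κ μ : Cardinal.{u}} {L : Type u} [LinearOrder L]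

theorem card_fam (hκ : κ.IsRegular) (hκμ : κ < μ) (hpow : ∀ ν < μ, ∀ θ < κ, ν ^ θ < μ)
    (hμL : #L = μ) (hL : ∀ δ : L, #(Iio δ) < μ)
    (hbd : ∀ a : Set L, #a < μ → ∃ η, ∀ x ∈ a, x < η) :
    #{V : Set (Finset (L × Bool)) // #V < κ} ≤ #L := by
  classical
  have hμ : ℵ₀ < μ := hκ.aleph0_le.trans_lt hκμ
  let Cd : L → Set (Finset (L × Bool)) := fun η => {s | ∀ p ∈ s, p.1 < η}
  have h1 : ∀ η, #(Cd η) < μ := fun η => by
    have a1 : Cd η ⊆ range (Finset.image fun p : Iio η × Bool => (p.1.1, p.2)) := by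
      intro s hs
      refine ⟨s.attach.image fun p => (⟨p.1.1, hs p.1 p.2⟩, p.1.2), ?_⟩
      rw [Finset.image_image]
      exact Finset.attach_image_val
    refine (mk_le_mk_of_subset a1).trans_lt (mk_range_le.trans_lt ?_)
    have a2 : #(Iio η × Bool) < μ := by
      rw [mk_prod, lift_uzero]
      refine mul_lt_of_lt hμ.le (hL η) ?_
      simpa using (natCast_lt_aleph0 (n := 2)).trans hμ
    rcases finite_or_infinite (Iio η × Bool) with h | h
    · exact (lt_aleph0_of_finite _).trans hμ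
    · rwa [mk_finset_of_infinite]
  have h2 : {V : Set (Finset (L × Bool)) | #V < κ} ⊆
      ⋃ x : L × κ.ord.ToType, {V | V ⊆ Cd x.1 ∧ #V ≤ #(Iio x.2)} := by
    intro V hV
    obtain ⟨η, hη⟩ := hbd _ ((small_dom hκ hV).trans hκμ)
    obtain ⟨e⟩ : Nonempty (V ↪ κ.ord.ToType) := by
      rw [← Cardinal.le_def, mk_ord_toType]; exact le_of_lt hV
    obtain ⟨a, ha⟩ := not_isCofinal_iff.1 fun h : IsCofinal (range e) => by
      have := (Order.cof_le h).trans mk_range_le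
      rw [Ordinal.cof_toType, hκ.cof_ord] at this
      exact this.not_gt hV
    refine mem_iUnion.2 ⟨(η, a), fun s hs p hp => hη _ (mem_biUnion hs ⟨p, hp, rfl⟩), ?_⟩
    rw [← mk_range_eq e e.injective]
    exact mk_le_mk_of_subset fun x hx => ha x hx
  refine (mk_le_mk_of_subset h2).trans (mk_iUnion_le_sum_mk.trans ((sum_le_sum _ (fun _ => μ)
    fun x => (mk_bounded_subset_le _ _).trans
      (hpow _ (max_lt (h1 _) hμ) _ (mk_Iio_toType_ord_lt _)).le).trans ?_))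
  rw [sum_const', mk_prod, lift_id, lift_id, mk_ord_toType, hμL]
  exact (mul_le_mul' ((mul_le_mul' le_rfl hκμ.le).trans (mul_eq_self hμ.le).le) le_rfl).trans
    (mul_eq_self hμ.le).le

theorem exists_gs_club [WellFoundedLT L] (hκ : κ.IsRegular) (hκμ : κ < μ)
    (hpow : ∀ ν < μ, ∀ θ < κ, ν ^ θ < μ) (hμL : #L = μ) (hL : ∀ δ : L, #(Iio δ) < μ)
    (hbd : ∀ a : Set L, #a < μ → ∃ η, ∀ x ∈ a, x < η) {S : Set L} (hS : Clubsuit S)
    (hcof : ∀ x ∈ S, Order.cof (Iio x) < κ) :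
    ∃ sd U, (∀ ξ, #(U ξ) < κ) ∧ Gs κ S sd U := by
  classical
  have hμ : ℵ₀ < μ := hκ.aleph0_le.trans_lt hκμ
  have hLi : ℵ₀ ≤ #L := hμL ▸ hμ.le
  have : Infinite L := infinite_iff.2 hLi
  have : Nonempty {V : Set (Finset (L × Bool)) // #V < κ} := ⟨⟨∅, by simpa using hκ.pos⟩⟩
  obtain ⟨H, hH⟩ := exists_surj (α := L)
    (β := Bool × {V : Set (Finset (L × Bool)) // #V < κ} × L) (by
      rw [mk_prod, lift_uzero, mk_prod, lift_id, lift_id]
      refine (mul_le_mul' (b := #L) ?_ ((mul_le_mul' (card_fam hκ hκμ hpow hμL hL hbd)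
        le_rfl).trans (mul_eq_self hLi).le)).trans (mul_eq_self hLi).le
      simpa using (natCast_lt_aleph0 (n := 2)).le.trans hLi)
  obtain ⟨c, hc, hA⟩ := hS
  have h3 : ∀ ξ : L, ∃ e : Set L, #e < κ ∧ (ξ ∈ S → e ⊆ c ξ ∧ ∀ y < ξ, ∃ z ∈ e, y < z) :=
    fun ξ => by
    by_cases hξ : ξ ∈ S
    · obtain ⟨T, hT, hTc⟩ := Order.exists_cof_eq (Iio ξ)
      choose z hz using fun x : Iio ξ => (hc ξ hξ).2 x.1 x.2
      refine ⟨z '' T, (mk_image_le.trans hTc.le).trans_lt (hcof ξ hξ), fun _ => ⟨?_, ?_⟩⟩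
      · rintro _ ⟨x, -, rfl⟩
        exact (hz x).1
      · intro y hy
        obtain ⟨x, h1, h2⟩ := hT ⟨y, hy⟩
        exact ⟨_, ⟨x, h1, rfl⟩, lt_of_le_of_lt h2 (hz x).2⟩
    · exact ⟨∅, by simpa using hκ.pos, fun h => absurd h hξ⟩
  choose e he using h3
  refine ⟨fun ξ => decide (∃ β ∈ e ξ, (H β).1 = true), fun ξ => ⋃ β ∈ e ξ, (H β).2.1.1, fun ξ =>
    (card_biUnion_lt_iff_forall_of_isRegular hκ (he ξ).1).2 fun β _ => (H β).2.1.2,
    fun i F hF => ?_⟩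
  choose β hβ using fun η => hH (i, ⟨F η, hF η⟩, η)
  have hinj : Function.Injective β := fun a b h => by
    have := congrArg (fun x => (H x).2.2) h
    simpa only [hβ] using this
  have h4 : IsCofinal (range β) := fun x => by
    by_contra h
    push Not at h
    have := (mk_le_mk_of_subset (show range β ⊆ Iio x from h)).trans_lt (hL x)
    rw [mk_range_eq β hinj, hμL] at this
    exact this.false
  have h5 : ∀ η : L, ∃ z, η < z ∧ (∀ ζ < η, β ζ < z) ∧ ∀ s ∈ (H η).2.1.1, ∀ p ∈ s, p.1 < z :=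
    fun η => by
    obtain ⟨z, hz⟩ := hbd (insert η (β '' Iio η ∪
      ⋃ s ∈ (H η).2.1.1, Prod.fst '' (s : Set (L × Bool)))) (mk_insert_le.trans_lt
        (add_lt_of_lt hμ.le ((mk_union_le _ _).trans_lt (add_lt_of_lt hμ.le
          (mk_image_le.trans_lt (hL η)) ((small_dom hκ (H η).2.1.2).trans hκμ)))
          (one_lt_aleph0.trans hμ)))
    exact ⟨z, hz _ (Or.inl rfl), fun ζ h => hz _ (Or.inr (Or.inl ⟨ζ, h, rfl⟩)),
      fun s hs p hp => hz _ (Or.inr (Or.inr (mem_biUnion hs ⟨p, hp, rfl⟩)))⟩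
  choose g hg using h5
  obtain ⟨ξ, ⟨hξ, h8⟩, h6, h7⟩ := hA _ h4 (club_closure hμ hL hbd g)
  obtain ⟨e1, e2⟩ := (he ξ).2 hξ
  refine ⟨ξ, hξ, ⟨h6, fun η hη => ⟨g η, (hg η).1, h7 η hη⟩⟩, ?_, ?_, ?_, ?_⟩
  · cases i
    · rw [decide_eq_false_iff_not]
      rintro ⟨x, hx, h⟩
      obtain ⟨y, rfl⟩ := h8 (e1 hx)
      rw [hβ] at h
      exact absurd h (by simp)
    · rw [decide_eq_true_iff]
      obtain ⟨η, hη⟩ := h6
      obtain ⟨x, hx, -⟩ := e2 η hη
      obtain ⟨y, rfl⟩ := h8 (e1 hx)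
      exact ⟨_, hx, by rw [hβ]⟩
  · intro s hs p hp
    obtain ⟨x, hx, h⟩ := mem_iUnion₂.1 hs
    exact ((hg x).2.2 s h p hp).trans (h7 _ ((hc ξ hξ).1 (e1 hx)))
  · intro s hs
    obtain ⟨x, hx, h⟩ := mem_iUnion₂.1 hs
    obtain ⟨y, rfl⟩ := h8 (e1 hx)
    rw [hβ] at h
    exact ⟨_, h⟩
  · intro η hη
    obtain ⟨x, hx, h⟩ := e2 _ (h7 η hη)
    obtain ⟨y, rfl⟩ := h8 (e1 hx)
    refine ⟨y, not_lt.1 fun h' => h.not_gt ((hg η).2.1 y h'), fun s hs => ?_⟩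
    exact mem_iUnion₂.2 ⟨β y, hx, by rw [hβ]; exact hs⟩

end Pool.Agent.MP_be203f_lc.R

end

section

namespace Pool.Agent.MP_be203f_lc.R

open Cardinal Set

universe u

variable {κ μ : Cardinal.{u}} {L : Type u} [LinearOrder L]

/-- The points that keep the promises of one side. -/
def Yi (S : Set L) (sd : L → Bool) (U : L → Set (Finset (L × Bool))) (i : Bool)
    (y : L → Bool) : Prop := ∀ ξ ∈ S, Lm ξ → sd ξ = i → Pr (U ξ) ξ y

variable {S : Set L} {sd : L → Bool} {U : L → Set (Finset (L × Bool))}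

theorem Yi.tr {i : Bool} {y : L → Bool} (h : Yi S sd U i y) (η : L) : Yi S sd U i (tr η y) := by
  intro ξ h1 h2 h3
  by_cases hξ : ξ ≤ η
  · exact (h ξ h1 h2 h3).congr fun a ha => (tr_lt _ (ha.trans_le hξ)).symm
  · exact pr_tr _ (not_le.1 hξ)

theorem Gd.yi {η : L} {t : L → Bool} (h : Gd S sd U η t) (i : Bool) :
    Yi S sd U i (tr η (fl i t)) := by
  rintro ξ h1 h2 rfl
  by_cases hξ : ξ ≤ η
  · exact (h ξ hξ h1 h2).congr fun a ha => (tr_lt _ (ha.trans_le hξ)).symm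
  · exact pr_tr _ (not_le.1 hξ)

/-- Use of the guessing. -/
theorem Gs.use (hG : Gs κ S sd U) (i : Bool) (F : L → Set (Finset (L × Bool)))
    (hF : ∀ η, #(F η) < κ) : ∃ ξ, (∀ s ∈ U ξ, ∃ η, s ∈ F η) ∧ ∀ y, Yi S sd U i y →
      (∀ η ζ, η ≤ ζ → ∃ s ∈ F ζ, Sat (tr η y) s) → ∃ s ∈ U ξ, Sat y s := by
  obtain ⟨ξ, h1, h2, h3, h4, h5, h6⟩ := hG i F hF
  refine ⟨ξ, h5, fun y hy H => ?_⟩
  obtain ⟨s, hs, h⟩ := hy ξ h1 h2 h3 fun η hη => by
    obtain ⟨ζ, a1, a2⟩ := h6 η hη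
    obtain ⟨s, b1, b2⟩ := H η ζ a1
    exact ⟨s, a2 b1, b2⟩
  exact ⟨s, hs, fun p hp => (tr_lt y (h4 s hs p hp)).symm.trans (h p hp)⟩

theorem Yi.zero (hκ : κ.IsRegular) (hG : Gs κ S sd U) {i : Bool} {y : L → Bool}
    (h : Yi S sd U i y) : ∃ η, ∀ γ, η ≤ γ → y γ = false := by
  by_contra hn
  push Not at hn
  choose γ h1 h2 using hn
  obtain ⟨ξ, a1, a2⟩ := hG.use i (fun η => {{(γ η, false)}})
    fun η => (toFinite _).lt_aleph0.trans_le hκ.aleph0_le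
  obtain ⟨s, b1, b2⟩ := a2 y h fun η ζ hη => ⟨_, rfl, fun p hp => by
    rw [Finset.mem_singleton.1 hp]
    exact tr_ge _ (hη.trans (h1 ζ))⟩
  obtain ⟨η, rfl⟩ := a1 s b1
  exact h2 η (b2 _ (Finset.mem_singleton_self _))

theorem cover_small (hκ : κ.IsRegular) (hb : ∀ δ : L, BoxCompact κ #(Iio δ))
    (hU : ∀ ξ, #(U ξ) < κ) (hG : Gs κ S sd U) (i : Bool) (R : Finset (L × Bool) → Prop)
    (hR : ∀ y, Yi S sd U i y → ∃ s, R s ∧ Sat y s) :
    ∃ V : Set (Finset (L × Bool)), #V < κ ∧ (∀ s ∈ V, R s) ∧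
      ∀ y, Yi S sd U i y → ∃ s ∈ V, Sat y s := by
  have h1 : ∀ η : L, ∃ V : Set (Finset (L × Bool)), #V < κ ∧ (∀ s ∈ V, R s) ∧
      ∀ y, Yi S sd U i y → ∃ s ∈ V, Sat (tr η y) s := fun η => by
    by_contra hn
    obtain ⟨w, hw⟩ := satL (hb η) le_rfl (J := L ⊕ Finset (L × Bool))
      (Sum.elim (fun ξ => {w | ξ ∈ S → Lm ξ → sd ξ = i → Pr (U ξ) ξ w})
        fun s => {w | R s → ¬ Sat w s})
      (by
        rintro (ξ | s) w hw
        · exact ⟨_, small_dom hκ (hU ξ), fun w' h h' => hw fun a1 a2 a3 =>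
            (h' a1 a2 a3).loc fun s hs p hp => h p.1 (mem_biUnion hs ⟨p, hp, rfl⟩)⟩
        · exact ⟨_, (s.finite_toSet.image Prod.fst).lt_aleph0.trans_le hκ.aleph0_le,
            fun w' h h' => hw fun a1 a2 => h' a1 fun p hp =>
              (h p.1 ⟨p, hp, rfl⟩).trans (a2 p hp)⟩)
      (by
        intro D hD
        by_contra hn'
        refine hn ⟨Sum.inr ⁻¹' D ∩ {s | R s}, (mk_le_mk_of_subset inter_subset_left).trans_lt
          ((mk_preimage_of_injective _ _ Sum.inr_injective).trans_lt hD), fun s hs => hs.2,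
          fun y hy => ?_⟩
        by_contra hn''
        refine hn' ⟨y, ?_⟩
        rintro (ξ | s) hj
        · exact hy.tr η ξ
        · exact fun a1 a2 => hn'' ⟨s, ⟨hj, a1⟩, a2⟩)
    obtain ⟨s, a1, a2⟩ := hR (tr η w) fun ξ => hw (Sum.inl ξ)
    exact hw (Sum.inr s) a1 a2
  choose F hF using h1
  obtain ⟨ξ, a1, a2⟩ := hG.use i F fun η => (hF η).1
  refine ⟨U ξ, hU ξ, fun s hs => ?_, fun y hy => a2 y hy fun η ζ h => ?_⟩
  · obtain ⟨η, h⟩ := a1 s hs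
    exact (hF η).2.1 s h
  · have := (hF ζ).2.2 _ (hy.tr η)
    rwa [tr_tr y h] at this

variable (S sd U) in
/-- The space. -/
abbrev Sp : Type u := {x : Bool × (L → Bool) // Yi S sd U x.1 x.2}

/-- Basic open sets. -/
def cyl (j : Bool × Finset (L × Bool)) : Set (Sp S sd U) := {x | x.1.1 = j.1 ∧ Sat x.1.2 j.2}

theorem isOpen_cyl (j : Bool × Finset (L × Bool)) : IsOpen (cyl j : Set (Sp S sd U)) := by
  refine IsOpen.inter (s := {x : Sp S sd U | x.1.1 = j.1})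
    (t := {x : Sp S sd U | Sat x.1.2 j.2}) ?_ ?_
  · exact (isOpen_discrete {j.1}).preimage (f := fun x : Sp S sd U => x.1.1) (by fun_prop)
  · have : {x : Sp S sd U | Sat x.1.2 j.2} = ⋂ p ∈ j.2, {x : Sp S sd U | x.1.2 p.1 = p.2} := by
      ext x; simp [Sat]
    rw [this]
    exact isOpen_biInter_finset fun p _ =>
      (isOpen_discrete {p.2}).preimage (f := fun x : Sp S sd U => x.1.2 p.1) (by fun_prop)

theorem exists_cyl {W : Set (Sp S sd U)} (hW : IsOpen W) {x : Sp S sd U} (hx : x ∈ W) :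
    ∃ s, Sat x.1.2 s ∧ cyl (x.1.1, s) ⊆ W := by
  classical
  obtain ⟨W', h1, rfl⟩ := isOpen_induced_iff.1 hW
  obtain ⟨A, B, -, hB, a1, a2, a3⟩ := isOpen_prod_iff.1 h1 x.1.1 x.1.2 hx
  obtain ⟨I, v, b1, b2⟩ := isOpen_pi_iff.1 hB _ a2
  refine ⟨I.image fun a => (a, x.1.2 a), fun p hp => ?_, fun z hz => a3 ⟨?_, b2 fun a ha => ?_⟩⟩
  · obtain ⟨a, -, rfl⟩ := Finset.mem_image.1 hp
    rfl
  · exact hz.1 ▸ a1
  · rw [hz.2 _ (Finset.mem_image_of_mem _ ha)]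
    exact (b1 a ha).2

theorem basis_cyl : TopologicalSpace.IsTopologicalBasis (range (cyl (S := S) (sd := sd) (U := U))) :=
  TopologicalSpace.isTopologicalBasis_of_isOpen_of_nhds (by rintro _ ⟨j, rfl⟩; exact isOpen_cyl j)
    fun x W hx hW => by
      obtain ⟨s, h1, h2⟩ := exists_cyl hW hx
      exact ⟨_, ⟨_, rfl⟩, ⟨rfl, h1⟩, h2⟩

theorem kcompact_sp (hκ : κ.IsRegular) (hb : ∀ δ : L, BoxCompact κ #(Iio δ))
    (hU : ∀ ξ, #(U ξ) < κ) (hG : Gs κ S sd U) : KCompact κ (Sp S sd U) := by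
  intro C hC hcov
  have h1 := fun i => cover_small hκ hb hU hG i (fun s => ∃ W ∈ C, cyl (i, s) ⊆ W)
    fun y hy => by
      obtain ⟨W, a1, a2⟩ : (⟨(i, y), hy⟩ : Sp S sd U) ∈ ⋃₀ C := hcov ▸ mem_univ _
      obtain ⟨s, b1, b2⟩ := exists_cyl (hC W a1) a2
      exact ⟨s, ⟨W, a1, b2⟩, b1⟩
  choose V hV using h1
  choose W hW using fun i (s : V i) => (hV i).2.1 s.1 s.2
  refine ⟨range (W false) ∪ range (W true), ?_, (mk_union_le _ _).trans_lt
    (add_lt_of_lt hκ.aleph0_le (mk_range_le.trans_lt (hV _).1) (mk_range_le.trans_lt (hV _).1)),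
    eq_univ_of_forall ?_⟩
  · rintro _ (⟨s, rfl⟩ | ⟨s, rfl⟩) <;> exact (hW _ s).1
  · rintro ⟨⟨i, y⟩, hy⟩
    obtain ⟨s, a1, a2⟩ := (hV i).2.2 y hy
    refine ⟨W i ⟨s, a1⟩, ?_, (hW i ⟨s, a1⟩).2 ⟨rfl, a2⟩⟩
    cases i
    · exact Or.inl ⟨_, rfl⟩
    · exact Or.inr ⟨_, rfl⟩

theorem not_kcompact_sq [WellFoundedLT L] (hκ : κ.IsRegular) (hG : Gs κ S sd U)
    (hbd : ∀ a : Set L, #a < κ → ∃ η, ∀ x ∈ a, x < η) (hE : ∀ δ, Ext S sd U δ) :
    ¬ KCompact κ (Sp S sd U × Sp S sd U) := by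
  intro h
  let W : L → Set (Sp S sd U × Sp S sd U) := fun γ =>
    {z | z.1.1.1 = true ∨ z.2.1.1 = false ∨ z.1.1.2 γ = z.2.1.2 γ}
  obtain ⟨D, h1, h2, h3⟩ := h (range W) (by
      rintro _ ⟨γ, rfl⟩
      exact (isOpen_discrete {q : (Bool × Bool) × Bool × Bool |
        q.1.1 = true ∨ q.1.2 = false ∨ q.2.1 = q.2.2}).preimage
        (f := fun z : Sp S sd U × Sp S sd U => ((z.1.1.1, z.2.1.1), z.1.1.2 γ, z.2.1.2 γ))
        (by fun_prop))
    (eq_univ_of_forall fun z => by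
      obtain ⟨η, a1⟩ := z.1.2.zero hκ hG
      obtain ⟨ζ, a2⟩ := z.2.2.zero hκ hG
      exact ⟨_, ⟨max η ζ, rfl⟩, Or.inr (Or.inr
        ((a1 _ (le_max_left _ _)).trans (a2 _ (le_max_right _ _)).symm))⟩)
  choose γ hγ using fun V : D => h1 V.2
  obtain ⟨η, hη⟩ := hbd (range γ) (mk_range_le.trans_lt h2)
  obtain ⟨m, -, hm⟩ := wellFounded_lt.has_min (Set.univ : Set L) ⟨η, trivial⟩
  obtain ⟨t, -, ht⟩ := hE η m (not_lt.1 (hm η trivial)) (fun _ => false) fun ξ hξ _ hl => by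
    obtain ⟨a, ha⟩ := hl.1
    exact absurd (ha.trans_le hξ) (hm a trivial)
  obtain ⟨V, a1, a2⟩ : ((⟨(false, _), ht.yi false⟩, ⟨(true, _), ht.yi true⟩) :
    Sp S sd U × Sp S sd U) ∈ ⋃₀ D := h3 ▸ mem_univ _
  have a3 := hη _ ⟨⟨V, a1⟩, rfl⟩
  rw [show V = W (γ ⟨V, a1⟩) from (hγ ⟨V, a1⟩).symm] at a2
  have a4 : false = true ∨ true = false ∨
    tr η (fl false t) (γ ⟨V, a1⟩) = tr η (fl true t) (γ ⟨V, a1⟩) := a2
  rw [tr_lt _ a3, tr_lt _ a3] at a4
  simp [fl] at a4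

theorem main {l : Cardinal.{u}} (hκ : κ.IsRegular) (hl : l.IsRegular) (hκl : κ < l)
    (hpow : ∀ μ < l, ∀ θ < κ, μ ^ θ < l) (hb : ∀ μ < l, BoxCompact κ μ)
    (S : Set l.ord.ToType) (hS : Clubsuit S) (hcof : ∀ x ∈ S, Order.cof (Iio x) < κ)
    (hnr : ∀ δ, ℵ₀ < Order.cof (Iio δ) → Order.cof (Iio δ) < κ →
      ¬ IsStationary (Subtype.val ⁻¹' S : Set (Iio δ))) :
    (∀ μ < l, SqCompact κ μ) ∧ ¬ SqCompact κ l := by
  have h0 : ℵ₀ < l := hκ.aleph0_le.trans_lt hκl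
  refine ⟨fun μ hμ X _ ⟨B, b1, b2⟩ => sq_of_box hκ.aleph0_le (le_max_right μ ℵ₀)
    (hb _ (max_lt hμ h0)) X ⟨B, b1, b2.trans (le_max_left _ _)⟩, fun h => ?_⟩
  have hL : ∀ δ : l.ord.ToType, #(Iio δ) < l := fun δ => mk_Iio_toType_ord_lt δ
  have hbd : ∀ a : Set l.ord.ToType, #a < l → ∃ η, ∀ x ∈ a, x < η := fun a ha =>
    not_isCofinal_iff.1 fun h => by
      have := (Order.cof_le h).trans_lt ha
      rw [Ordinal.cof_toType, hl.cof_ord] at this
      exact this.false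
  obtain ⟨sd, U, hU, hG⟩ := exists_gs_club hκ hκl hpow (mk_ord_toType l) hL hbd hS hcof
  refine not_kcompact_sq hκ hG (fun a ha => hbd a (ha.trans hκl))
    (ext_all hκ (fun δ => hb _ (hL δ)) hU hnr)
    (h _ ⟨_, basis_cyl, mk_range_le.trans ?_⟩ (kcompact_sp hκ (fun δ => hb _ (hL δ)) hU hG))
  have : Infinite l.ord.ToType := infinite_iff.2 (by rw [mk_ord_toType]; exact h0.le)
  have h2 : (2 : Cardinal.{u}) ≤ l := (natCast_lt_aleph0 (n := 2)).le.trans h0.le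
  have h3 := mul_eq_left h0.le h2 two_ne_zero
  simpa [h3] using (mul_eq_right h0.le h2 two_ne_zero).le

end Pool.Agent.MP_be203f_lc.R

end
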