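import Pool.Agent.Mg.Fbe203f.Gd087ac
import Pool.Agent.MP_be203f_lc.Z.WC

section

namespace Pool.Agent.MP_be203f_lc.Z

open Cardinal Set Filter

/-- The countable index set of the independent family. -/
abbrev JJ : Type := ℕ × Finset (Finset ℕ)

open Classical in
/-- Trace of a set on an initial segment. -/
noncomputable def trc (a : Set ℕ) (n : ℕ) : Finset ℕ := (Finset.range n).filter (· ∈ a)

/-- The independent family. -/
def indS (a : Set ℕ) : Set JJ := {j | trc a j.1 ∈ j.2}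

theorem trc_ev {a b : Set ℕ} (h : a ≠ b) : ∀ᶠ n in atTop, trc a n ≠ trc b n := by
  obtain ⟨k, hk⟩ : ∃ k, ¬ (k ∈ a ↔ k ∈ b) := by
    by_contra hn
    push Not at hn
    exact h (Set.ext fun k => by have := hn k; tauto)
  filter_upwards [eventually_gt_atTop k] with n hn e
  have := congrArg (k ∈ ·) e
  simp only [trc, Finset.mem_filter, Finset.mem_range, hn, true_and, eq_iff_iff] at this
  exact hk this

theorem exists_avoid (F : Set ℕ → Ultrafilter JJ) :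
    ∃ v : Ultrafilter JJ, Tendsto Prod.fst (v : Filter JJ) atTop ∧ ∀ a, v ≠ F a := by
  classical
  let C : Set ℕ → Set JJ := fun a => if indS a ∈ F a then (indS a)ᶜ else indS a
  have : NeBot (comap Prod.fst atTop ⊓ generate (range C)) := by
    rw [Filter.inf_neBot_iff]
    intro S hS S' hS'
    obtain ⟨t, ht, hfin, hsub⟩ := mem_generate_iff.1 hS'
    obtain ⟨s, rfl⟩ : ∃ s : Finset (Set ℕ), t = (s.image C : Set (Set JJ)) := by
      obtain ⟨s, -, hs⟩ := (Finset.subset_set_image_iff (s := Set.univ) (f := C)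
        (t := hfin.toFinset)).1 (by simpa using ht)
      exact ⟨s, by rw [hs, hfin.coe_toFinset]⟩
    obtain ⟨S₀, hS₀, hS₁⟩ := mem_comap.1 hS
    have hev : ∀ᶠ n in atTop, ∀ a ∈ s, ∀ b ∈ s, a ≠ b → trc a n ≠ trc b n := by
      rw [eventually_all_finset]
      intro a _
      rw [eventually_all_finset]
      intro b _
      by_cases h : a = b
      · exact Eventually.of_forall fun n h' => absurd h h'
      · exact (trc_ev h).mono fun n hn _ => hn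
    obtain ⟨n, h₁, h₂⟩ := (hev.and hS₀).exists
    refine ⟨(n, (s.filter fun a => indS a ∉ F a).image fun a => trc a n), hS₁ h₂, hsub ?_⟩
    intro B hB
    obtain ⟨a, ha, rfl⟩ := Finset.mem_image.1 (Finset.mem_coe.1 hB)
    by_cases h : indS a ∈ F a
    · simp only [C, if_pos h]
      intro hm
      obtain ⟨b, hb, e⟩ := Finset.mem_image.1 (show trc a n ∈ Finset.image _ _ from hm)
      rw [Finset.mem_filter] at hb
      by_cases hab : b = a
      · exact hb.2 (hab ▸ h)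
      · exact h₁ b hb.1 a ha hab e
    · simp only [C, if_neg h]
      exact Finset.mem_image.2 ⟨a, Finset.mem_filter.2 ⟨ha, h⟩, rfl⟩
  obtain ⟨v, hv⟩ := Ultrafilter.exists_le (comap Prod.fst atTop ⊓ generate (range C))
  refine ⟨v, tendsto_iff_comap.2 (hv.trans inf_le_left), fun a e => ?_⟩
  have h : C a ∈ F a := e ▸ hv.trans inf_le_right (mem_generate_of_mem ⟨a, rfl⟩)
  by_cases h' : indS a ∈ F a
  · simp only [C, if_pos h'] at h
    exact Ultrafilter.compl_mem_iff_notMem.1 h h'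
  · simp only [C, if_neg h'] at h
    exact h' h

theorem exists_nov' : ∃ G : Bool → Set (Ultrafilter ℕ), (∀ i, ∀ w ∈ G i, (w : Filter ℕ) ≤ cofinite) ∧
    (∀ w ∈ G false, w ∉ G true) ∧ ∀ i (V : Set ℕ), V.Infinite → ∃ w ∈ G i, V ∈ w := by
  classical
  let P : Set (Ultrafilter ℕ) := {w | ∃ f : ℕ → ℕ, w = (hyperfilter ℕ).map f}
  refine ⟨fun i => {w | (w : Filter ℕ) ≤ cofinite ∧ (w ∈ P ↔ i = true)}, fun _ _ h => h.1,
    fun w h h' => by simpa using h.2.1 (h'.2.2 rfl), fun i V hV => ?_⟩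
  let e : ℕ → ℕ := fun n => (hV.natEmbedding V n).1
  have he : Function.Injective e := Subtype.val_injective.comp (hV.natEmbedding V).injective
  have heV : ∀ n, e n ∈ V := fun n => (hV.natEmbedding V n).2
  cases i with
  | true =>
    refine ⟨(hyperfilter ℕ).map e, ⟨?_, iff_of_true ⟨e, rfl⟩ rfl⟩,
      Ultrafilter.mem_map.2 (univ_mem' heV)⟩
    exact (he.tendsto_cofinite.mono_left hyperfilter_le_cofinite)
  | false =>
    obtain ⟨c, hc⟩ := exists_injective_nat JJ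
    obtain ⟨s, hs⟩ : ∃ s : Set ℕ → (ℕ → JJ), Function.Surjective s := by
      have : #(ℕ → JJ) ≤ #(Set ℕ) := by simp
      obtain ⟨f⟩ := this
      exact ⟨_, Function.invFun_surjective f.injective⟩
    obtain ⟨v, hv, hne⟩ := exists_avoid fun a => (hyperfilter ℕ).map (s a)
    have hi : Function.Injective (e ∘ c) := he.comp hc
    refine ⟨v.map (e ∘ c), ⟨?_, iff_of_false ?_ (by simp)⟩,
      Ultrafilter.mem_map.2 (univ_mem' fun j => heV _)⟩
    · refine hi.tendsto_cofinite.mono_left ?_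
      rw [le_cofinite_iff_compl_singleton_mem]
      intro j
      exact mem_of_superset (hv (Ioi_mem_atTop j.1)) fun j' h e => by
        obtain rfl : j' = j := e
        exact lt_irrefl _ (show j'.1 < j'.1 from h)
    · rintro ⟨f, hf⟩
      obtain ⟨a, ha⟩ := hs (Function.invFun (e ∘ c) ∘ f)
      refine hne a ?_
      rw [ha, ← Ultrafilter.map_map, ← hf, Ultrafilter.map_map,
        (Function.leftInverse_invFun hi).comp_eq_id]
      simp

theorem exists_nov : ∃ G, Nov G := by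
  obtain ⟨G, h₁, h₂, h₃⟩ := exists_nov'
  choose w hw hw' using h₃
  refine ⟨fun i => range fun V : {V : Set ℕ // V.Infinite} => w i V.1 V.2, ?_, ?_,
    fun i V hV => ⟨_, ⟨⟨V, hV⟩, rfl⟩, hw' i V hV⟩, fun i => mk_range_le.trans
      ((mk_subtype_le _).trans (by simp))⟩
  · rintro i _ ⟨V, rfl⟩
    exact h₁ i _ (hw i V.1 V.2)
  · rintro _ ⟨V, rfl⟩ ⟨V', h⟩
    exact h₂ _ (hw _ V.1 V.2) ((show w true V'.1 V'.2 = w false V.1 V.2 from h) ▸ hw _ V'.1 V'.2)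

end Pool.Agent.MP_be203f_lc.Z

end

section

namespace Pool.Agent.MP_be203f_lc.Z

open Cardinal Set Filter

universe u

variable {K W : Type u} [LinearOrder K] [LinearOrder W] (σ : Strat K W)

/-- The stage has countable cofinality. -/
def HL (α : W) : Prop := ∃ l : ℕ → W, (∀ n, l n < α) ∧ ∀ β < α, ∃ n, β < l n

open Classical in
/-- A fixed ladder. -/
noncomputable def lad (α : W) : ℕ → W := if h : HL α then h.choose else fun _ => α

theorem lad_spec {α : W} (h : HL α) : (∀ n, lad α n < α) ∧ ∀ β < α, ∃ n, β < lad α n := by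
  rw [lad, dif_pos h]; exact h.choose_spec

/-- The points that leave the ladder at time `n`. -/
def TG (b : W → Bool) (α : W) (n : ℕ) : Set K :=
  {x | x ∉ Es σ b (lad α n) ∧ ∀ m < n, x ∈ Es σ b (lad α m)}

variable {σ} {b b' : W → Bool} {α α' : W}

theorem TG_disj (n m : ℕ) (x : K) (h : x ∈ TG σ b α n) (h' : x ∈ TG σ b α m) : n = m := by
  rcases lt_trichotomy n m with e | e | e
  · exact absurd (h'.2 n e) h.1
  · exact e
  · exact absurd (h.2 m e) h'.1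

theorem TG_congr [WellFoundedLT W] (hl : HL α) (h : ∀ β < α, b β = b' β) :
    TG σ b α = TG σ b' α := by
  funext n
  simp only [TG, fun n => Es_congr (σ := σ) h ((lad_spec hl).1 n)]

variable [RK K]

theorem dead_fol (hl : HL α) {w : Ultrafilter ℕ} (hw : (w : Filter ℕ) ≤ cofinite)
    {q : Ultrafilter K} (hq : ↑q ≤ atTop ⊓ LabF (TG σ b α) w) :
    Fol σ b α q ∧ {x | ∀ β ∈ range (lad α), x ∈ Es σ b β} ∉ q := by
  have hu : ↑q ≤ (atTop : Filter K) := hq.trans inf_le_left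
  have h₁ : {x | ∀ β ∈ range (lad α), x ∈ Es σ b β} ∉ q :=
    Ultrafilter.compl_mem_iff_notMem.1 (hq.trans inf_le_right (mem_LabF.2 (univ_mem'
      fun n x hx h => hx.1 (h _ ⟨n, rfl⟩))))
  refine ⟨⟨hu, fun β hβ => ?_, fun hD => h₁ ?_⟩, h₁⟩
  · obtain ⟨m, hm⟩ := (lad_spec hl).2 β hβ
    refine Es_mem hu hm.le (hq.trans inf_le_right (mem_LabF.2 ?_))
    exact mem_of_superset (hw (finite_Iic m).compl_mem_cofinite)
      fun n hn x hx => hx.2 m (not_le.1 hn)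
  · refine mem_of_superset (inter_mem hD (hu (Ds_sub_small (σ := σ) (b := b) (α := α)
      ((countable_range (lad α)).le_aleph0.trans_lt aleph0_lt) ?_))) fun x hx => hx.2 hx.1
    rintro _ ⟨n, rfl⟩
    exact (lad_spec hl).1 n

variable [OrderBot K]

variable (σ) in
/-- The two spaces of the game. -/
def XG (G : Set (Ultrafilter ℕ)) : Set (Ultrafilter K) :=
  {p | p ∈ XD (rho σ) ∨ ∃ b α, HL α ∧ ∃ w ∈ G, ↑p ≤ atTop ⊓ LabF (TG σ b α) w}

variable [WellFoundedLT W] {G : Bool → Set (Ultrafilter ℕ)}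

theorem XG_inter (hG : Nov G) : XG σ (G false) ∩ XG σ (G true) = XD (rho σ) := by
  refine Subset.antisymm ?_ fun p hp => ⟨Or.inl hp, Or.inl hp⟩
  rintro p ⟨hp | ⟨b, α, hl, w, hw, hp⟩, hp' | ⟨b', α', hl', w', hw', hp'⟩⟩
  · exact hp
  · exact hp
  · exact hp'
  · obtain ⟨rfl, e⟩ := (dead_fol hl (hG.free _ w hw) hp).1.unique
      (dead_fol hl' (hG.free _ w' hw') hp').1
    obtain rfl := lab_unique TG_disj (hp.trans inf_le_right)
      (TG_congr (σ := σ) hl e ▸ hp'.trans inf_le_right)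
    exact absurd hw' (hG.disj _ hw)

variable {i : Bool} {U : Set (Set K)}

omit [WellFoundedLT W] in
theorem XG_unif : ∀ q ∈ XG σ (G i), (∃ x, q = pure x) ∨ ↑q ≤ (atTop : Filter K) := by
  rintro q ((hq | ⟨y, hq⟩) | ⟨b, α, -, w, -, hq⟩)
  · exact Or.inl hq
  · exact Or.inr (drop_fol (b := y.1) (α := y.2) hq).unif
  · exact Or.inr (hq.trans inf_le_left)

omit [WellFoundedLT W] in
theorem sc_sub (cov : ∀ p ∈ XG σ (G i), ∃ A ∈ U, A ∈ p) {S S' C : Set K} (hC : C ∈ atTop)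
    (h : S ∩ C ⊆ S') (h' : SC (XG σ (G i)) U fun q => S' ∈ q) :
    SC (XG σ (G i)) U fun q => S ∈ q :=
  (h'.or (sc_bdd cov (fun x => Or.inl (Or.inl ⟨x, rfl⟩)) XG_unif hC)).mono fun q _ hq =>
    (q.mem_or_compl_mem C).imp_left fun h₁ => mem_of_superset (inter_mem hq h₁) h

theorem split_G [Big K] (hG : Nov G) (cov : ∀ p ∈ XG σ (G i), ∃ A ∈ U, A ∈ p) {a : Set W}
    (ha : #a < #K) (ha' : ∀ β ∈ a, β < α) (cof : ∀ β < α, ∃ γ ∈ a, β < γ)
    (hZ : SC (XG σ (G i)) U fun q => {x | ∀ β ∈ a, x ∈ Es σ b β} ∈ q) {β₀ : W} (h₀ : β₀ < α)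
    (hE : ¬ SC (XG σ (G i)) U fun q => Es σ b β₀ ∈ q) :
    ∃ β, β₀ < β ∧ β < α ∧ ¬ SC (XG σ (G i)) U fun q => Es σ b β₀ \ Es σ b β ∈ q := by
  by_contra hn
  push Not at hn
  have s₁ : #{β | β ∈ a ∧ β₀ < β} < #K := (mk_le_mk_of_subset fun _ h => h.1).trans_lt ha
  have s₂ : #{β | β ∈ a ∧ β ≤ β₀} < #K := (mk_le_mk_of_subset fun _ h => h.1).trans_lt ha
  have c₁ := SC.iUnion s₁ fun β => hn β.1 β.2.2 (ha' _ β.2.1)
  have c₂ : SC (XG σ (G i)) U fun q =>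
      {x | ∀ β ∈ {β | β ∈ a ∧ β₀ < β}, x ∈ Es σ b β} ∩ Es σ b β₀ ∈ q :=
    sc_sub cov (Es_sub_small (σ := σ) (b := b) s₂ fun _ h => h.2) (fun x hx β hβ =>
      (le_or_gt β β₀).elim (fun h => hx.2 hx.1.2 β ⟨hβ, h⟩) fun h => hx.1.1 β ⟨hβ, h⟩) hZ
  have c₃ : SC (XG σ (G i)) U fun q => HL α ∧ ∃ w ∈ G i, ↑q ≤ atTop ⊓ LabF (TG σ b α) w := by
    by_cases hl : HL α
    · exact (sc_lab cov (hG.small i) fun w hw p hp => Or.inr ⟨b, α, hl, w, hw, hp⟩).mono fun q _ h => h.2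
    · exact SC.of_false.mono fun q _ h => hl h.1
  refine hE (((c₁.or c₂).or c₃).mono fun q hq h => ?_)
  by_cases h₁ : ∃ β ∈ a, β₀ < β ∧ Es σ b β ∉ q
  · obtain ⟨β, d₁, d₂, d₃⟩ := h₁
    exact Or.inl (Or.inl ⟨⟨β, d₁, d₂⟩, inter_mem h (Ultrafilter.compl_mem_iff_notMem.2 d₃)⟩)
  push Not at h₁
  by_cases h₂ : {x | ∀ β ∈ {β | β ∈ a ∧ β₀ < β}, x ∈ Es σ b β} ∈ q
  · exact Or.inl (Or.inr (inter_mem h₂ h))
  have hu : ↑q ≤ (atTop : Filter K) := (XG_unif q hq).resolve_left (by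
    rintro ⟨x, rfl⟩
    exact h₂ fun β hβ => h₁ β hβ.1 hβ.2)
  have hf : Fol σ b α q := by
    refine ⟨hu, fun β hβ => ?_, fun hD => h₂ ?_⟩
    · obtain ⟨γ, d₁, d₂⟩ := cof _ (max_lt hβ h₀)
      exact Es_mem hu ((le_max_left _ _).trans d₂.le) (h₁ γ d₁ ((le_max_right _ _).trans_lt d₂))
    · exact mem_of_superset (inter_mem hD (hu (Ds_sub_small (σ := σ) (b := b) s₁
        fun β hβ => ha' β hβ.1))) fun x hx => hx.2 hx.1
  rcases hq with (⟨x, rfl⟩ | ⟨⟨b', α'⟩, hq⟩) | ⟨b', α', hl, w, hw, hq⟩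
  · exact absurd (fun β hβ => h₁ β hβ.1 hβ.2) h₂
  · obtain ⟨rfl, e⟩ := hf.unique (drop_fol hq)
    refine absurd (mem_of_superset (drop_small hq s₁ fun β hβ => ha' β hβ.1) ?_) h₂
    exact fun x hx β hβ => Es_congr (σ := σ) e (ha' β hβ.1) ▸ hx β hβ
  · obtain ⟨rfl, e⟩ := hf.unique (dead_fol hl (hG.free _ w hw) hq).1
    exact Or.inr ⟨hl, w, hw, TG_congr (σ := σ) hl e ▸ hq⟩

omit [WellFoundedLT W] in
theorem die_G (hG : Nov G) (cov : ∀ p ∈ XG σ (G i), ∃ A ∈ U, A ∈ p) {s : ℕ → W}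
    (hs : ∀ n, s n < α) (hs' : ∀ β < α, ∃ n, β < s n) (mono : StrictMono s)
    (h : ∀ n, ¬ SC (XG σ (G i)) U fun q => Es σ b (s n) \ Es σ b (s (n + 1)) ∈ q) : False := by
  classical
  have hl : HL α := ⟨s, hs, hs'⟩
  obtain ⟨l₁, l₂⟩ := lad_spec hl
  refine lab_false cov hG (H := atTop) (T := TG σ b α)
    (fun w hw p hp => Or.inr ⟨b, α, hl, w, hw, hp⟩)
    (V := {n | ¬ SC (XG σ (G i)) U fun q => TG σ b α n ∈ q}) ?_
    fun S hS => Eventually.of_forall fun n hn hsc => hn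
      (sc_sub cov hS (inter_comm _ _).subset hsc)
  refine infinite_of_forall_exists_gt fun m => ?_
  by_contra hn
  push Not at hn
  choose k hk using fun j => hs' _ (l₁ j)
  obtain ⟨k₀, hk₀⟩ := ((finite_Iic m).image k).bddAbove
  obtain ⟨m', hm'⟩ := l₂ _ (hs (k₀ + 1))
  have c := SC.ct (ι := Ioi m) (P := fun n q => TG σ b α n.1 ∈ q) fun n =>
    by_contra fun hc => not_le.2 n.2 (hn n.1 hc)
  have c' : SC (XG σ (G i)) U fun q => (⋃ n ∈ Ioc m m', TG σ b α n) ∈ q := c.mono fun q _ hq => by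
    obtain ⟨n, h₁, h₂⟩ := (Ultrafilter.finite_biUnion_mem_iff (finite_Ioc _ _)).1 hq
    exact ⟨⟨n, h₁.1⟩, h₂⟩
  have e₁ := Es_sub_small (σ := σ) (b := b) (α := s k₀) (a := lad α '' Iic m)
    (((finite_Iic m).image _).lt_aleph0.trans aleph0_lt) (by
      rintro _ ⟨j, hj, rfl⟩
      exact (hk j).le.trans (mono.monotone (hk₀ ⟨j, hj, rfl⟩)))
  refine h k₀ (sc_sub cov (inter_mem e₁ (Es_sub (σ := σ) (b := b) hm'.le)) ?_ c')
  rintro x ⟨⟨d₁, d₂⟩, d₃, d₄⟩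
  have ex : ∃ n, x ∉ Es σ b (lad α n) := ⟨m', fun h => d₂ (d₄ h)⟩
  refine mem_biUnion (x := Nat.find ex) ⟨not_le.1 fun h => Nat.find_spec ex (d₃ d₁ _ ⟨_, h, rfl⟩),
    Nat.find_min' ex fun h => d₂ (d₄ h)⟩ ⟨Nat.find_spec ex, fun j hj => ?_⟩
  exact not_not.1 (Nat.find_min ex hj)

theorem step_G [Big K] (hG : Nov G) (cov : ∀ p ∈ XG σ (G i), ∃ A ∈ U, A ∈ p)
    (hn : ¬ SC (XG σ (G i)) U fun _ => True)
    (hE : ∀ β < α, ¬ SC (XG σ (G i)) U fun q => Es σ b β ∈ q) :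
    ¬ SC (XG σ (G i)) U fun q => Ds σ b α ∈ q := by
  intro hD
  obtain ⟨S, hS, hsc⟩ := sc_compact cov (F := comap (rho σ (b, α)) atTop)
    fun p hp => Or.inl (Or.inr ⟨(b, α), tendsto_iff_comap.2 hp⟩)
  obtain ⟨S', h₁, h₂⟩ := mem_comap.1 hS
  obtain ⟨ζ, hζ⟩ := mem_atTop_sets.1 h₁
  have ha := small_M (σ := σ) α ζ (· < α)
  set a := {β | β < α ∧ ∃ ξ < ζ, β ∈ σ.M α ξ}
  have hZ : SC (XG σ (G i)) U fun q => {x | ∀ β ∈ a, x ∈ Es σ b β} ∈ q := by
    refine (hD.or hsc).mono fun q _ hq => Ultrafilter.union_mem_iff.1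
      (mem_of_superset hq fun x hx => ?_)
    by_cases h : x ∈ Ds σ b α
    · exact Or.inl h
    · obtain ⟨-, ⟨β, d₁, d₂, d₃⟩, -⟩ := rho_nD h
      exact Or.inr (h₂ (hζ _ (not_lt.1 fun hlt => d₃ (hx β ⟨d₂, _, hlt, d₁⟩))))
  have cof : ∀ β < α, ∃ γ ∈ a, β < γ := by
    intro β hβ
    by_contra hc
    push Not at hc
    exact hE β hβ (sc_sub cov (Es_sub_small (σ := σ) (b := b) ha hc) (fun x hx => hx.2 hx.1) hZ)
  obtain ⟨β₀, h₀⟩ : ∃ β, β < α := by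
    by_contra hc
    exact hn (hZ.mono fun q _ _ => univ_mem' fun x β hβ => absurd ⟨β, hβ.1⟩ hc)
  choose f f₁ f₂ f₃ using fun β : Iio α =>
    split_G hG cov ha (fun _ h => h.1) cof hZ β.2 (hE β.1 β.2)
  let s : ℕ → Iio α := fun n => Nat.rec ⟨β₀, h₀⟩ (fun _ β => ⟨f β, f₂ β⟩) n
  have mono : StrictMono fun n => (s n).1 := strictMono_nat_of_lt_succ fun n => f₁ (s n)
  obtain ⟨α', d₁, d₂⟩ := wellFounded_lt.has_min {γ | ∀ n, (s n).1 < γ} ⟨α, fun n => (s n).2⟩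
  refine die_G (b := b) hG cov d₁ (fun β hβ => ?_) mono fun n => f₃ (s n)
  obtain ⟨n, hn⟩ : ∃ n, β ≤ (s n).1 := by
    by_contra hc
    push Not at hc
    exact d₂ β hc hβ
  exact ⟨n + 1, hn.trans_lt (mono (Nat.lt_succ_self n))⟩

theorem kc_XG [Big K] (hG : Nov G) (hno : ∀ b, ∃ α, (Ds σ b α)ᶜ ∈ (atTop : Filter K)) (i : Bool) :
    KC (XG σ (G i)) := by
  classical
  intro U cov
  by_contra hn
  have hn' : ¬ SC (XG σ (G i)) U fun _ => True := fun ⟨V, h₁, h₂, h₃⟩ =>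
    hn ⟨V, h₁, h₂, fun p hp => h₃ p hp trivial⟩
  let F : (W → Bool) → W → Bool := fun b α =>
    decide (¬ SC (XG σ (G i)) U fun q => Ds σ b α ∩ σ.A b α ∈ q)
  let b : W → Bool := wellFounded_lt.fix fun α f =>
    F (fun β => if h : β < α then f β h else false) α
  have hb : ∀ α, b α = F b α := fun α => by
    have e : ∀ β < α, (fun β => if β < α then b β else false) β = b β := fun β hβ => if_pos hβ
    have : b α = F (fun β => if β < α then b β else false) α := wellFounded_lt.fix_eq _ α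
    rw [this]
    simp only [F, Ds_congr (σ := σ) e, σ.loc _ _ α e]
  have key : ∀ α, (¬ SC (XG σ (G i)) U fun q => Ds σ b α ∈ q) →
      ¬ SC (XG σ (G i)) U fun q => Es σ b α ∈ q := by
    intro α hD hE
    by_cases h : SC (XG σ (G i)) U fun q => Ds σ b α ∩ σ.A b α ∈ q
    · have e : b α = false := by rw [hb]; simpa [F] using h
      refine hD ((h.or hE).mono fun q _ hq => Ultrafilter.union_mem_iff.1
        (mem_of_superset hq fun x hx => ?_))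
      by_cases hx' : x ∈ σ.A b α
      · exact Or.inl ⟨hx, hx'⟩
      · exact Or.inr ⟨hx, iff_of_false hx' (by simp [e])⟩
    · have e : b α = true := by rw [hb]; simpa [F] using h
      exact h (hE.mono fun q _ hq => mem_of_superset hq fun x hx => ⟨hx.1, iff_of_true hx.2 e⟩)
  have all : ∀ α, ¬ SC (XG σ (G i)) U fun q => Ds σ b α ∈ q := fun α => by
    induction α using WellFoundedLT.induction with
    | ind α ih => exact step_G hG cov hn' fun β hβ => key β (ih β hβ)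
  obtain ⟨α, hα⟩ := hno b
  exact all α (sc_sub cov hα (fun x hx => absurd hx.1 hx.2) (S' := ∅)
    (SC.of_false.mono fun q _ hq => empty_notMem (q : Filter K) hq))

theorem game [Big K] (sq : SQ K) (σ : Strat K W) : ∃ b, ∀ α ζ, ∃ x, ζ ≤ x ∧ x ∈ Ds σ b α := by
  obtain ⟨G, hG⟩ := exists_nov
  by_contra hn
  push Not at hn
  have hno : ∀ b, ∃ α, (Ds σ b α)ᶜ ∈ (atTop : Filter K) := fun b =>
    (hn b).imp fun α ⟨ζ, h⟩ => mem_atTop_sets.2 ⟨ζ, h⟩
  exact lemR sq hG regr_rho (XG_inter (σ := σ) hG ▸ sq _ _ (kc_XG hG hno false) (kc_XG hG hno true))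

end Pool.Agent.MP_be203f_lc.Z

end

section

namespace Pool.Agent.MP_be203f_lc.Z

open Cardinal Set Filter

universe u

variable {K L : Type u} [LinearOrder K] [OrderBot K] [LinearOrder L]

/-- Nonzero closure points of a function. -/
def Cp (h : K → K) : Set K := {x | x ≠ ⊥ ∧ ∀ ξ < x, h ξ < x}

/-- Diagonal intersection of the decided sets along an enumeration. -/
def Dg (A : L → Set K) (e : L → K → L) (c : L → Bool) (α : L) : Set K :=
  {x | ∀ ξ < x, e α ξ < α → (x ∈ A (e α ξ) ↔ c (e α ξ) = true)}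

open Classical in
/-- A function whose closure points miss the set, if there is one. -/
noncomputable def hh (S : Set K) : K → K := if h : ∃ h, S ∩ Cp h = ∅ then h.choose else id

theorem hh_spec {S : Set K} (h : ∃ h, S ∩ Cp h = ∅) : S ∩ Cp (hh S) = ∅ := by
  rw [hh, dif_pos h]; exact h.choose_spec

variable [RK K]

omit [OrderBot K] in
theorem small_prod {α β : Type u} (h : #α < #K) (h' : #β < #K) : #(α × β) < #K := by
  simpa using mul_lt_of_lt aleph0_lt.le h h'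

/-- The stage with the given coordinates. -/
def st (α : L) (i : Fin 3) (ξ : K) : Lex (L × Lex (Fin 3 × K)) := toLex (α, toLex (i, ξ))

omit [OrderBot K] [RK K] in
theorem st_lt₁ {α β : L} (h : α < β) (i j : Fin 3) (ξ η : K) : st α i ξ < st β j η :=
  Prod.Lex.toLex_lt_toLex.2 (Or.inl h)

omit [OrderBot K] [RK K] in
theorem st_lt₂ (α : L) {i j : Fin 3} (h : i < j) (ξ η : K) : st α i ξ < st α j η :=
  Prod.Lex.toLex_lt_toLex.2 (Or.inr ⟨rfl, Prod.Lex.toLex_lt_toLex.2 (Or.inl h)⟩)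

/-- The strategy that forces normality. -/
noncomputable def nstrat (A : L → Set K) (e : L → K → L) (he : ∀ α β, β < α → ∃ ξ, e α ξ = β) :
    Strat K (Lex (L × Lex (Fin 3 × K))) where
  A b w := if (ofLex (ofLex w).2).1 = 1 then
    Iic (hh (Dg A e (fun β => b (st β 0 ⊥)) (ofLex w).1) (ofLex (ofLex w).2).2) else A (ofLex w).1
  M w ξ := range fun t : Iic ξ × Iic ξ × ULift.{u} (Bool × Fin 3) =>
    st (cond t.2.2.down.1 (ofLex w).1 (e (ofLex w).1 t.1.1)) t.2.2.down.2 t.2.1.1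
  loc b b' w h := by
    have : Dg A e (fun β => b (st β 0 ⊥)) (ofLex w).1 = Dg A e (fun β => b' (st β 0 ⊥)) (ofLex w).1 :=
      Set.ext fun x => forall₂_congr fun ξ _ => forall_congr' fun hξ => by
        dsimp only
        rw [h _ (st_lt₁ hξ 0 (ofLex (ofLex w).2).1 ⊥ (ofLex (ofLex w).2).2)]
    rw [this]
  small w ξ := mk_range_le.trans_lt (small_prod (small_Iic ξ) (small_prod (small_Iic ξ)
    ((mk_le_aleph0 (α := ULift (Bool × Fin 3))).trans_lt aleph0_lt)))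
  cov := by
    rintro ⟨α, i, ξ⟩ ⟨β, j, η⟩ h
    rcases Prod.Lex.toLex_lt_toLex.1 h with h | ⟨h, -⟩
    · obtain ⟨ζ, rfl⟩ := he α β h
      exact ⟨max ζ η, ⟨⟨ζ, le_max_left _ _⟩, ⟨η, le_max_right _ _⟩, ⟨false, j⟩⟩, rfl⟩
    · obtain rfl : β = α := h
      exact ⟨η, ⟨⟨η, le_rfl⟩, ⟨η, le_rfl⟩, ⟨true, j⟩⟩, rfl⟩

theorem exists_dec [Big K] [WellFoundedLT L] (sq : SQ K) (A : L → Set K) {e : L → K → L}
    (he : ∀ α β, β < α → ∃ ξ, e α ξ = β) :
    ∃ c : L → Bool, ∀ α h, (Dg A e c α ∩ Cp h).Nonempty := by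
  obtain ⟨b, hb⟩ := game sq (nstrat A e he)
  refine ⟨fun β => b (st β 0 ⊥), fun α h => ?_⟩
  by_contra hn
  have h₀ := hh_spec ⟨h, not_nonempty_iff_eq_empty.1 hn⟩
  set g := hh (Dg A e (fun β => b (st β 0 ⊥)) α)
  have hA : ∀ ξ, (nstrat A e he).A b (st α 1 ξ) = Iic (g ξ) := fun ξ => rfl
  have hf : ∀ ξ, ¬ b (st α 1 ξ) = true := by
    intro ξ hξ
    obtain ⟨ζ, hζ⟩ := mem_atTop_sets.1 (inter_mem (Ioi_mem_atTop (g ξ))
      (Ds_sub (σ := nstrat A e he) (b := b) (st_lt₂ α (show (1 : Fin 3) < 2 by decide) ξ ⊥)))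
    obtain ⟨x, h₁, h₂⟩ := hb (st α 2 ⊥) ζ
    have := ((hζ x h₁).2 h₂).2.2 hξ
    rw [hA] at this
    exact not_le.2 (hζ x h₁).1 this
  obtain ⟨ζ, hζ⟩ := exists_gt (⊥ : K)
  obtain ⟨x, h₁, h₂⟩ := hb (st α 2 ⊥) ζ
  refine (h₀ ▸ (⟨fun ξ hξ hlt => ?_, (hζ.trans_le h₁).ne', fun ξ hξ => ?_⟩ :
    x ∈ Dg A e (fun β => b (st β 0 ⊥)) α ∩ Cp g) : x ∈ (∅ : Set K))
  · exact (mem_Ds.1 h₂ ξ hξ (st (e α ξ) 0 ⊥) ⟨⟨⟨ξ, le_rfl⟩, ⟨⊥, bot_le⟩, ⟨false, 0⟩⟩, rfl⟩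
      (st_lt₁ hlt _ _ _ _)).2
  · have := (mem_Ds.1 h₂ ξ hξ (st α 1 ξ) ⟨⟨⟨ξ, le_rfl⟩, ⟨ξ, le_rfl⟩, ⟨true, 1⟩⟩, rfl⟩
      (st_lt₂ α (by decide) _ _)).2
    rw [hA] at this
    exact not_le.1 fun h => hf ξ (this.1 h)

theorem Dg_diag {A : L → Set K} {e : L → K → L} (he : ∀ α β, β < α → ∃ ξ, e α ξ = β)
    (c : L → Bool) {α : K → L} {γ : L} (hγ : ∀ ξ, α ξ ≤ γ) (h : K → K → K) :
    ∃ h', Dg A e c γ ∩ Cp h' ⊆ {x | ∀ ξ < x, x ∈ Dg A e c (α ξ) ∩ Cp (h ξ)} := by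
  have : ∀ ξ η, ∃ ζ, e (α ξ) η < α ξ → e γ ζ = e (α ξ) η := fun ξ η => by
    by_cases h : e (α ξ) η < α ξ
    · exact (he γ _ (h.trans_le (hγ ξ))).imp fun _ h _ => h
    · exact ⟨⊥, fun h' => absurd h' h⟩
  choose g hg using this
  choose h' hh' using fun ζ : K => bdd (small_prod (small_Iic ζ) (small_Iic ζ))
    fun t => max (g t.1.1 t.2.1) (h t.1.1 t.2.1)
  refine ⟨h', fun x ⟨h₁, h₂, h₃⟩ ξ hξ => ?_⟩
  have key : ∀ η < x, max (g ξ η) (h ξ η) < x := fun η hη =>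
    (hh' (max ξ η) ⟨⟨ξ, le_max_left _ _⟩, ⟨η, le_max_right _ _⟩⟩).trans (h₃ _ (max_lt hξ hη))
  refine ⟨fun η hη hlt => ?_, h₂, fun η hη => (le_max_right _ _).trans_lt (key η hη)⟩
  have := h₁ (g ξ η) ((le_max_left _ _).trans_lt (key η hη))
  rw [hg ξ η hlt] at this
  exact this (hlt.trans_le (hγ ξ))

theorem normal_filter [Big K] (sq : SQ K) (S : Set (Set K)) (hS : #S ≤ Order.succ #K) :
    ∃ F : Filter K, F.NeBot ∧ (∀ x, Ioi x ∈ F) ∧
      (∀ T : Set (Set K), #T < #K → (∀ B ∈ T, B ∈ F) → ⋂₀ T ∈ F) ∧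
      (∀ B : K → Set K, (∀ ξ, B ξ ∈ F) → {x | ∀ ξ < x, x ∈ B ξ} ∈ F) ∧
      ∀ B ∈ S, B ∈ F ∨ Bᶜ ∈ F := by
  classical
  let L := (Order.succ #K).ord.ToType
  have eL : #L = Order.succ #K := mk_ord_toType _
  have sm : ∀ x : L, #(Iio x) < #L := fun x => mk_Iio_lt x (by rw [eL, Ordinal.type_toType])
  have : RK L := ⟨inferInstance, sm, eL ▸ isRegular_succ aleph0_lt.le,
    eL ▸ aleph0_lt.trans (Order.lt_succ _)⟩
  have hKL : #K < #L := eL ▸ Order.lt_succ _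
  obtain ⟨A, hA⟩ : ∃ A : L → Set K, ∀ B ∈ S, ∃ β, A β = B := by
    obtain ⟨f⟩ : #S ≤ #L := eL ▸ hS
    exact ⟨Function.extend f Subtype.val fun _ => ∅, fun B hB =>
      ⟨f ⟨B, hB⟩, f.injective.extend_apply _ _ _⟩⟩
  have : ∀ α : L, ∃ e : K → L, ∀ β < α, ∃ ξ, e ξ = β := fun α => by
    obtain ⟨f⟩ : #(Iio α) ≤ #K := Order.lt_succ_iff.1 ((sm α).trans_eq eL)
    exact ⟨Function.extend f Subtype.val fun _ => α, fun β hβ =>
      ⟨f ⟨β, hβ⟩, f.injective.extend_apply _ _ _⟩⟩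
  choose e he using this
  obtain ⟨c, hc⟩ := exists_dec sq A he
  let F : Filter K :=
    { sets := {B | ∃ α h, Dg A e c α ∩ Cp h ⊆ B}
      univ_sets := ⟨Classical.arbitrary _, id, subset_univ _⟩
      sets_of_superset := fun ⟨α, h, h₁⟩ h₂ => ⟨α, h, h₁.trans h₂⟩
      inter_sets := by
        rintro B B' ⟨α, h, h₁⟩ ⟨α', h', h₂⟩
        obtain ⟨g, hg⟩ := Dg_diag (A := A) he c (α := fun _ => α) (γ := max α α')
          (fun _ => le_max_left _ _) fun _ => h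
        obtain ⟨g', hg'⟩ := Dg_diag (A := A) he c (α := fun _ => α') (γ := max α α')
          (fun _ => le_max_right _ _) fun _ => h'
        refine ⟨max α α', fun ξ => max (g ξ) (g' ξ), fun x ⟨d₁, d₂, d₃⟩ => ⟨h₁ (hg ⟨d₁, d₂,
          fun ξ hξ => (le_max_left _ _).trans_lt (d₃ ξ hξ)⟩ ⊥ (bot_lt_iff_ne_bot.2 d₂)),
          h₂ (hg' ⟨d₁, d₂, fun ξ hξ => (le_max_right _ _).trans_lt (d₃ ξ hξ)⟩ ⊥
            (bot_lt_iff_ne_bot.2 d₂))⟩⟩ }
  have tail : ∀ x, Ioi x ∈ F := fun x => ⟨Classical.arbitrary _, fun _ => x,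
    fun y hy => hy.2.2 ⊥ (bot_lt_iff_ne_bot.2 hy.2.1)⟩
  have diag : ∀ B : K → Set K, (∀ ξ, B ξ ∈ F) → {x | ∀ ξ < x, x ∈ B ξ} ∈ F := by
    intro B hB
    choose α h hα using hB
    obtain ⟨γ, hγ⟩ := bdd hKL α
    obtain ⟨h', hh'⟩ := Dg_diag (A := A) he c (fun ξ => (hγ ξ).le) h
    exact ⟨γ, h', fun x hx ξ hξ => hα ξ (hh' hx ξ hξ)⟩
  refine ⟨F, forall_mem_nonempty_iff_neBot.1 fun B ⟨α, h, hB⟩ => (hc α h).mono hB, tail,
    fun T hT hT' => ?_, diag, fun B hB => ?_⟩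
  · obtain ⟨f⟩ := hT.le
    obtain ⟨γ, hγ⟩ := bdd hT f
    refine mem_of_superset (inter_mem (tail γ) (diag (Function.extend f Subtype.val
      fun _ => Set.univ) fun ξ => ?_)) fun x hx B hB => ?_
    · by_cases h : ∃ B, f B = ξ
      · obtain ⟨B, rfl⟩ := h
        rw [f.injective.extend_apply]; exact hT' _ B.2
      · rw [Function.extend_apply' _ _ _ h]; exact univ_mem
    · have := hx.2 (f ⟨B, hB⟩) ((hγ _).trans hx.1)
      rwa [f.injective.extend_apply] at this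
  · obtain ⟨β, rfl⟩ := hA B hB
    obtain ⟨α, hα⟩ := exists_gt β
    obtain ⟨ξ, rfl⟩ := he α β hα
    have : {x | x ∈ A (e α ξ) ↔ c (e α ξ) = true} ∈ F := ⟨α, fun _ => ξ, fun x hx =>
      hx.1 ξ (hx.2.2 ⊥ (bot_lt_iff_ne_bot.2 hx.2.1)) hα⟩
    by_cases h : c (e α ξ) = true
    · exact Or.inl (mem_of_superset this fun x hx => hx.2 h)
    · exact Or.inr (mem_of_superset this fun x hx h' => h (hx.1 h'))

end Pool.Agent.MP_be203f_lc.Z

end

section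

namespace Pool.Agent.MP_be203f_lc.Z

open Cardinal Set Filter Pool.Agent.MP_be203f_lc.R

universe u

theorem normal_of_sq {k : Cardinal.{u}} (hk : ℵ₀ < k) (h : SqCompact k (2 ^ k))
    (S : Set (Set k.ord.ToType)) (hS : #S ≤ Order.succ k) :
    ∃ F : Filter k.ord.ToType, F.NeBot ∧ (∀ x, Ioi x ∈ F) ∧
      (∀ T : Set (Set k.ord.ToType), #T < k → (∀ B ∈ T, B ∈ F) → ⋂₀ T ∈ F) ∧
      (∀ B : k.ord.ToType → Set k.ord.ToType, (∀ ξ, B ξ ∈ F) → {x | ∀ ξ < x, x ∈ B ξ} ∈ F) ∧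
      ∀ B ∈ S, B ∈ F ∨ Bᶜ ∈ F := by
  obtain ⟨sq, _, _⟩ := rk_of_sq hk h
  let _ : OrderBot k.ord.ToType := WellFoundedLT.toOrderBot _
  have e : #k.ord.ToType = k := mk_ord_toType k
  have := normal_filter sq S (e.symm ▸ hS)
  rwa [e] at this

theorem separate (k : Cardinal.{u}) (hk : ℵ₀ < k)
    (hp : ∀ c : k.ord.ToType → k.ord.ToType → Bool, ∃ (H : Set k.ord.ToType) (i : Bool),
      #H = k ∧ ∀ a ∈ H, ∀ b ∈ H, a < b → c a b = i) :
    ∃ l ≤ k, ℵ₀ < l ∧ SqCompact l l ∧ ¬ SqCompact l (2 ^ l) := by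
  classical
  obtain ⟨l, ⟨hl, hp'⟩, hmin⟩ := wellFounded_lt.has_min {k : Cardinal.{u} | ℵ₀ < k ∧
    ∀ c : k.ord.ToType → k.ord.ToType → Bool, ∃ (H : Set k.ord.ToType) (i : Bool),
      #H = k ∧ ∀ a ∈ H, ∀ b ∈ H, a < b → c a b = i} ⟨k, hk, hp⟩
  refine ⟨l, not_lt.1 (hmin k ⟨hk, hp⟩), hl, sq_of_part l hl hp', fun h => ?_⟩
  obtain ⟨-, _, hbig⟩ := rk_of_sq hl h
  have e : #l.ord.ToType = l := mk_ord_toType l
  have : ∀ x : l.ord.ToType, ∃ c : Iio x → Iio x → Bool, ℵ₀ < #(Iio x) → ∀ (H : Set (Iio x)) i,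
      #H = #(Iio x) → ¬ ∀ a ∈ H, ∀ b ∈ H, a < b → c a b = i := by
    intro x
    by_cases hx : ℵ₀ < #(Iio x)
    · have h₁ : ¬ (ℵ₀ < #(Iio x) ∧ ∀ c : (#(Iio x)).ord.ToType → (#(Iio x)).ord.ToType → Bool,
          ∃ (H : Set (#(Iio x)).ord.ToType) (i : Bool), #H = #(Iio x) ∧
            ∀ a ∈ H, ∀ b ∈ H, a < b → c a b = i) :=
        fun h₁ => hmin _ h₁ ((RK.small x).trans_eq e)
      push Not at h₁
      obtain ⟨c, hc⟩ := h₁ hx
      obtain ⟨φ⟩ := Cardinal.eq.1 (mk_ord_toType #(Iio x)).symm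
      refine ⟨fun a b => c (min (φ a) (φ b)) (max (φ a) (φ b)), fun _ H i hH hh => ?_⟩
      obtain ⟨_, ⟨a, ha, rfl⟩, _, ⟨b, hb, rfl⟩, h₂, h₃⟩ :=
        hc (φ '' H) i ((mk_image_eq φ.injective).trans hH)
      rcases lt_or_gt_of_ne (fun e : a = b => h₂.ne (congrArg φ e)) with h₄ | h₄
      · exact h₃ (by simpa [min_eq_left h₂.le, max_eq_right h₂.le] using hh a ha b hb h₄)
      · exact h₃ (by simpa [min_eq_right h₂.le, max_eq_left h₂.le] using hh b hb a ha h₄)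
    · exact ⟨fun _ _ => true, fun h' => absurd h' hx⟩
  choose c' hc' using this
  let cc : l.ord.ToType → l.ord.ToType → l.ord.ToType → Bool := fun a b x =>
    if h : a < x ∧ b < x then c' x ⟨a, h.1⟩ ⟨b, h.2⟩ else false
  obtain ⟨F, hF, tail, comp, diag, dec⟩ := normal_of_sq hl h
    (range fun t : l.ord.ToType × l.ord.ToType => {x | cc t.1 t.2 x = true})
    (mk_range_le.trans (by simp [mul_eq_self hl.le, Order.le_succ]))
  have : ∀ a b, ∃ i, {x | cc a b x = i} ∈ F := fun a b =>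
    (dec _ ⟨(a, b), rfl⟩).elim (fun h => ⟨true, h⟩) fun h =>
      ⟨false, mem_of_superset h fun x hx => by simpa using hx⟩
  choose c hc using this
  obtain ⟨H, i, hH, hi⟩ := hp' c
  obtain ⟨η⟩ : #l.ord.ToType ≤ #H := by rw [e, hH]
  obtain ⟨s, hs⟩ : ∃ s : Set l.ord.ToType, #s = 𝔠 := le_mk_iff_exists_set.1 hbig.big.le
  obtain ⟨x₀, hx₀⟩ := bdd (ι := s) (hs ▸ hbig.big) Subtype.val
  have hB : ∀ b, ⋂₀ ((fun a => {x | cc a b x = c a b}) '' Iio b) ∈ F := fun b =>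
    comp _ (mk_image_le.trans_lt ((RK.small b).trans_eq e)) (by
      rintro _ ⟨a, -, rfl⟩
      exact hc a b)
  obtain ⟨x, ⟨a₁, a₂⟩, a₃⟩ := hF.nonempty_of_mem (inter_mem (inter_mem (tail x₀)
    (diag (fun ξ => Ioi (η ξ).1) fun ξ => tail _)) (diag _ hB))
  refine hc' x (aleph0_lt_continuum.trans_le (hs ▸ mk_le_mk_of_subset fun y hy =>
    (hx₀ ⟨y, hy⟩).trans a₁)) {z | z.1 ∈ H} i (le_antisymm (mk_set_le _)
      ⟨⟨fun y => ⟨⟨(η y.1).1, a₂ y.1 y.2⟩, (η y.1).2⟩, fun y y' h => Subtype.ext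
        (η.injective (Subtype.ext (congrArg (fun z => z.1.1) h)))⟩⟩) fun a ha b hb hab => ?_
  have h₁ : cc a.1 b.1 x = c a.1 b.1 := a₃ b.1 b.2 _ ⟨a.1, hab, rfl⟩
  have h₂ : cc a.1 b.1 x = c' x a b := dif_pos ⟨a.2, b.2⟩
  rw [← h₂, h₁, hi a.1 ha b.1 hb hab]

end Pool.Agent.MP_be203f_lc.Z

end
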